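import Mathlib

/-!
Sequences, the operators and the polynomials `u^k P_{N-2k}` (as coefficient sequences).
-/

namespace Pool.Agent.Helper49.LP

open Finset

section defs

variable {K : Type*} [Field K]

/-- the operator `u (x + θ) (x + m - θ)` on coefficient sequences -/
def Tm (m : ℕ) (x : K) (f : ℕ → K) : ℕ → K
  | 0 => 0
  | (s + 1) => (x + (s : K)) * (x + (m : K) - (s : K)) * f s

/-- multiplication by `u` -/
def U (f : ℕ → K) : ℕ → K
  | 0 => 0
  | (s + 1) => f s

/-- coefficient sequence of `u^k P_{N-2k}` -/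
def v (N k : ℕ) : ℕ → K := fun s =>
  if 2 * k ≤ N ∧ k ≤ s then (-1) ^ (s - k) * (((N - k - s).choose (s - k) : ℕ) : K) else 0

/-- linear combination of a triangular family -/
def lin (F : ℕ → ℕ → K) (c : ℕ → K) : ℕ → K := fun r => ∑ i ∈ range (r + 1), c i * F i r

/-- triangular family -/
def Tri (F : ℕ → ℕ → K) : Prop := ∀ i r, r < i → F i r = 0

end defs

section lin

variable {K : Type*} [Field K] {m : ℕ} {x : K}

theorem Tm_zero' (f : ℕ → K) : Tm m x f 0 = 0 := rfl

theorem Tm_succ (f : ℕ → K) (s : ℕ) :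
    Tm m x f (s + 1) = (x + (s : K)) * (x + (m : K) - (s : K)) * f s := rfl

theorem U_zero' (f : ℕ → K) : U f 0 = 0 := rfl

theorem U_succ (f : ℕ → K) (s : ℕ) : U f (s + 1) = f s := rfl

theorem Tm_add (f g : ℕ → K) : Tm m x (f + g) = Tm m x f + Tm m x g := by
  funext s
  cases s with
  | zero => simp [Tm]
  | succ s => simp only [Tm, Pi.add_apply]; ring

theorem Tm_smul (a : K) (f : ℕ → K) : Tm m x (a • f) = a • Tm m x f := by
  funext s
  cases s with
  | zero => simp [Tm]
  | succ s => simp only [Tm, Pi.smul_apply, smul_eq_mul]; ring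

theorem Tm_zero_fun : Tm m x (0 : ℕ → K) = 0 := by
  funext s
  cases s with
  | zero => simp [Tm]
  | succ s => simp [Tm]

theorem Tm_sum {ι : Type*} (s : Finset ι) (f : ι → ℕ → K) :
    Tm m x (∑ i ∈ s, f i) = ∑ i ∈ s, Tm m x (f i) := by
  classical
  induction s using Finset.induction_on with
  | empty => simp [Tm_zero_fun]
  | insert b s hb ih => rw [Finset.sum_insert hb, Finset.sum_insert hb, Tm_add, ih]

theorem Tm_inj (hx : ∀ z : ℤ, x + (z : K) ≠ 0) {f g : ℕ → K} (h : Tm m x f = Tm m x g) :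
    f = g := by
  funext s
  have h1 := congrFun h (s + 1)
  simp only [Tm] at h1
  have h2 : x + (s : K) ≠ 0 := by simpa using hx (s : ℤ)
  have h3 : x + (m : K) - (s : K) ≠ 0 := by
    have := hx ((m : ℤ) - (s : ℤ))
    push_cast at this
    rw [add_sub_assoc]
    exact this
  exact mul_left_cancel₀ (mul_ne_zero h2 h3) h1

/-- `θ T f = T ((θ + 1) f)` -/
theorem theta_Tm (f : ℕ → K) :
    (fun s : ℕ => (s : K)) * Tm m x f = Tm m x (fun s => ((s : K) + 1) * f s) := by
  funext s
  cases s with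
  | zero => simp [Tm]
  | succ s =>
    simp only [Tm, Pi.mul_apply]
    push_cast
    ring

theorem lin_congr {F G : ℕ → ℕ → K} {c d : ℕ → K} (h : ∀ i r, i ≤ r → c i * F i r = d i * G i r) :
    lin F c = lin G d := by
  funext r
  apply Finset.sum_congr rfl
  intro i hi
  rw [mem_range] at hi
  exact h i r (by omega)

theorem lin_add (F : ℕ → ℕ → K) (c d : ℕ → K) : lin F c + lin F d = lin F (fun i => c i + d i) := by
  funext r
  simp only [lin, Pi.add_apply]
  rw [← Finset.sum_add_distrib]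
  apply Finset.sum_congr rfl
  intro i _
  ring

theorem lin_smul (F : ℕ → ℕ → K) (a : K) (c : ℕ → K) : a • lin F c = lin F (fun i => a * c i) := by
  funext r
  simp only [lin, Pi.smul_apply, smul_eq_mul]
  rw [Finset.mul_sum]
  apply Finset.sum_congr rfl
  intro i _
  ring

theorem lin_zero (F : ℕ → ℕ → K) : lin F (fun _ => 0) = 0 := by
  funext r
  simp [lin]

theorem Tri.tm {F : ℕ → ℕ → K} (h : Tri F) : Tri (fun i => Tm m x (F i)) := by
  intro i r hr
  cases r with
  | zero => rfl
  | succ r =>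
    simp only [Tm]
    rw [h i r (by omega), mul_zero]

/-- triangular by one more -/
theorem Tri.tm' {F : ℕ → ℕ → K} (h : Tri F) (i r : ℕ) (hr : r ≤ i) : Tm m x (F i) r = 0 := by
  cases r with
  | zero => rfl
  | succ r =>
    simp only [Tm]
    rw [h i r (by omega), mul_zero]

theorem lin_Tm {F : ℕ → ℕ → K} (h : Tri F) (c : ℕ → K) :
    Tm m x (lin F c) = lin (fun i => Tm m x (F i)) c := by
  funext r
  cases r with
  | zero => simp [lin, Tm]
  | succ r =>
    simp only [lin, Tm]
    rw [Finset.sum_range_succ _ (r + 1), h (r + 1) r (by omega), mul_zero, mul_zero, add_zero,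
      Finset.mul_sum]
    apply Finset.sum_congr rfl
    intro i _
    ring

theorem lin_mul (g : ℕ → K) (F : ℕ → ℕ → K) (c : ℕ → K) :
    g * lin F c = lin (fun i => g * F i) c := by
  funext r
  simp only [lin, Pi.mul_apply]
  rw [Finset.mul_sum]
  apply Finset.sum_congr rfl
  intro i _
  ring

theorem lin_head {F : ℕ → ℕ → K} (h : Tri F) (c : ℕ → K) :
    lin F c = c 0 • F 0 + lin (fun i => F (i + 1)) (fun i => c (i + 1)) := by
  funext r
  simp only [lin, Pi.add_apply, Pi.smul_apply, smul_eq_mul]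
  have e1 : ∑ i ∈ range (r + 1), c (i + 1) * F (i + 1) r
      = ∑ i ∈ range r, c (i + 1) * F (i + 1) r := by
    rw [Finset.sum_range_succ, h (r + 1) r (by omega), mul_zero, add_zero]
  rw [e1, Finset.sum_range_succ', add_comm]

/-- shift of coordinates -/
def sh (c : ℕ → K) : ℕ → K
  | 0 => 0
  | (i + 1) => c i

theorem lin_sh {F : ℕ → ℕ → K} (h : Tri F) (c : ℕ → K) :
    lin (fun i => F (i + 1)) c = lin F (sh c) := by
  rw [lin_head h (sh c)]
  simp only [sh, zero_smul, zero_add]

/-- composition -/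
theorem lin_comp {F G : ℕ → ℕ → K} (hF : Tri F) {b : ℕ → ℕ → K}
    (hG : ∀ i, G i = lin (fun j => F (i + j)) (b i)) (c : ℕ → K) :
    lin G c = lin F (fun n => ∑ i ∈ range (n + 1), c i * b i (n - i)) := by
  funext r
  simp only [lin]
  have h1 : ∀ i ∈ range (r + 1), c i * G i r
      = ∑ n ∈ range (r + 1), if i ≤ n then c i * b i (n - i) * F n r else 0 := by
    intro i hi
    rw [mem_range] at hi
    rw [hG i]
    simp only [lin]
    rw [Finset.mul_sum]
    -- split range (r+1) of j
    have e1 : ∑ j ∈ range (r + 1), c i * (b i j * F (i + j) r)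
        = ∑ j ∈ range (r + 1 - i), c i * (b i j * F (i + j) r) := by
      symm
      apply Finset.sum_subset
      · intro j hj; rw [mem_range] at *; omega
      · intro j _ hj
        rw [mem_range] at hj
        rw [hF (i + j) r (by omega)]
        ring
    rw [e1]
    have e2 : ∑ n ∈ range (r + 1), (if i ≤ n then c i * b i (n - i) * F n r else 0)
        = ∑ n ∈ Ico i (r + 1), c i * b i (n - i) * F n r := by
      rw [← Finset.sum_filter]
      apply Finset.sum_congr
      · ext n; simp only [mem_filter, mem_range, mem_Ico]; omega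
      · intro _ _; rfl
    rw [e2, Finset.sum_Ico_eq_sum_range]
    apply Finset.sum_congr rfl
    intro j _
    rw [Nat.add_sub_cancel_left]
    ring
  rw [Finset.sum_congr rfl h1, Finset.sum_comm]
  apply Finset.sum_congr rfl
  intro n hn
  rw [mem_range] at hn
  rw [Finset.sum_mul, ← Finset.sum_filter]
  apply Finset.sum_congr
  · ext i; simp only [mem_filter, mem_range]; omega
  · intro i _; ring

end lin

section solve

variable {K : Type*} [Field K]

/-- solution of a triangular system -/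
noncomputable def slv (d a : ℕ → K) (κ : ℕ → ℕ → K) : ℕ → K
  | j => (a j + ∑ i : Fin j, slv d a κ i * κ i j) / d j
termination_by j => j
decreasing_by exact i.2

theorem slv_eq {d a : ℕ → K} {κ : ℕ → ℕ → K} (hd : ∀ j, d j ≠ 0) (j : ℕ) :
    d j * slv d a κ j = a j + ∑ i ∈ range j, slv d a κ i * κ i j := by
  rw [slv, mul_div_cancel₀ _ (hd j), Finset.sum_range]

end solve

section vlem

variable {K : Type*} [Field K]

theorem v_supp {N k s : ℕ} (h : (v N k s : K) ≠ 0) : 2 * k ≤ N ∧ k ≤ s ∧ 2 * s ≤ N := by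
  unfold v at h
  split at h
  · rename_i h1
    refine ⟨h1.1, h1.2, ?_⟩
    by_contra h2
    apply h
    have h3 : (N - k - s).choose (s - k) = 0 := by
      apply Nat.choose_eq_zero_of_lt
      omega
    rw [h3]; simp
  · exact absurd rfl h

theorem v_eq_zero {N k s : ℕ} (h : N < 2 * k ∨ s < k ∨ N < 2 * s) : (v N k s : K) = 0 := by
  by_contra h1
  have := v_supp h1
  omega

/-- (V1) -/
theorem v_rel (N k s : ℕ) :
    ((k : K) - (s : K)) * v N k s = ((N : K) - (k : K) - (s : K)) * v N (k + 1) s := by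
  by_cases h1 : 2 * k ≤ N ∧ k ≤ s
  swap
  · rw [v_eq_zero (N := N) (k := k) (by omega), v_eq_zero (N := N) (k := k + 1) (by omega)]
    ring
  obtain ⟨h1, h2⟩ := h1
  obtain ⟨j, rfl⟩ : ∃ j, s = k + j := ⟨s - k, by omega⟩
  by_cases hj0 : j = 0
  · subst hj0
    rw [v_eq_zero (N := N) (k := k + 1) (by omega)]
    simp
  obtain ⟨j, rfl⟩ : ∃ i, j = i + 1 := ⟨j - 1, by omega⟩
  by_cases h3 : N < 2 * (k + (j + 1))
  · rw [v_eq_zero (N := N) (k := k) (by omega), v_eq_zero (N := N) (k := k + 1) (by omega)]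
    ring
  obtain ⟨n, hn⟩ : ∃ n, N = 2 * (k + (j + 1)) + n := ⟨N - 2 * (k + (j + 1)), by omega⟩
  subst hn
  have e1 : (v (2 * (k + (j + 1)) + n) k (k + (j + 1)) : K)
      = (-1) ^ (j + 1) * (((j + 1 + n).choose (j + 1) : ℕ) : K) := by
    rw [v, if_pos (by omega)]
    congr 2
    · omega
    · congr 2 <;> omega
  have e2 : (v (2 * (k + (j + 1)) + n) (k + 1) (k + (j + 1)) : K)
      = (-1) ^ j * (((j + n).choose j : ℕ) : K) := by
    rw [v, if_pos (by omega)]
    congr 2
    · omega
    · congr 2 <;> omega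
  rw [e1, e2]
  have e3 : (j + 1) * (j + 1 + n).choose (j + 1) = (j + n + 1) * (j + n).choose j := by
    have := Nat.add_one_mul_choose_eq (j + n) j
    rw [show j + 1 + n = j + n + 1 by ring]
    rw [this]; ring
  have e4 := congrArg (fun t : ℕ => (t : K)) e3
  push_cast at e4 ⊢
  linear_combination (-1 : K) ^ j * e4

/-- (V2) -/
theorem v_pascal {N k : ℕ} (h : 2 * k ≤ N) (s : ℕ) :
    (v N k s : K) = v (N + 1) k s + v (N + 1) (k + 1) s := by
  by_cases h2 : k ≤ s
  swap
  · rw [v_eq_zero (N := N) (k := k) (by omega), v_eq_zero (N := N + 1) (k := k) (by omega),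
      v_eq_zero (N := N + 1) (k := k + 1) (by omega)]
    ring
  obtain ⟨j, rfl⟩ : ∃ j, s = k + j := ⟨s - k, by omega⟩
  by_cases hj0 : j = 0
  · subst hj0
    rw [v_eq_zero (N := N + 1) (k := k + 1) (by omega), v, v, if_pos (by omega), if_pos (by omega)]
    simp
  obtain ⟨j, rfl⟩ : ∃ i, j = i + 1 := ⟨j - 1, by omega⟩
  by_cases h3 : N + 1 < 2 * (k + (j + 1))
  · rw [v_eq_zero (N := N) (k := k) (by omega), v_eq_zero (N := N + 1) (k := k) (by omega),
      v_eq_zero (N := N + 1) (k := k + 1) (by omega)]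
    ring
  obtain ⟨n, hn⟩ : ∃ n, N + 1 = 2 * (k + (j + 1)) + n := ⟨N + 1 - 2 * (k + (j + 1)), by omega⟩
  have e0 : (v (N + 1) k (k + (j + 1)) : K)
      = (-1) ^ (j + 1) * (((j + n + 1).choose (j + 1) : ℕ) : K) := by
    rw [v, if_pos (by omega)]
    congr 2
    · omega
    · congr 2 <;> omega
  have e1 : (v N k (k + (j + 1)) : K)
      = (-1) ^ (j + 1) * (((j + n).choose (j + 1) : ℕ) : K) := by
    rw [v, if_pos (by omega)]
    congr 2
    · omega
    · congr 2 <;> omega
  have e2 : (v (N + 1) (k + 1) (k + (j + 1)) : K)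
      = (-1) ^ j * (((j + n).choose j : ℕ) : K) := by
    rw [v, if_pos (by omega)]
    congr 2
    · omega
    · congr 2 <;> omega
  rw [e0, e1, e2, Nat.choose_succ_succ]
  push_cast
  ring

/-- (V3) -/
theorem U_v (N k : ℕ) : U (v N k : ℕ → K) = v (N + 2) (k + 1) := by
  funext s
  cases s with
  | zero => rw [U, v_eq_zero (by omega)]
  | succ s =>
    rw [U_succ, v, v]
    have e1 : N + 2 - (k + 1) - (s + 1) = N - k - s := by omega
    have e2 : s + 1 - (k + 1) = s - k := by omega
    rw [e1, e2]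
    by_cases h : 2 * k ≤ N ∧ k ≤ s
    · rw [if_pos h, if_pos (by omega)]
    · rw [if_neg h, if_neg (by omega)]

theorem v_zero_zero (N : ℕ) : (v N 0 0 : K) = 1 := by
  rw [v, if_pos (by omega)]
  simp

theorem v_small {N s : ℕ} (hN : N ≤ 1) (hs : 1 ≤ s) : (v N 0 s : K) = 0 :=
  v_eq_zero (by omega)

end vlem

end Pool.Agent.Helper49.LP
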