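import Pool.Agent.Helper49.LP.Seven

/-!
The difference `E_g(N-1) - E_g(N)`.
-/

namespace Pool.Agent.Helper49.LP

open Finset Pool.Agent.Helper77.Lom

section kappa

variable {K : Type*} [Field K] {m : ℕ} {x : K} {lam : ℕ → ℕ → K}

/-- the difference of neighbouring members of a family (`N` stands for `N - 1`) -/
def Rg (m : ℕ) (x : K) (g N : ℕ) : ℕ → K :=
  Gf m x g (m + 1 - N) N - Gf m x g (m + 1 - (N + 1)) (N + 1)

theorem Rg_small {g N : ℕ} (hg : g ≤ 1) : Rg m x g N = v (N + 1) 1 := by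
  rw [Rg, Gf_small hg, Gf_small hg]
  funext s
  rw [Pi.sub_apply, v_pascal (by omega)]
  ring

theorem Rg_eq (hx : ∀ z : ℤ, x + (z : K) ≠ 0) {g N : ℕ} (hg : g ≤ N) (hN : N ≤ m) (s : ℕ) :
    Rg m x g N s
      = (x + (m : K) - (g : K) + 1 + ((g : K) - (s : K))) *
          Bsum (fun k => v (N + 1) k s) (x + (m : K) - (g : K) + 1) ((g : K) - (s : K))
            (m - N + 1) (g / 2)
        + mc K (m - N + 1) (g / 2) / pch (x + (m : K) - (g : K) + 1) (g / 2) *
          ffk ((g : K) - (s : K)) (g / 2) * v (N + 1) (g / 2 + 1) s := by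
  have hσ : ∀ k : ℕ, x + (m : K) - (g : K) + 1 + (k : K) ≠ 0 := sig_ne hx g
  rw [← scal_II (v := fun k => v (N + 1) k s) hσ (m - N) (g / 2)]
  rw [Rg, Pi.sub_apply, Gf_eq, Gf_eq, show m + 1 - (N + 1) = m - N by omega,
    show m + 1 - N = m - N + 1 by omega]
  congr 1
  rw [Asum]
  apply Finset.sum_congr rfl
  intro k hk
  rw [mem_range] at hk
  rw [v_pascal (show 2 * k ≤ N by omega)]

theorem Tm_Yf1 (hx : ∀ z : ℤ, x + (z : K) ≠ 0) {g N a : ℕ} (ha : m + 1 - 1 - N = a) (s : ℕ) :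
    Tm m x (Yf m x 1 g N) s = U ((fun s : ℕ => x + (m : K) - (s : K)) * Gf m x g a N) s := by
  cases s with
  | zero => rw [Tm_zero', U_zero']
  | succ s =>
    rw [Tm_succ, U_succ, Pi.mul_apply, Yf, ha, pch_one]
    have h2 : x + (s : K) ≠ 0 := by simpa using hx (s : ℤ)
    field_simp

/-- the main term -/
theorem Tm_Zf0 (hx : ∀ z : ℤ, x + (z : K) ≠ 0) {g N : ℕ} (hN : N + 2 ≤ m + 1) (s : ℕ) :
    Tm m x ((x + (m : K) - ((g + 1 : ℕ) : K) + 1)⁻¹ • Zf m x 0 g N) s
      = (x + (m : K) - ((g + 1 : ℕ) : K) + 1 + (((g + 1 : ℕ) : K) - (s : K))) *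
      Bsum (fun k => v (N + 2) k s) (x + (m : K) - ((g + 1 : ℕ) : K) + 1)
        (((g + 1 : ℕ) : K) - (s : K)) (m - N) (g / 2 + 1) := by
  rw [Zf, if_pos rfl, Tm_smul, Pi.smul_apply, smul_eq_mul, Tm_Yf1 hx (a := m - N) (by omega),
    U_Gf hx]

/-- even `g` -/
theorem Rg_even (hx : ∀ z : ℤ, x + (z : K) ≠ 0) {K1 N : ℕ} (hg : 2 * (K1 + 1) ≤ N + 1)
    (hN : N + 1 ≤ m) :
    Rg m x (2 * (K1 + 1)) (N + 1)
      = Tm m x ((x + (m : K) - ((2 * K1 + 1 + 1 : ℕ) : K) + 1)⁻¹ • Zf m x 0 (2 * K1 + 1) N)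
        + (mc K (m - N) (K1 + 1) * (pch (x + (m : K) - ((2 * (K1 + 1) : ℕ) : K) + 1) (K1 + 1))⁻¹) •
          Ph (N + 2) (K1 + 1) (K1 + 2) := by
  funext s
  rw [Pi.add_apply, Tm_Zf0 hx (by omega), Rg_eq hx hg hN, show 2 * (K1 + 1) / 2 = K1 + 1 by omega,
    show (2 * K1 + 1) / 2 + 1 = K1 + 1 by omega, show m - (N + 1) + 1 = m - N by omega]
  have e0 : 2 * K1 + 1 + 1 = 2 * (K1 + 1) := by ring
  rw [e0]
  congr 1
  rw [Pi.smul_apply, smul_eq_mul, Ph, ffk_rev]
  have e1 : ∏ i ∈ range (K1 + 1), (((2 * (K1 + 1) : ℕ) : K) - (s : K) - ((K1 + 1 : ℕ) : K) + 1 + (i : K))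
      = ∏ i ∈ range (K1 + 1), (((K1 + 2 : ℕ) : K) + (i : K) - (s : K)) := by
    apply Finset.prod_congr rfl
    intro i _
    push_cast
    ring
  rw [e1]
  ring

/-- odd `g` -/
theorem Rg_odd (hx : ∀ z : ℤ, x + (z : K) ≠ 0) {K1 N : ℕ} (hg : 2 * K1 + 3 ≤ N + 1)
    (hN : N + 1 ≤ m) :
    Rg m x (2 * K1 + 3) (N + 1)
      = Tm m x ((x + (m : K) - ((2 * K1 + 2 + 1 : ℕ) : K) + 1)⁻¹ • Zo m x 0 (2 * K1 + 2) N)
        + (pch (x + (m : K) - ((2 * K1 + 3 : ℕ) : K) + 1) (K1 + 2))⁻¹ •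
          (mc K (m - N + 1) K1 • Ph (N + 2) (K1 + 2) (K1 + 2)
            + x⁻¹ • (mc K (m - N + 1) (K1 + 1) •
              (((m - (2 * K1 + 3) : ℕ) : K) • Ph (N + 2) (K1 + 2) (K1 + 2)
                + Ph (N + 2) (K1 + 3) (K1 + 2)))) := by
  have hZ : Zf m x 0 (2 * K1 + 2) N = Zo m x 0 (2 * K1 + 2) N + Wf m x 0 (2 * K1 + 2) N :=
    Zf_rec hx (by omega) (by omega)
  funext s
  have h1 := Tm_Zf0 hx (m := m) (g := 2 * K1 + 2) (N := N) (by omega) s
  rw [hZ, smul_add, Tm_add, Pi.add_apply] at h1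
  rw [Pi.add_apply, Rg_eq hx hg hN, show (2 * K1 + 3) / 2 = K1 + 1 by omega,
    show m - (N + 1) + 1 = m - N by omega]
  -- the boundary term
  have hx0 : x ≠ 0 := by simpa using hx 0
  have hW : Tm m x ((x + (m : K) - ((2 * K1 + 2 + 1 : ℕ) : K) + 1)⁻¹ • Wf m x 0 (2 * K1 + 2) N) s
      = (x + (m : K) + 1 - (s : K)) * (x⁻¹ * (mc K (m - N + 1) (K1 + 1) *
        ((pch (x + (m : K) - ((2 * K1 + 3 : ℕ) : K) + 1) (K1 + 2))⁻¹ *
          Ph (N + 2) (K1 + 2) (K1 + 2) s))) := by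
    cases s with
    | zero =>
      rw [Tm_zero', Ph, v_eq_zero (by omega)]
      ring
    | succ s =>
      rw [Tm_succ, Pi.smul_apply, smul_eq_mul, Wf, zero_add, Finset.sum_range_one, rho_zero,
        if_pos rfl, pch_one, Nat.sub_zero, show (2 * K1 + 2) / 2 = K1 + 1 by omega,
        show 2 * K1 + 2 - (K1 + 1) = K1 + 1 by omega, cg, if_pos (by omega), mul_one,
        show (2 * K1 + 2) / 2 = K1 + 1 by omega,
        show 2 * K1 + 2 - (K1 + 1) = K1 + 1 by omega, show m + 1 - N = m - N + 1 by omega]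
      have e1 : pch (x + (m : K) - ((2 * K1 + 3 : ℕ) : K) + 1) (K1 + 2)
          = (x + (m : K) - ((2 * K1 + 2 + 1 : ℕ) : K) + 1) *
            pch (x + (m : K) - ((2 * K1 + 2 : ℕ) : K) + 1) (K1 + 1) := by
        rw [pch_shift]
        congr 2
        push_cast
        ring
      have e2 : (Ph (N + 2) (K1 + 1 + 1) (K1 + 2) (s + 1) : K) = Ph N (K1 + 1 + 1) (K1 + 1) s := by
        rw [Ph, Ph, show K1 + 2 = K1 + 1 + 1 by ring, v_shift]
        congr 1
        apply Finset.prod_congr rfl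
        intro i _
        push_cast
        ring
      rw [e1, e2, mul_inv]
      have h2 : x + (s : K) ≠ 0 := by simpa using hx (s : ℤ)
      have h3 : x + (m : K) + 1 - ((s + 1 : ℕ) : K) = x + (m : K) - (s : K) := by push_cast; ring
      rw [h3]
      field_simp
  rw [hW] at h1
  have h5 : Tm m x ((x + (m : K) - ((2 * K1 + 2 + 1 : ℕ) : K) + 1)⁻¹ • Zo m x 0 (2 * K1 + 2) N) s
      = (x + (m : K) - ((2 * K1 + 2 + 1 : ℕ) : K) + 1 + (((2 * K1 + 2 + 1 : ℕ) : K) - (s : K))) *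
      Bsum (fun k => v (N + 2) k s) (x + (m : K) - ((2 * K1 + 2 + 1 : ℕ) : K) + 1)
        (((2 * K1 + 2 + 1 : ℕ) : K) - (s : K)) (m - N) ((2 * K1 + 2) / 2 + 1)
      - (x + (m : K) + 1 - (s : K)) * (x⁻¹ * (mc K (m - N + 1) (K1 + 1) *
        ((pch (x + (m : K) - ((2 * K1 + 3 : ℕ) : K) + 1) (K1 + 2))⁻¹ *
          Ph (N + 2) (K1 + 2) (K1 + 2) s))) := by
    rw [← h1]; ring
  rw [h5, show (2 * K1 + 2) / 2 + 1 = K1 + 1 + 1 by omega]
  have e3 : Bsum (fun k => v (N + 2) k s) (x + (m : K) - ((2 * K1 + 2 + 1 : ℕ) : K) + 1)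
        (((2 * K1 + 2 + 1 : ℕ) : K) - (s : K)) (m - N) (K1 + 1 + 1)
      = Bsum (fun k => v (N + 2) k s) (x + (m : K) - ((2 * K1 + 2 + 1 : ℕ) : K) + 1)
        (((2 * K1 + 2 + 1 : ℕ) : K) - (s : K)) (m - N) (K1 + 1)
        + mc K (m - N) (K1 + 1) / pch (x + (m : K) - ((2 * K1 + 2 + 1 : ℕ) : K) + 1) (K1 + 1 + 1) *
          ffk (((2 * K1 + 2 + 1 : ℕ) : K) - (s : K)) (K1 + 1) * v (N + 2) (K1 + 1 + 1) s := by
    rw [Bsum, Finset.sum_range_succ]; rfl
  rw [e3]
  simp only [Pi.add_apply, Pi.smul_apply, smul_eq_mul]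
  have e4 : (Ph (N + 2) (K1 + 2) (K1 + 2) s : K)
      = ffk (((2 * K1 + 3 : ℕ) : K) - (s : K)) (K1 + 1) *
        (((2 * K1 + 3 : ℕ) : K) - (s : K) - ((K1 + 1 : ℕ) : K)) * v (N + 2) (K1 + 2) s := by
    rw [← ffk_succ, ffk_rev, Ph]
    congr 1
    apply Finset.prod_congr rfl
    intro i _
    push_cast
    ring
  have e5 : (Ph (N + 2) (K1 + 3) (K1 + 2) s : K)
      = (((2 * K1 + 4 : ℕ) : K) - (s : K)) * Ph (N + 2) (K1 + 2) (K1 + 2) s := by
    rw [Ph, Finset.prod_range_succ, Ph]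
    push_cast
    ring
  rw [e5, e4]
  have e6 : mc K (m - N) (K1 + 1) = mc K (m - N + 1) (K1 + 1) - mc K (m - N + 1) K1 := by
    rw [mc_A]; ring
  have e7 : ((m - (2 * K1 + 3) : ℕ) : K) = (m : K) - (2 * (K1 : K) + 3) := by
    rw [Nat.cast_sub (by omega)]; push_cast; ring
  rw [e6, e7]
  have e8 : K1 + 1 + 1 = K1 + 2 := by ring
  have e9 : ((2 * K1 + 2 + 1 : ℕ) : K) = 2 * (K1 : K) + 3 := by push_cast; ring
  have e10 : ((2 * K1 + 3 : ℕ) : K) = 2 * (K1 : K) + 3 := by push_cast; ring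
  rw [e8, e9, show N + 1 + 1 = N + 2 by ring]
  have hq : pch (x + (m : K) - (2 * (K1 : K) + 3) + 1) (K1 + 1) ≠ 0 := by
    rw [pch, Finset.prod_ne_zero_iff]
    intro i _
    have := sig_ne (m := m) hx (2 * K1 + 3) i
    rwa [e10] at this
  have hq1 : x + (m : K) - (2 * (K1 : K) + 3) + 1 + ((K1 + 1 : ℕ) : K) ≠ 0 := by
    have := sig_ne (m := m) hx (2 * K1 + 3) (K1 + 1)
    rwa [e10] at this
  have e11 : pch (x + (m : K) - (2 * (K1 : K) + 3) + 1) (K1 + 2)
      = pch (x + (m : K) - (2 * (K1 : K) + 3) + 1) (K1 + 1) *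
        (x + (m : K) - (2 * (K1 : K) + 3) + 1 + ((K1 + 1 : ℕ) : K)) := pch_succ _ _
  rw [e11]
  push_cast at hq1 ⊢
  field_simp
  ring

/-- The expansion of the differences. -/
theorem kappa_bound (hl : Lm m x (m + 1) lam) (hx : ∀ z : ℤ, x + (z : K) ≠ 0) {n N : ℕ}
    (hgN : m - n ≤ N) (hN : N ≤ m) :
    ExW m x (m - n) (N + 1) (fun j => j = 0 ∨ (N + 1 < m - n + j ∧ n + j < m))
      (fun j i => Bd m n j i) (Rg m x (m - n) N) := by
  by_cases hg : m - n ≤ 1
  · rw [Rg_small hg]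
    refine (ExW.ofEx (s0 := 1) (by omega) (Ex.v hl hx 1 (N + 1) (by omega))).mono ?_ ?_
    · intro j _ h
      rcases h with h | h <;> omega
    · intro j hj hS i hi
      refine (tau_le_eps (by omega) i).trans ?_
      by_cases hc : 2 * i = m
      · rw [eps_small (by unfold hh; omega)]
        exact Nat.zero_le _
      · exact Bd_ge_eps hi hc (by omega)
  · obtain ⟨g, hgd⟩ : ∃ g, m - n = g := ⟨_, rfl⟩
    rw [hgd] at hg hgN ⊢
    obtain ⟨N, rfl⟩ : ∃ M, N = M + 1 := ⟨N - 1, by omega⟩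
    have hn1 : x + ((n + 1 : ℕ) : K) = x + (m : K) - (g : K) + 1 := by
      have : m = n + g := by omega
      rw [this]; push_cast; ring
    rcases Nat.even_or_odd g with ⟨K1, hK⟩ | ⟨K1, hK⟩
    · -- even
      obtain ⟨K1, rfl⟩ : ∃ K2, K1 = K2 + 1 := ⟨K1 - 1, by omega⟩
      have hg2 : g = 2 * (K1 + 1) := by omega
      subst hg2
      rw [Rg_even hx (by omega) (by omega)]
      refine ExW.add ?_ ?_
      · have h1 := (Z_bound hl hx (2 * K1 + 1) 0 n N (by omega) (by omega) (by omega)).2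
        rw [zero_add, pch_one, hn1] at h1
        have e0 : 2 * K1 + 1 + 1 = 2 * (K1 + 1) := by ring
        rw [e0]
        have h2 := ExW.shift (g := 2 * (K1 + 1)) (by
          rw [show 2 * (K1 + 1) - 1 = 2 * K1 + 1 by omega]; exact h1)
        refine h2.mono ?_ ?_
        · intro j _ h
          by_cases hj : j = 0
          · exact Or.inl hj
          · right
            omega
        · intro j hj hS i hi
          have hj0 : j ≠ 0 := fun h => hS (Or.inl h)
          rw [show 1 + (j - 1) = j by omega]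
      · -- tail
        rw [mul_smul]
        apply ExW.natMul
        rw [← hn1]
        have h3 : Ex m x 0 (N + 2) (Pf m x (2 * (K1 + 1) + 1) (tau m (2 * (K1 + 1) + 1)))
            (Ph (N + 2) (K1 + 1) (K1 + 2)) := by
          have := Ex.Ph hl hx (show N + 2 ≤ m + 1 by omega) (K1 + 1) (K1 + 2)
          rwa [show K1 + 2 + (K1 + 1) = 2 * (K1 + 1) + 1 by ring] at this
        have h4 := Cone.pchInv (m := m) hx (n + 1) (K1 + 1) (by omega)
        have h5 := ExW.ofEx (g := 2 * (K1 + 1)) (by omega) (Ex.coneMul h4 h3)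
        refine h5.mono ?_ ?_
        · intro j _ h
          rcases h with h | h <;> omega
        · intro j hj hS i hi
          have := tail_num (m := m) (n := n) (j := j) (i := i) (d := dh i (n + 1) (K1 + 1)) (d0 := 0)
            hi (by omega) (by omega) (by omega) (by unfold dh di; split <;> split <;> omega)
            (Nat.zero_le _)
          rw [show m - n + 1 = 2 * (K1 + 1) + 1 by omega] at this
          omega
    · -- odd
      obtain ⟨K1, rfl⟩ : ∃ K2, K1 = K2 + 1 := ⟨K1 - 1, by omega⟩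
      have hg2 : g = 2 * K1 + 3 := by omega
      subst hg2
      rw [Rg_odd hx (by omega) (by omega)]
      refine ExW.add ?_ ?_
      · have h1 := (Z_bound hl hx (2 * K1 + 2) 0 n N (by omega) (by omega) (by omega)).1
        rw [zero_add, pch_one, hn1] at h1
        have h2 := ExW.shift (g := 2 * K1 + 3) (by
          rw [show 2 * K1 + 3 - 1 = 2 * K1 + 2 by omega]; exact h1)
        refine h2.mono ?_ ?_
        · intro j _ h
          by_cases hj : j = 0
          · exact Or.inl hj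
          · right
            omega
        · intro j hj hS i hi
          have hj0 : j ≠ 0 := fun h => hS (Or.inl h)
          rw [show 1 + (j - 1) = j by omega]
      · rw [← hn1]
        have hP1 : Ex m x 0 (N + 2) (Pf m x (2 * K1 + 4) (tau m (2 * K1 + 4)))
            (Ph (N + 2) (K1 + 2) (K1 + 2)) := by
          have := Ex.Ph hl hx (show N + 2 ≤ m + 1 by omega) (K1 + 2) (K1 + 2)
          rwa [show K1 + 2 + (K1 + 2) = 2 * K1 + 4 by ring] at this
        have hP2 : Ex m x 0 (N + 2) (Pf m x (2 * K1 + 4) (tau m (2 * K1 + 4)))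
            (Ph (N + 2) (K1 + 3) (K1 + 2)) := by
          have := Ex.Ph hl hx (show N + 2 ≤ m + 1 by omega) (K1 + 3) (K1 + 2)
          rw [show K1 + 2 + (K1 + 3) = 2 * K1 + 5 by ring] at this
          refine this.mono (by omega) ?_
          intro j hj _ i _
          exact tau_anti (by omega) hj i
        have h4 := Cone.pchInv (m := m) hx (n + 1) (K1 + 2) (by omega)
        rw [smul_add]
        refine ExW.add ?_ ?_
        · rw [smul_comm]
          apply ExW.natMul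
          have h5 := ExW.ofEx (g := 2 * K1 + 3) (by omega) (Ex.coneMul h4 hP1)
          refine h5.mono ?_ ?_
          · intro j _ h
            rcases h with h | h <;> omega
          · intro j hj hS i hi
            have := tail_num (m := m) (n := n) (j := j) (i := i) (d := dh i (n + 1) (K1 + 2)) (d0 := 0)
              hi (by omega) (by omega) (by omega) (by unfold dh di; split <;> split <;> omega)
              (Nat.zero_le _)
            rw [show m - n + 1 = 2 * K1 + 4 by omega] at this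
            omega
        · rw [smul_smul, smul_comm]
          apply ExW.natMul
          have h6 := (h4.mul (Cone.xinv (m := m) hx))
          have h5 := ExW.ofEx (g := 2 * K1 + 3) (by omega)
            (Ex.coneMul h6 (Ex.add (Ex.natMul (m - (2 * K1 + 3)) hP1) hP2))
          refine h5.mono ?_ ?_
          · intro j _ h
            rcases h with h | h <;> omega
          · intro j hj hS i hi
            have := tail_num (m := m) (n := n) (j := j) (i := i) (d := dh i (n + 1) (K1 + 2))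
              (d0 := dl i 0) hi (by omega) (by omega) (by omega)
              (by unfold dh di; split <;> split <;> omega) le_rfl
            rw [show m - n + 1 = 2 * K1 + 4 by omega] at this
            omega

end kappa

end Pool.Agent.Helper49.LP
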