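import Pool.Agent.Helper49.LP.Four

/-!
The recursion between the families.
-/

namespace Pool.Agent.Helper49.LP

open Finset Pool.Agent.Helper77.Lom

section scal

variable {K : Type*} [Field K]

/-- `Nat.multichoose` in the field -/
def mc (K : Type*) [Field K] (a k : ℕ) : K := ((Nat.multichoose a k : ℕ) : K)

theorem mc_zero (a : ℕ) : mc K a 0 = 1 := by simp [mc]

theorem mc_A (a k : ℕ) : mc K (a + 1) (k + 1) = mc K a (k + 1) + mc K (a + 1) k := by
  unfold mc
  rw [Nat.multichoose_succ_succ]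
  push_cast
  ring

theorem mc_B (a k : ℕ) : ((k : K) + 1) * mc K (a + 1) (k + 1)
    = ((a : K) + 1 + (k : K)) * mc K (a + 1) k := by
  unfold mc
  have h1 := Nat.add_one_mul_choose_eq (a + k) k
  rw [Nat.multichoose_eq, Nat.multichoose_eq]
  rw [show a + 1 + (k + 1) - 1 = a + k + 1 by omega, show a + 1 + k - 1 = a + k by omega]
  have h2 := congrArg (fun t : ℕ => (t : K)) h1
  push_cast at h2 ⊢
  linear_combination -h2

def Asum (v : ℕ → K) (σ t : K) (a K1 : ℕ) : K :=
  ∑ k ∈ range (K1 + 1), mc K a k / pch σ k * ffk t k * v k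

def Bsum (v : ℕ → K) (σ t : K) (a K1 : ℕ) : K :=
  ∑ k ∈ range K1, mc K a k / pch σ (k + 1) * ffk t k * v (k + 1)

theorem ffk_succ (t : K) (k : ℕ) : ffk t (k + 1) = ffk t k * (t - (k : K)) := by
  rw [ffk, Finset.prod_range_succ]; rfl

theorem scal_I {v : ℕ → K} {σ t l g : K} (hσ : ∀ k : ℕ, σ + (k : K) ≠ 0)
    (hv : ∀ k : ℕ, (t - g + (k : K)) * v k = (l + t - (k : K)) * v (k + 1)) (a : ℕ) : ∀ K1 : ℕ,
    (σ - l - 1 - (a : K)) * Asum v σ t a K1
      = (σ - l - 1 - (a : K) + g - t) * Asum v σ t (a + 1) K1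
        + l * (σ + t) * Bsum v σ t (a + 1) K1
        + mc K (a + 1) K1 / pch σ K1 * ffk t K1 * ((l + t - (K1 : K)) * v (K1 + 1)) := by
  have hp : ∀ k : ℕ, pch σ k ≠ 0 := by
    intro k
    rw [pch, Finset.prod_ne_zero_iff]
    intro i _
    exact hσ i
  intro K1
  induction K1 with
  | zero =>
    have h0 := hv 0
    simp only [Asum, Bsum, zero_add, Finset.sum_range_one, Finset.sum_range_zero, mc_zero, pch,
      ffk, Finset.prod_range_zero]
    simp only [Nat.cast_zero, add_zero, sub_zero] at h0 ⊢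
    linear_combination h0
  | succ k ih =>
    have h1 := hv (k + 1)
    have h2 := mc_A (K := K) a k
    have h3 := mc_B (K := K) a k
    have e1 : Asum v σ t a (k + 1) = Asum v σ t a k
        + mc K a (k + 1) / pch σ (k + 1) * ffk t (k + 1) * v (k + 1) := by
      rw [Asum, Finset.sum_range_succ]; rfl
    have e2 : Asum v σ t (a + 1) (k + 1) = Asum v σ t (a + 1) k
        + mc K (a + 1) (k + 1) / pch σ (k + 1) * ffk t (k + 1) * v (k + 1) := by
      rw [Asum, Finset.sum_range_succ]; rfl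
    have e3 : Bsum v σ t (a + 1) (k + 1) = Bsum v σ t (a + 1) k
        + mc K (a + 1) k / pch σ (k + 1) * ffk t k * v (k + 1) := by
      rw [Bsum, Finset.sum_range_succ]; rfl
    rw [e1, e2, e3, mul_add, ih, ← h1]
    have hq := hp k
    have hq1 := hσ k
    rw [pch_succ, ffk_succ]
    push_cast
    have h4 : mc K a (k + 1) = mc K (a + 1) (k + 1) - mc K (a + 1) k := by rw [h2]; ring
    rw [h4]
    field_simp
    linear_combination (-(t - (k : K)) * ffk t k * v (k + 1)) * h3

theorem scal_II {v : ℕ → K} {σ t : K} (hσ : ∀ k : ℕ, σ + (k : K) ≠ 0) (u : ℕ) : ∀ K1 : ℕ,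
    (∑ k ∈ range (K1 + 1), mc K (u + 1) k / pch σ k * ffk t k * (v k + v (k + 1)))
      - Asum v σ t u K1
      = (σ + t) * Bsum v σ t (u + 1) K1
        + mc K (u + 1) K1 / pch σ K1 * ffk t K1 * v (K1 + 1) := by
  have hp : ∀ k : ℕ, pch σ k ≠ 0 := by
    intro k
    rw [pch, Finset.prod_ne_zero_iff]
    intro i _
    exact hσ i
  intro K1
  induction K1 with
  | zero =>
    simp only [Asum, Bsum, zero_add, Finset.sum_range_one, Finset.sum_range_zero, mc_zero, pch,
      ffk, Finset.prod_range_zero]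
    ring
  | succ k ih =>
    have e1 : Asum v σ t u (k + 1) = Asum v σ t u k
        + mc K u (k + 1) / pch σ (k + 1) * ffk t (k + 1) * v (k + 1) := by
      rw [Asum, Finset.sum_range_succ]; rfl
    have e3 : Bsum v σ t (u + 1) (k + 1) = Bsum v σ t (u + 1) k
        + mc K (u + 1) k / pch σ (k + 1) * ffk t k * v (k + 1) := by
      rw [Bsum, Finset.sum_range_succ]; rfl
    rw [e1, e3, Finset.sum_range_succ]
    have h2 := mc_A (K := K) u k
    have h4 : mc K u (k + 1) = mc K (u + 1) (k + 1) - mc K (u + 1) k := by rw [h2]; ring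
    have hq := hp k
    have hq1 := hσ k
    have ih' := ih
    have e5 : ∑ k ∈ range (k + 1), mc K (u + 1) k / pch σ k * ffk t k * (v k + v (k + 1))
        = Asum v σ t u k + ((σ + t) * Bsum v σ t (u + 1) k
        + mc K (u + 1) k / pch σ k * ffk t k * v (k + 1)) := by rw [← ih]; ring
    rw [e5, pch_succ, ffk_succ, h4]
    field_simp
    ring

end scal

section fam

variable {K : Type*} [Field K] {m : ℕ} {x : K}

theorem Gf_eq (g a N s : ℕ) : Gf m x g a N s
    = Asum (fun k => v N k s) (x + (m : K) - (g : K) + 1) ((g : K) - (s : K)) a (g / 2) := rfl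

theorem sig_ne (hx : ∀ z : ℤ, x + (z : K) ≠ 0) (g k : ℕ) :
    x + (m : K) - (g : K) + 1 + (k : K) ≠ 0 := by
  have := hx ((m : ℤ) - (g : ℤ) + 1 + (k : ℤ))
  push_cast at this
  have e : x + (m : K) - (g : K) + 1 + (k : K) = x + ((m : K) - (g : K) + 1 + (k : K)) := by ring
  rwa [e]

theorem v_shift (N k s : ℕ) : (v (N + 2) (k + 1) (s + 1) : K) = v N k s := by
  rw [← U_v, U_succ]

/-- the `U`-term -/
theorem U_Gf (hx : ∀ z : ℤ, x + (z : K) ≠ 0) (g a N s : ℕ) :
    (x + (m : K) - ((g + 1 : ℕ) : K) + 1)⁻¹ *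
      U ((fun s : ℕ => x + (m : K) - (s : K)) * Gf m x g a N) s
    = (x + (m : K) - ((g + 1 : ℕ) : K) + 1 + (((g + 1 : ℕ) : K) - (s : K))) *
      Bsum (fun k => v (N + 2) k s) (x + (m : K) - ((g + 1 : ℕ) : K) + 1)
        (((g + 1 : ℕ) : K) - (s : K)) a (g / 2 + 1) := by
  cases s with
  | zero =>
    rw [U_zero', mul_zero]
    have : Bsum (fun k => (v (N + 2) k 0 : K)) (x + (m : K) - ((g + 1 : ℕ) : K) + 1)
        (((g + 1 : ℕ) : K) - ((0 : ℕ) : K)) a (g / 2 + 1) = 0 := by
      rw [Bsum]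
      apply Finset.sum_eq_zero
      intro k _
      rw [v_eq_zero (by omega), mul_zero]
    rw [this, mul_zero]
  | succ s =>
    rw [U_succ, Pi.mul_apply, Gf_eq]
    have e0 : x + (m : K) - ((g + 1 : ℕ) : K) + 1 + (((g + 1 : ℕ) : K) - ((s + 1 : ℕ) : K))
        = x + (m : K) - (s : K) := by push_cast; ring
    rw [e0, mul_left_comm]
    congr 1
    rw [Asum, Bsum, Finset.mul_sum]
    apply Finset.sum_congr rfl
    intro k _
    have e1 : (((g + 1 : ℕ) : K) - ((s + 1 : ℕ) : K)) = (g : K) - (s : K) := by push_cast; ring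
    rw [e1, v_shift]
    have e2 : pch (x + (m : K) - ((g + 1 : ℕ) : K) + 1) (k + 1)
        = (x + (m : K) - ((g + 1 : ℕ) : K) + 1) * pch (x + (m : K) - (g : K) + 1) k := by
      rw [pch, Finset.prod_range_succ', pch, mul_comm]
      congr 1
      · push_cast; ring
      · apply Finset.prod_congr rfl
        intro i _
        push_cast
        ring
    rw [e2]
    have h1 := sig_ne (m := m) hx (g + 1) 0
    rw [Nat.cast_zero, add_zero] at h1
    have h2 : pch (x + (m : K) - (g : K) + 1) k ≠ 0 := by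
      rw [pch, Finset.prod_ne_zero_iff]
      intro i _
      exact sig_ne hx g i
    field_simp

/-- constants of the boundary terms -/
def cg (m : ℕ) (x : K) (g N : ℕ) : K :=
  (pch (x + (m : K) - (g : K) + 1) (g - g / 2))⁻¹ *
    (if g % 2 = 0 then 1 else x + ((m + 1 - N + g / 2 : ℕ) : K))

theorem ffk_rev (t : K) (r : ℕ) : ffk t r = ∏ i ∈ range r, (t - (r : K) + 1 + (i : K)) := by
  rw [ffk, ← Finset.prod_range_reflect]
  apply Finset.prod_congr rfl
  intro i hi
  rw [mem_range] at hi
  rw [Nat.cast_sub (by omega), Nat.cast_sub (by omega)]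
  push_cast
  ring

/-- the recursion between the families -/
theorem Yrec (hx : ∀ z : ℤ, x + (z : K) ≠ 0) {g a b N : ℕ} (hab : a + b + N = m) (s : ℕ) :
    (x + (b : K)) * Gf m x g a N s
      = (x + (b : K) + (s : K)) * Gf m x g (a + 1) N s
        + (if g = 0 then 0 else ((N : K) - (g : K)) *
            ((x + (m : K) - (g : K) + 1 + ((g : K) - (s : K))) *
              Bsum (fun k => v N k s) (x + (m : K) - (g : K) + 1) ((g : K) - (s : K)) (a + 1)
                ((g - 1) / 2 + 1)))
        + mc K (a + 1) (g / 2) * cg m x g N * Ph N (g / 2 + 1) (g - g / 2) s := by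
  have hσ : ∀ k : ℕ, x + (m : K) - (g : K) + 1 + (k : K) ≠ 0 := sig_ne hx g
  have hv : ∀ k : ℕ, ((g : K) - (s : K) - (g : K) + (k : K)) * v N k s
      = ((N : K) - (g : K) + ((g : K) - (s : K)) - (k : K)) * v N (k + 1) s := by
    intro k
    have := v_rel (K := K) N k s
    linear_combination this
  have hI := scal_I (v := fun k => v N k s) hσ hv a (g / 2)
  rw [← Gf_eq, ← Gf_eq] at hI
  have hm : (m : K) = (a : K) + (b : K) + (N : K) := by rw [← hab]; push_cast; ring
  have e1 : x + (m : K) - (g : K) + 1 - ((N : K) - (g : K)) - 1 - (a : K) = x + (b : K) := by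
    rw [hm]; ring
  have e2 : x + (b : K) + (g : K) - ((g : K) - (s : K)) = x + (b : K) + (s : K) := by ring
  rw [e1, e2] at hI
  rw [hI]
  rcases Nat.even_or_odd g with ⟨K1, hg⟩ | ⟨K1, hg⟩
  · -- even
    have hg2 : g / 2 = K1 := by omega
    have hg3 : g - g / 2 = K1 := by omega
    have hmod : g % 2 = 0 := by omega
    rw [cg, if_pos hmod, hg3, hg2, mul_one]
    have e3 : ffk ((g : K) - (s : K)) K1 * (((N : K) - (g : K) + ((g : K) - (s : K)) - (K1 : K))
        * v N (K1 + 1) s) = Ph N (K1 + 1) K1 s := by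
      have h1 := v_rel (K := K) N K1 s
      have e4 : ((N : K) - (g : K) + ((g : K) - (s : K)) - (K1 : K)) * v N (K1 + 1) s
          = ((K1 : K) - (s : K)) * v N K1 s := by rw [h1]; ring
      rw [e4, ffk_rev, Ph, Finset.prod_range_succ', ← mul_assoc]
      congr 2
      · apply Finset.prod_congr rfl
        intro i _
        rw [hg]
        push_cast
        ring
      · push_cast; ring
    have e5 : (if g = 0 then (0 : K) else ((N : K) - (g : K)) *
            ((x + (m : K) - (g : K) + 1 + ((g : K) - (s : K))) *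
              Bsum (fun k => v N k s) (x + (m : K) - (g : K) + 1) ((g : K) - (s : K)) (a + 1)
                ((g - 1) / 2 + 1)))
        = ((N : K) - (g : K)) * (x + (m : K) - (g : K) + 1 + ((g : K) - (s : K))) *
          Bsum (fun k => v N k s) (x + (m : K) - (g : K) + 1) ((g : K) - (s : K)) (a + 1) K1 := by
      by_cases h0 : g = 0
      · have : K1 = 0 := by omega
        rw [if_pos h0, this, Bsum, Finset.sum_range_zero, mul_zero]
      · rw [if_neg h0, show (g - 1) / 2 + 1 = K1 by omega]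
        ring
    rw [e5]
    have e6 : mc K (a + 1) K1 / pch (x + (m : K) - (g : K) + 1) K1 * ffk ((g : K) - (s : K)) K1 *
        (((N : K) - (g : K) + ((g : K) - (s : K)) - (K1 : K)) * v N (K1 + 1) s)
        = mc K (a + 1) K1 * (pch (x + (m : K) - (g : K) + 1) K1)⁻¹ * Ph N (K1 + 1) K1 s := by
      rw [← e3]
      ring
    rw [e6]
  · -- odd
    have hg2 : g / 2 = K1 := by omega
    have hg3 : g - g / 2 = K1 + 1 := by omega
    have hmod : ¬ g % 2 = 0 := by omega
    have hg0 : ¬ g = 0 := by omega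
    rw [cg, if_neg hmod, hg3, hg2, if_neg hg0, show (g - 1) / 2 + 1 = K1 + 1 by omega]
    have e3 : Bsum (fun k => v N k s) (x + (m : K) - (g : K) + 1) ((g : K) - (s : K)) (a + 1) (K1 + 1)
        = Bsum (fun k => v N k s) (x + (m : K) - (g : K) + 1) ((g : K) - (s : K)) (a + 1) K1
          + mc K (a + 1) K1 / pch (x + (m : K) - (g : K) + 1) (K1 + 1) * ffk ((g : K) - (s : K)) K1
            * v N (K1 + 1) s := by
      rw [Bsum, Finset.sum_range_succ]; rfl
    have e4 : Ph N (K1 + 1) (K1 + 1) s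
        = ffk ((g : K) - (s : K)) K1 * ((g : K) - (s : K) - (K1 : K)) * v N (K1 + 1) s := by
      rw [← ffk_succ, ffk_rev, Ph]
      congr 1
      apply Finset.prod_congr rfl
      intro i _
      rw [hg]
      push_cast
      ring
    have hmN : ((m + 1 - N + K1 : ℕ) : K) = (m : K) + 1 - (N : K) + (K1 : K) := by
      rw [Nat.cast_add, Nat.cast_sub (by omega)]; push_cast; ring
    rw [e3, e4, hmN, pch_succ]
    have hq : pch (x + (m : K) - (g : K) + 1) K1 ≠ 0 := by
      rw [pch, Finset.prod_ne_zero_iff]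
      intro i _
      exact hσ i
    have hq1 := hσ K1
    field_simp
    ring

end fam

end Pool.Agent.Helper49.LP
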