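import Pool.Agent.Helper49.LP.Num

/-!
Floor inequalities for the resolvent sums and for the walls.
-/

namespace Pool.Agent.Helper49.LP

theorem hh_low {m i : ℕ} (h : 2 * i ≤ m) : hh m i = i := by unfold hh; omega

theorem hh_high {m i : ℕ} (h : m < 2 * i) : hh m i = m - i := by unfold hh; omega

theorem dl_self (i : ℕ) : dl i i = 1 := by rw [dl, if_pos rfl]

theorem dl_ne {i q : ℕ} (h : i ≠ q) : dl i q = 0 := by rw [dl, if_neg h]

theorem dl_le (i q : ℕ) : dl i q ≤ 1 := by unfold dl; split <;> omega

theorem Hx_dl {m k e s0 j i : ℕ} (h : 2 * (k + j + 1) ≤ m + 1) (he : e ≤ k) :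
    dl i (k - e + j) ≤ Hx m k e s0 j i := by
  by_cases hi : i = k - e + j
  · rw [hi, dl_self]
    unfold Hx
    rw [if_pos (by omega), if_pos (by omega)]
    exact Nat.div_pos (by omega) (by omega)
  · rw [dl_ne hi]; omega

theorem Hx_n1 {m k e s0 j i : ℕ} (h : 2 * (k + j + 1) ≤ m + 1) (he : e ≤ k) (hes : e < s0)
    (hsj : s0 ≤ j) : (k + 1) / (i + 1) + tau m s0 j i + dl i (k - e + j) ≤ Hx m k e s0 j i := by
  by_cases h2 : 2 * i ≤ m
  · have ht : tau m s0 j i ≤ j / (i + 1) := by
      have := tau_le_eps (m := m) hsj i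
      unfold eps at this
      rwa [hh_low h2] at this
    by_cases h3 : i + e < k + j
    · rw [dl_ne (show i ≠ k - e + j by omega)]
      unfold Hx
      rw [if_pos h2, if_pos (by omega)]
      have := div_super (k + 1) j (i + 1)
      rw [show k + 1 + j = k + j + 1 by ring] at this
      omega
    · have e1 : (k + 1) / (i + 1) = 0 := Nat.div_eq_of_lt (by omega)
      have e2 : j / (i + 1) = 0 := Nat.div_eq_of_lt (by omega)
      have e3 := Hx_dl (m := m) (s0 := s0) (i := i) h he
      omega
  · have e1 : (k + 1) / (i + 1) = 0 := Nat.div_eq_of_lt (by omega)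
    rw [dl_ne (show i ≠ k - e + j by omega), e1]
    unfold Hx
    rw [if_neg h2]
    omega

theorem Hx_n2 {m k e s0 j i i0 p1 p2 : ℕ} (h : 2 * (k + j + 1) ≤ m + 1) (he : e ≤ k)
    (hes : e < s0) (hsj : s0 ≤ j) (hp : p1 + p2 = e) (hp1 : p1 ≤ i0) (hi0 : i0 < k) :
    (i0 + 1) / (i + 1) + Hx m (k - 1 - i0) p2 s0 j i + dl i (k - e + j) ≤ Hx m k e s0 j i := by
  by_cases h2 : 2 * i ≤ m
  · by_cases h3 : i + e < k + j
    · rw [dl_ne (show i ≠ k - e + j by omega)]
      unfold Hx
      rw [if_pos h2, if_pos h2, if_pos (show i + e ≤ k + j by omega)]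
      have h5 : (if i + p2 ≤ k - 1 - i0 + j then (k - 1 - i0 + j + 1) / (i + 1) else 0)
          ≤ (k - 1 - i0 + j + 1) / (i + 1) := by
        split
        · exact le_rfl
        · exact Nat.zero_le _
      have := div_super (i0 + 1) (k - 1 - i0 + j + 1) (i + 1)
      rw [show i0 + 1 + (k - 1 - i0 + j + 1) = k + j + 1 by omega] at this
      omega
    · have e1 : (i0 + 1) / (i + 1) = 0 := Nat.div_eq_of_lt (by omega)
      have e3 := Hx_dl (m := m) (s0 := s0) (i := i) h he
      have e4 : Hx m (k - 1 - i0) p2 s0 j i = 0 := by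
        unfold Hx
        rw [if_pos h2, if_neg (by omega)]
      omega
  · have e1 : (i0 + 1) / (i + 1) = 0 := Nat.div_eq_of_lt (by omega)
    rw [dl_ne (show i ≠ k - e + j by omega), e1]
    unfold Hx
    rw [if_neg h2, if_neg h2]
    omega

theorem Hx_n4 {m k e s0 j' j i : ℕ} (h : 2 * (k + j + 1) ≤ m + 1) (he : e ≤ k)
    (hs : s0 ≤ j') (hj : j' < j) :
    Hx m k e s0 j' i + eps m (j - j') i + dl i (k - e + j) ≤ Hx m k e s0 j i := by
  by_cases h2 : 2 * i ≤ m
  · have he' : eps m (j - j') i = (j - j') / (i + 1) := by unfold eps; rw [hh_low h2]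
    rw [he']
    by_cases h3 : i + e ≤ k + j'
    · rw [dl_ne (show i ≠ k - e + j by omega)]
      unfold Hx
      rw [if_pos h2, if_pos h2, if_pos h3, if_pos (by omega)]
      have := div_super (k + j' + 1) (j - j') (i + 1)
      rw [show k + j' + 1 + (j - j') = k + j + 1 by omega] at this
      omega
    · have e4 : Hx m k e s0 j' i = 0 := by
        unfold Hx
        rw [if_pos h2, if_neg (by omega)]
      rw [e4]
      by_cases h5 : i + e < k + j
      · rw [dl_ne (show i ≠ k - e + j by omega)]
        unfold Hx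
        rw [if_pos h2, if_pos (by omega), zero_add, add_zero]
        exact Nat.div_le_div_right (by omega)
      · have e1 : (j - j') / (i + 1) = 0 := Nat.div_eq_of_lt (by omega)
        have e3 := Hx_dl (m := m) (s0 := s0) (i := i) h he
        omega
  · rw [dl_ne (show i ≠ k - e + j by omega)]
    unfold Hx
    rw [if_neg h2, if_neg h2, add_zero]
    exact tau_eps hs (by omega) i

theorem ck_num {k i0 i : ℕ} (hi0 : i0 < k) :
    (i0 + 1) / (i + 1) + (k - 1 - i0 + 1) / (i + 1) + dl i k ≤ (k + 1) / (i + 1) := by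
  by_cases h : i = k
  · subst h
    rw [dl_self, Nat.div_eq_of_lt (show i0 + 1 < i + 1 by omega),
      Nat.div_eq_of_lt (show i - 1 - i0 + 1 < i + 1 by omega), Nat.div_self (by omega)]
  · rw [dl_ne h]
    have := div_super (i0 + 1) (k - 1 - i0 + 1) (i + 1)
    rw [show i0 + 1 + (k - 1 - i0 + 1) = k + 1 by omega] at this
    omega

/-- indicator of an interval -/
def di (i a b : ℕ) : ℕ := if a ≤ i ∧ i ≤ b then 1 else 0

/-- formal constants at the walls: `k + 1 ≤ n + 1`, `k + 1 ≤ m - n` -/
theorem formal_num {m n k i : ℕ} (hi : i ≤ m) (h1 : k ≤ n) (h2 : n + k + 1 ≤ m) :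
    di i (n + 1) (n + 1 + k) + (k + 1) / (i + 1) ≤ Bd m n (k + 1) i := by
  have h0 := Aa_Bd m n (k + 1) i
  suffices Aa m n i + (di i (n + 1) (n + 1 + k) + (k + 1) / (i + 1)) ≤ Aa m (n + (k + 1)) i by omega
  by_cases hc : i ≤ n
  · rw [di, if_neg (by omega), zero_add]
    by_cases h3 : 2 * i = m
    · -- centre
      rw [Nat.div_eq_of_lt (show k + 1 < i + 1 by omega), add_zero]
      exact Aa_mono (by omega) i
    · have h4 := Bd_ge_eps (m := m) (n := n) (j := k + 1) hi h3 (Or.inl hc)
      have h5 : (k + 1) / (i + 1) ≤ eps m (k + 1) i := by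
        unfold eps
        apply Nat.div_le_div_left
        · unfold hh; omega
        · omega
      omega
  · have e1 : (k + 1) / (i + 1) = 0 := Nat.div_eq_of_lt (by omega)
    have e2 : Aa m n i = 0 := by rw [Aa, if_pos (by omega)]
    rw [e1, e2, add_zero, zero_add]
    by_cases h3 : i ≤ n + 1 + k
    · rw [di, if_pos (by omega), Aa, if_neg (by omega)]
      split
      · exact le_rfl
      · exact Nat.le_add_right _ _
    · rw [di, if_neg (by omega)]; omega

/-- the nonformal terms: `g = m - n`, `g' = g - 1 - k`, position `j ≥ g' + 1`;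
the wall factors cover the levels `n + 1 ≤ i`. -/
theorem wall_num {m n k j i : ℕ} (hi : i ≤ m) (hg : n + 1 + k ≤ m)
    (hj : m ≤ n + k + j) (hjm : 2 * (k + j + 1) ≤ m + 1) {d : ℕ} (hd : d ≤ di i (n + 1) m)
    (e : ℕ) : d + Hx m k e (m - n - k) j i ≤ Bd m n (k + 1 + j) i := by
  have h0 := Aa_Bd m n (k + 1 + j) i
  suffices Aa m n i + (d + Hx m k e (m - n - k) j i) ≤ Aa m (n + (k + 1 + j)) i by omega
  -- `n ≥ m / 2`
  by_cases h2 : 2 * i ≤ m
  · -- lower levels and the centre
    have hd0 : d = 0 := by
      rw [di, if_neg (by omega)] at hd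
      omega
    rw [hd0, zero_add]
    have hH : Hx m k e (m - n - k) j i ≤ (k + j + 1) / (i + 1) := by
      unfold Hx
      rw [if_pos h2]
      split
      · exact le_rfl
      · exact Nat.zero_le _
    by_cases h3 : 2 * i = m
    · rw [Nat.div_eq_of_lt (show k + j + 1 < i + 1 by omega)] at hH
      have := Aa_mono (m := m) (show n ≤ n + (k + 1 + j) by omega) i
      omega
    · have h4 := Bd_ge_eps (m := m) (n := n) (j := k + 1 + j) hi h3 (Or.inr (Or.inl h2))
      have h5 : (k + j + 1) / (i + 1) = eps m (k + 1 + j) i := by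
        unfold eps
        rw [hh_low h2, show k + j + 1 = k + 1 + j by ring]
      omega
  · have hhi : hh m i = m - i := hh_high (by omega)
    have hH : Hx m k e (m - n - k) j i = tau m (m - n - k) j i := by
      unfold Hx
      rw [if_neg h2]
    rw [hH]
    unfold tau Aa
    rw [hhi, if_neg (show ¬ 2 * i = m by omega), if_neg (show ¬ 2 * i = m by omega)]
    by_cases h3 : n < i
    · -- walls present
      rw [if_pos h3, if_neg (show ¬ n + (k + 1 + j) < i by omega), zero_add]
      have hd1 : d ≤ 1 := by
        unfold di at hd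
        split at hd <;> omega
      by_cases h4 : m - i < m - n - k
      · rw [if_pos h4]
        have e1 : 1 + (j - (m - n - k)) / (m - i + 1) ≤ (n + (k + 1 + j) - i) / (m - i + 1) := by
          rw [one_add_div (by omega)]
          exact Nat.div_le_div_right (by omega)
        omega
      · rw [if_neg h4]
        have e1 : j / (m - i + 1) ≤ (n + (k + 1 + j) - i) / (m - i + 1) :=
          Nat.div_le_div_right (by omega)
        omega
    · have hd0 : d = 0 := by
        rw [di, if_neg (by omega)] at hd
        omega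
      rw [if_neg h3, if_neg (show ¬ n + (k + 1 + j) < i by omega), hd0, zero_add,
        if_neg (show ¬ m - i < m - n - k by omega), add_assoc]
      apply Nat.add_le_add_left
      refine (div_super _ _ _).trans (Nat.div_le_div_right (by omega))

/-- tails: position `j ≥ g + 1`, one extra factor `x` allowed -/
theorem tail_num {m n j i : ℕ} (hi : i ≤ m) (hg : n + 2 ≤ m)
    (hj : m + 1 ≤ n + j) (hjm : 2 * j ≤ m + 1) {d d0 : ℕ} (hd : d ≤ di i (n + 1) m)
    (hd0 : d0 ≤ dl i 0) :
    d0 + d + tau m (m - n + 1) j i ≤ Bd m n j i := by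
  have h0 := Aa_Bd m n j i
  suffices Aa m n i + (d0 + d + tau m (m - n + 1) j i) ≤ Aa m (n + j) i by omega
  by_cases h2 : 2 * i ≤ m
  · have hd' : d = 0 := by
      rw [di, if_neg (by omega)] at hd
      omega
    rw [hd', add_zero]
    by_cases h3 : 2 * i = m
    · have h5 : dl i 0 = 0 := dl_ne (by omega)
      have h6 := tau_le_eps (m := m) (show m - n + 1 ≤ j by omega) i
      have h7 : eps m j i = 0 := eps_small (by unfold hh; omega)
      have := Aa_mono (m := m) (show n ≤ n + j by omega) i
      omega
    · have h4 := Bd_ge_eps (m := m) (n := n) (j := j) hi h3 (Or.inr (Or.inl h2))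
      have h5 : d0 + tau m (m - n + 1) j i ≤ eps m j i := by
        by_cases hi0 : i = 0
        · subst hi0
          rw [dl_self] at hd0
          unfold tau eps
          have : hh m 0 = 0 := by unfold hh; omega
          rw [this, if_pos (by omega)]
          simp only [Nat.zero_add, Nat.div_one]
          omega
        · rw [dl_ne hi0] at hd0
          have h6 := tau_le_eps (m := m) (show m - n + 1 ≤ j by omega) i
          omega
      omega
  · have h5 : dl i 0 = 0 := dl_ne (by omega)
    have hd0' : d0 = 0 := by omega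
    have hhi : hh m i = m - i := hh_high (by omega)
    rw [hd0', zero_add]
    unfold tau Aa
    rw [hhi, if_neg (show ¬ 2 * i = m by omega), if_neg (show ¬ 2 * i = m by omega)]
    by_cases h3 : n < i
    · rw [if_pos h3, if_neg (show ¬ n + j < i by omega), zero_add, if_pos (by omega)]
      have hd1 : d ≤ 1 := by
        unfold di at hd
        split at hd <;> omega
      have e1 : 1 + (j - (m - n + 1)) / (m - i + 1) ≤ (n + j - i) / (m - i + 1) := by
        rw [one_add_div (by omega)]
        exact Nat.div_le_div_right (by omega)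
      omega
    · have hd' : d = 0 := by
        rw [di, if_neg (by omega)] at hd
        omega
      rw [if_neg h3, if_neg (show ¬ n + j < i by omega), hd', zero_add, add_assoc]
      apply Nat.add_le_add_left
      split
      · have h7 : i = n := by omega
        subst h7
        rw [Nat.sub_self, Nat.zero_div, zero_add, one_add_div (by omega)]
        exact Nat.div_le_div_right (by omega)
      · refine (div_super _ _ _).trans (Nat.div_le_div_right (by omega))

end Pool.Agent.Helper49.LP
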