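import Pool.Agent.Helper49.LP.Rho
import Pool.Agent.Helper49.LP.Num2

/-!
Cone bounds for the resolvent sums and the products `Φ`.
-/

namespace Pool.Agent.Helper49.LP

open Finset Pool.Agent.Helper77.Lom

section X

variable {K : Type*} [Field K] {m : ℕ} {x : K} {lam : ℕ → ℕ → K}

theorem Cone.ck (hx : ∀ z : ℤ, x + (z : K) ≠ 0) : ∀ k ≤ m,
    Cone m x (fun i => (k + 1) / (i + 1)) (LP.ck x k) := by
  intro k
  induction k using Nat.strong_induction_on with
  | _ k ih =>
  intro hk
  cases k with
  | zero =>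
    refine Cone.div' (q := 0) (Nat.zero_le _) ?_ (by simp)
    have : x ≠ 0 := by simpa using hx 0
    rw [ck_zero, Nat.cast_zero, add_zero, mul_inv_cancel₀ this]
    exact Cone.natOne _
  | succ k =>
    refine Cone.div' (q := k + 1) hk ?_ (by simp)
    rw [ck_rec hx]
    apply Cone.sum
    intro i hi
    rw [mem_range] at hi
    refine ((ih i (by omega) (by omega)).mul (ih (k - i) (by omega) (by omega))).mono ?_
    intro q _
    have := ck_num (k := k + 1) (i0 := i) (i := q) (by omega)
    rw [show k + 1 - 1 - i + 1 = k - i + 1 by omega] at this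
    omega

theorem Ex.X (hl : Lm m x (m + 1) lam) (hx : ∀ z : ℤ, x + (z : K) ≠ 0) {N s0 : ℕ}
    {f : ℕ → K} (hf : Ex m x 0 N (Pf m x s0 (tau m s0)) f) :
    ∀ k e, e < s0 → N + 2 * k + 2 ≤ m + 1 →
      Ex m x 0 N (Pf m x s0 (Hx m k e s0)) (Xf x k e * f) := by
  intro k
  induction k using Nat.strong_induction_on with
  | _ k ih =>
  intro e hes hN
  by_cases hek : k < e
  · rw [Xf_big x hek, zero_mul]
    exact Ex.zero _ _ _ _
  rw [not_lt] at hek
  set E : ℕ → ℕ → ℕ := fun j i => Hx m k e s0 j i - dl i (k - e + j) with hE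
  set g : ℕ → K := ((k.choose e : ℕ) : K) • (ck x k • f)
    + ∑ i ∈ range k, ∑ p ∈ antidiagonal e,
        ((i.choose p.1 : ℕ) : K) • (ck x i • (Xf x (k - 1 - i) p.2 * f)) with hg
  have hne : ∀ s : ℕ, x + ((k - e : ℕ) : K) + (s : K) ≠ 0 := by
    intro s
    have := hx (((k - e : ℕ) : ℤ) + (s : ℤ))
    push_cast at this
    rwa [← add_assoc] at this
  have e1 : Xf x k e * f = (fun s : ℕ => (x + ((k - e : ℕ) : K) + (s : K))⁻¹) * g := by
    funext s
    have h1 := Xf_rec hx (k := k) (e := e) s
    have h2 : g s = (x + ((k - e : ℕ) : K) + (s : K)) * (Xf x k e s * f s) := by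
      rw [hg]
      simp only [Pi.add_apply, Pi.smul_apply, smul_eq_mul, Finset.sum_apply, Pi.mul_apply]
      have e2 : x + ((k - e : ℕ) : K) + (s : K) = x + (s : K) + ((k : K) - (e : K)) := by
        rw [Nat.cast_sub hek]; ring
      have e3 : (x + (s : K) + ((k : K) - (e : K))) * (Xf x k e s * f s)
          = ((x + (s : K) + ((k : K) - (e : K))) * Xf x k e s) * f s := by ring
      rw [e2, e3, h1, add_mul, Finset.sum_mul]
      congr 1
      · ring
      · apply Finset.sum_congr rfl
        intro i _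
        rw [Finset.sum_mul]
        apply Finset.sum_congr rfl
        intro p _
        ring
    rw [Pi.mul_apply, Pi.mul_apply, h2, ← mul_assoc, inv_mul_cancel₀ (hne s), one_mul]
  rw [e1]
  have hbase : ∀ j, s0 ≤ j → 2 * j ≤ N → 2 * (k + j + 1) ≤ m + 1 := by
    intro j _ hj; omega
  have hgE : Ex m x 0 N (Pf m x s0 E) g := by
    rw [hg]
    refine Ex.add (Ex.natMul _ ?_) (Ex.sum _ _ ?_)
    · refine (Ex.coneMul (Cone.ck hx k (by omega)) hf).mono le_rfl ?_
      intro j hj hjN i hi
      have := Hx_n1 (i := i) (hbase j hj hjN) hek hes hj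
      rw [hE]
      simp only
      omega
    · intro i0 hi0
      rw [mem_range] at hi0
      refine Ex.sum _ _ ?_
      intro p hp
      rw [HasAntidiagonal.mem_antidiagonal] at hp
      by_cases hp1 : p.1 ≤ i0
      · refine Ex.natMul _ ?_
        refine (Ex.coneMul (Cone.ck hx i0 (by omega))
          (ih (k - 1 - i0) (by omega) p.2 (by omega) (by omega))).mono le_rfl ?_
        intro j hj hjN i hi
        have := Hx_n2 (i := i) (hbase j hj hjN) hek hes hj hp hp1 hi0
        rw [hE]
        simp only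
        omega
      · rw [Nat.choose_eq_zero_of_lt (by omega), Nat.cast_zero, zero_smul]
        exact Ex.zero _ _ _ _
  refine Ex.res hl hx (show N ≤ m + 1 by omega) (k - e) s0 E (Hx m k e s0) ?_ ?_ ?_ hgE
  · intro j hj hjN i hi
    have := Hx_dl (s0 := s0) (i := i) (hbase j hj hjN) hek
    rw [hE]
    simp only
    omega
  · intro j' j hj' hj hjN i hi
    exact Hx_n4 (hbase j (by omega) hjN) hek hj' hj
  · intro j hj hjN
    have := hbase j hj hjN
    omega

end X

section Ph

variable {K : Type*} [Field K] {m : ℕ} {x : K} {lam : ℕ → ℕ → K}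

/-- `(ϑ+k)(ϑ+k+1)⋯(ϑ+k+r-1) u^k P_{N-2k}` -/
def Ph (N r k : ℕ) : ℕ → K := fun s =>
  (∏ i ∈ range r, ((k : K) + (i : K) - (s : K))) * v N k s

theorem Ph_zero (N k : ℕ) : (Ph N 0 k : ℕ → K) = v N k := by
  funext s
  simp [Ph]

theorem Ph_rec (N r k : ℕ) : (Ph N (r + 1) k : ℕ → K)
    = ((N : K) - 2 * (k : K) - ((r : K) + 1)) • Ph N r (k + 1) + Ph N (r + 1) (k + 1) := by
  funext s
  simp only [Ph, Pi.add_apply, Pi.smul_apply, smul_eq_mul]
  have h1 := v_rel (K := K) N k s
  have e1 : ∏ i ∈ range (r + 1), ((k : K) + (i : K) - (s : K))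
      = (∏ i ∈ range r, (((k + 1 : ℕ) : K) + (i : K) - (s : K))) * ((k : K) - (s : K)) := by
    rw [Finset.prod_range_succ']
    congr 1
    · apply Finset.prod_congr rfl
      intro i _
      push_cast
      ring
    · push_cast; ring
  have e2 : ∏ i ∈ range (r + 1), (((k + 1 : ℕ) : K) + (i : K) - (s : K))
      = (∏ i ∈ range r, (((k + 1 : ℕ) : K) + (i : K) - (s : K)))
        * (((k + 1 : ℕ) : K) + (r : K) - (s : K)) := by
    rw [Finset.prod_range_succ]
  rw [e1, e2, mul_assoc, h1]
  push_cast
  ring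

theorem Ph_vanish {N r k : ℕ} (h : N + 2 ≤ 2 * k + r) (hr : 1 ≤ r) : (Ph N r k : ℕ → K) = 0 := by
  funext s
  by_cases hv : (v N k s : K) = 0
  · simp [Ph, hv]
  · have h1 := v_supp hv
    have h2 : ∏ i ∈ range r, ((k : K) + (i : K) - (s : K)) = 0 := by
      apply Finset.prod_eq_zero (i := s - k)
      · rw [mem_range]; omega
      · rw [Nat.cast_sub h1.2.1]; ring
    simp [Ph, h2]

theorem Ex.Ph (hl : Lm m x (m + 1) lam) (hx : ∀ z : ℤ, x + (z : K) ≠ 0) {N : ℕ}
    (hN : N ≤ m + 1) : ∀ r k, Ex m x 0 N (Pf m x (k + r) (tau m (k + r))) (LP.Ph N r k) := by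
  intro r
  induction r with
  | zero => intro k; rw [Ph_zero]; exact Ex.v hl hx k N hN
  | succ r ih =>
    suffices H : ∀ d k, N < 2 * k + d →
        Ex m x 0 N (Pf m x (k + (r + 1)) (tau m (k + (r + 1)))) (LP.Ph N (r + 1) k) by
      intro k
      exact H (N + 1) k (by omega)
    intro d
    induction d with
    | zero =>
      intro k hk
      have : (LP.Ph N (r + 1) k : ℕ → K) = 0 := by
        funext s
        rw [LP.Ph, v_eq_zero (by omega), mul_zero]; rfl
      rw [this]
      exact Ex.zero _ _ _ _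
    | succ d ihd =>
      intro k hk
      rw [Ph_rec]
      refine Ex.add ?_ ?_
      · by_cases h1 : 2 * k + (r + 1) ≤ N
        · have e1 : ((N : K) - 2 * (k : K) - ((r : K) + 1)) = ((N - (2 * k + (r + 1)) : ℕ) : K) := by
            rw [Nat.cast_sub h1]; push_cast; ring
          rw [e1]
          refine Ex.natMul _ ?_
          have := ih (k + 1)
          rwa [show k + 1 + r = k + (r + 1) by ring] at this
        · have h2 : (LP.Ph N r (k + 1) : ℕ → K) = 0 := by
            by_cases hr : r = 0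
            · subst hr
              rw [Ph_zero]
              funext s
              exact v_eq_zero (by omega)
            · exact Ph_vanish (by omega) (by omega)
          rw [h2, smul_zero]
          exact Ex.zero _ _ _ _
      · refine (ihd (k + 1) (by omega)).mono (by omega) ?_
        intro j hj _ i _
        exact tau_anti (by omega) hj i

end Ph

end Pool.Agent.Helper49.LP
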