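import Pool.Agent.Helper49.LP.Eight

/-!
The dynamics of the tails of the quotient.
-/

namespace Pool.Agent.Helper49.LP

open Finset Pool.Agent.Helper77.Lom

section conv

variable {K : Type*} [Field K] {m : ℕ} {x : K}

/-- lifting of an expansion of the members of a family to the bases -/
theorem eb_lift (d : ℕ) {b : ℕ → ℕ → ℕ → K} {P : ℕ → ℕ → Prop}
    (h : ∀ n N, P n N → Gf m x (m - n) (m + 1 - N) N = lin (eb m x (m - n) (N + d)) (b n N)) :
    ∀ a n N, 2 * a ≤ N → P (n + a) (N - 2 * a) →
      eb m x (m - n) N a = lin (fun j => eb m x (m - n) (N + d) (a + j)) (b (n + a) (N - 2 * a)) := by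
  intro a
  induction a with
  | zero =>
    intro n N _ hP
    rw [eb_zero]
    simp only [add_zero, mul_zero, Nat.sub_zero, zero_add] at hP ⊢
    exact h n N hP
  | succ a ih =>
    intro n N h2 hP
    obtain ⟨N, rfl⟩ : ∃ M, N = M + 2 := ⟨N - 2, by omega⟩
    have e1 : m - n - 1 = m - (n + 1) := by omega
    have e2 : N + 2 - 2 * (a + 1) = N - 2 * a := by omega
    have e3 : n + (a + 1) = n + 1 + a := by ring
    rw [e2, e3] at hP
    rw [eb_succ', e1, ih (n + 1) N (by omega) hP, lin_Tm, e2, e3]
    · apply lin_congr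
      intro j r _
      rw [show N + 2 + d = N + d + 2 by ring, show a + 1 + j = a + j + 1 by ring, eb_succ', e1]
    · intro j r hr
      exact eb_tri _ _ _ _ (by omega)

end conv

section beta

variable {K : Type*} [Field K] {m : ℕ} {x : K} {lam : ℕ → ℕ → K}

theorem beta_exists (hl : Lm m x (m + 1) lam) (hx : ∀ z : ℤ, x + (z : K) ≠ 0) :
    ∃ β : ℕ → ℕ → ℕ → K, ∀ n N, m - n ≤ N → N + 1 ≤ m →
      Gf m x (m - n) (m + 1 - N) N = lin (eb m x (m - n) (N + 2)) (β n N) ∧ β n N 0 = 1 ∧
      ∀ j, 2 * j ≤ N + 2 → Cone m x (Bd m n j) (β n N j) ∧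
        (N + 2 < m - n + j → n + j < m → β n N j = 0) := by
  -- the constants of the differences
  have H : ∀ n N : ℕ, ∃ κ : ℕ → K, m - n ≤ N → N ≤ m →
      Rg m x (m - n) N = lin (eb m x (m - n) (N + 1)) κ ∧
      ∀ j, 2 * j ≤ N + 1 → ((j = 0 ∨ (N + 1 < m - n + j ∧ n + j < m)) → κ j = 0) ∧
        Cone m x (Bd m n j) (κ j) := by
    intro n N
    by_cases h : m - n ≤ N ∧ N ≤ m
    · obtain ⟨κ, h1, h2⟩ := kappa_bound hl hx h.1 h.2
      exact ⟨κ, fun _ _ => ⟨h1, h2⟩⟩
    · exact ⟨0, fun h1 h2 => absurd ⟨h1, h2⟩ h⟩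
  choose κ hκ using H
  have hconv := eb_lift (m := m) (x := x) 1
    (b := fun n N j => if j = 0 then 1 else κ n N j) (P := fun n N => m - n ≤ N ∧ N ≤ m) (by
      intro n N hP
      obtain ⟨h1, h2⟩ := hκ n N hP.1 hP.2
      have h3 := (h2 0 (by omega)).1 (Or.inl rfl)
      have h4 : Gf m x (m - n) (m + 1 - N) N
          = eb m x (m - n) (N + 1) 0 + lin (eb m x (m - n) (N + 1)) (κ n N) := by
        rw [← h1, Rg, eb_zero]
        abel
      rw [h4]
      funext r
      simp only [Pi.add_apply, lin]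
      rw [Finset.sum_range_succ', Finset.sum_range_succ', h3]
      simp
      ring)
  refine ⟨fun n N t => (if t = 0 then 1 else 0) + κ n (N + 1) t
    + ∑ i ∈ range (t + 1), κ n N i *
      (if m - (n + i) + 2 * i ≤ N + 1 then
        (if t - i = 0 then 1 else κ (n + i) (N + 1 - 2 * i) (t - i)) else 0), ?_⟩
  intro n N hgN hN
  obtain ⟨h1, h2⟩ := hκ n N hgN (by omega)
  obtain ⟨h3, h4⟩ := hκ n (N + 1) (by omega) hN
  have hk0 := (h2 0 (by omega)).1 (Or.inl rfl)
  have hk0' := (h4 0 (by omega)).1 (Or.inl rfl)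
  refine ⟨?_, ?_, ?_⟩
  · -- the identity
    have e1 : Gf m x (m - n) (m + 1 - N) N
        = eb m x (m - n) (N + 2) 0 + Rg m x (m - n) (N + 1) + Rg m x (m - n) N := by
      rw [Rg, Rg, eb_zero]
      abel
    have e2 : lin (eb m x (m - n) (N + 1)) (κ n N)
        = lin (fun i => if m - (n + i) + 2 * i ≤ N + 1 then eb m x (m - n) (N + 1) i else 0)
          (κ n N) := by
      apply lin_congr
      intro i r _
      by_cases hi : m - (n + i) + 2 * i ≤ N + 1
      · rw [if_pos hi]
      · rw [if_neg hi]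
        by_cases hi2 : 2 * i ≤ N + 1
        · rw [(h2 i hi2).1 (Or.inr (by omega))]
          simp
        · rw [eb_vanish i _ _ (by omega)]
    have e3 : lin (fun i => if m - (n + i) + 2 * i ≤ N + 1 then eb m x (m - n) (N + 1) i else 0)
          (κ n N)
        = lin (eb m x (m - n) (N + 2)) (fun t => ∑ i ∈ range (t + 1), κ n N i *
      (if m - (n + i) + 2 * i ≤ N + 1 then
        (if t - i = 0 then 1 else κ (n + i) (N + 1 - 2 * i) (t - i)) else 0)) := by
      apply lin_comp (eb_tri _ _) (b := fun i j => if m - (n + i) + 2 * i ≤ N + 1 then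
        (if j = 0 then 1 else κ (n + i) (N + 1 - 2 * i) j) else 0)
      intro i
      by_cases hi : m - (n + i) + 2 * i ≤ N + 1
      · simp only [if_pos hi]
        rw [hconv i n (N + 1) (by omega) ⟨by omega, by omega⟩]
      · simp only [if_neg hi]
        rw [lin_zero]
    rw [e1, h3, h1, e2, e3]
    funext r
    simp only [Pi.add_apply, lin]
    have e5 : eb m x (m - n) (N + 2) 0 r
        = ∑ i ∈ range (r + 1), (if i = 0 then 1 else 0) * eb m x (m - n) (N + 2) i r := by
      rw [Finset.sum_range_succ', Finset.sum_eq_zero]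
      · simp
      · intro k _
        rw [if_neg (by omega), zero_mul]
    rw [e5, ← Finset.sum_add_distrib, ← Finset.sum_add_distrib]
    apply Finset.sum_congr rfl
    intro i _
    ring
  · simp only [if_true, zero_add, Finset.sum_range_one, hk0, hk0', zero_mul, add_zero]
  · intro t ht
    constructor
    · refine Cone.add (Cone.add ?_ ?_) (Cone.sum ?_)
      · split
        · exact Cone.natOne _
        · exact Cone.zero _
      · exact (h4 t (by omega)).2
      · intro i hi
        rw [mem_range] at hi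
        by_cases hg : m - (n + i) + 2 * i ≤ N + 1
        · rw [if_pos hg]
          have h5 := (h2 i (by omega)).2
          by_cases hz : t - i = 0
          · rw [if_pos hz, mul_one]
            have : t = i := by omega
            rw [this]; exact h5
          · rw [if_neg hz]
            obtain ⟨_, h7⟩ := hκ (n + i) (N + 1 - 2 * i) (by omega) (by omega)
            refine (h5.mul (h7 (t - i) (by omega)).2).mono ?_
            intro q _
            have := Bd_Bd m n i (t - i) q
            rw [show i + (t - i) = t by omega] at this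
            omega
        · rw [if_neg hg, mul_zero]
          exact Cone.zero _
    · intro hs1 hs2
      simp only
      have ht0 : t ≠ 0 := by omega
      rw [if_neg ht0, (h4 t (by omega)).1 (Or.inr ⟨by omega, by omega⟩), Finset.sum_eq_zero]
      · ring
      · intro i hi
        rw [mem_range] at hi
        by_cases hg : m - (n + i) + 2 * i ≤ N + 1
        · rw [if_pos hg]
          by_cases hz : t - i = 0
          · have : i = t := by omega
            rw [this, (h2 t (by omega)).1 (Or.inr ⟨by omega, by omega⟩), zero_mul]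
          · rw [if_neg hz]
            obtain ⟨_, h7⟩ := hκ (n + i) (N + 1 - 2 * i) (by omega) (by omega)
            rw [(h7 (t - i) (by omega)).1 (Or.inr ⟨by omega, by omega⟩), mul_zero]
        · rw [if_neg hg, mul_zero]

end beta

section dyn

variable {K : Type*} [Field K] {m : ℕ} {x : K} {lam : ℕ → ℕ → K}

/-- the series `∑ c_{r+n} T^n P_{m+1}` -/
def Fr (m : ℕ) (x : K) (c : ℕ → K) (r : ℕ) : ℕ → K :=
  lin (fun n => (Tm m x)^[n] (v (m + 1) 0)) (fun n => c (r + n))

theorem iter_tri (f : ℕ → K) : Tri (fun n => (Tm m x)^[n] f) := by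
  intro i
  induction i with
  | zero => intro r hr; omega
  | succ i ih =>
    intro r hr
    simp only [Function.iterate_succ_apply']
    cases r with
    | zero => rfl
    | succ r =>
      have := ih r (by omega)
      simp only at this
      rw [Tm_succ, this, mul_zero]

theorem Fr_head (c : ℕ → K) (r : ℕ) :
    Fr m x c r = c r • v (m + 1) 0 + Tm m x (Fr m x c (r + 1)) := by
  rw [Fr, lin_head (iter_tri _), Fr, lin_Tm (iter_tri _)]
  congr 1
  apply lin_congr
  intro i s _
  simp only [Function.iterate_succ_apply']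
  rw [show r + (i + 1) = r + 1 + i by ring]

theorem Fr_zero (c : ℕ → K) (r : ℕ) : Fr m x c r 0 = c r := by
  rw [Fr_head, Pi.add_apply, Tm_zero', Pi.smul_apply, v_zero_zero]
  simp

theorem base_G (hx : ∀ z : ℤ, x + (z : K) ≠ 0) {m' : ℕ} (hm : 1 ≤ m') (s : ℕ) :
    Gf (m' + 1) x m' 2 m' s
      = x * (x + 1) * ((x + (s : K))⁻¹ * (x + (s : K) + 1)⁻¹) * v m' 0 s := by
  have hP : (Ph m' (m' / 2 + 1) (m' - m' / 2) s : K) = 0 := by
    rw [Ph_vanish (by omega) (by omega)]; rfl
  have h1 := Yrec (m := m' + 1) hx (g := m') (a := 0) (b := 1) (N := m') (by omega) s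
  have h2 := Yrec (m := m' + 1) hx (g := m') (a := 1) (b := 0) (N := m') (by omega) s
  rw [hP, sub_self, Gf_a_zero] at h1
  rw [hP, sub_self] at h2
  have e1 : ∀ B : K, (if m' = 0 then (0 : K) else 0 * B) = 0 := by
    intro B; split <;> simp
  rw [e1] at h1 h2
  simp only [mul_zero, add_zero, Nat.cast_one, Nat.cast_zero] at h1 h2
  have hs : x + (s : K) ≠ 0 := by simpa using hx (s : ℤ)
  have hs1 : x + (s : K) + 1 ≠ 0 := by
    have := xs_ne hx s 1
    simpa using this
  have h1' : Gf (m' + 1) x m' (0 + 1) m' s = (x + 1) * (x + (s : K) + 1)⁻¹ * v m' 0 s := by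
    have h3 : x + 1 + (s : K) = x + (s : K) + 1 := by ring
    rw [h3] at h1
    field_simp
    linear_combination -h1
  have h2' : Gf (m' + 1) x m' (1 + 1) m' s = x * (x + (s : K))⁻¹ * Gf (m' + 1) x m' 1 m' s := by
    field_simp
    linear_combination -h2
  rw [show (2 : ℕ) = 1 + 1 from rfl, h2', show (1 : ℕ) = 0 + 1 from rfl, h1']
  ring

theorem Fr_one (hx : ∀ z : ℤ, x + (z : K) ≠ 0) {m' : ℕ} (hm : 1 ≤ m') {c : ℕ → K}
    (h0 : Fr (m' + 1) x c 0 = fun s : ℕ => (x + (s : K))⁻¹ * v (m' + 1) 0 s) :
    Fr (m' + 1) x c 1 = (x⁻¹ * (x⁻¹ * (x + 1)⁻¹)) • Gf (m' + 1) x m' 2 m' := by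
  have hx0 : x ≠ 0 := by simpa using hx 0
  have hx1 : x + 1 ≠ 0 := by simpa using hx 1
  apply Tm_inj (m := m' + 1) hx
  have hc0 : c 0 = x⁻¹ := by
    have := congrFun h0 0
    rw [Fr_zero, v_zero_zero] at this
    simpa using this
  have h1 := Fr_head (m := m' + 1) (x := x) c 0
  rw [h0, zero_add, hc0] at h1
  have h2 : Tm (m' + 1) x (Fr (m' + 1) x c 1)
      = (fun s : ℕ => (x + (s : K))⁻¹ * v (m' + 1) 0 s) - x⁻¹ • v (m' + 1 + 1) 0 := by
    rw [h1]; abel
  rw [h2]
  funext s
  rw [Pi.sub_apply, Pi.smul_apply, smul_eq_mul]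
  cases s with
  | zero =>
    rw [Tm_zero', v_zero_zero, v_zero_zero]
    simp
  | succ s =>
    rw [Tm_succ, Pi.smul_apply, smul_eq_mul, base_G hx hm]
    have hp := v_pascal (K := K) (N := m' + 1) (k := 0) (by omega) (s + 1)
    have hr := v_rel (K := K) (m' + 2) 0 (s + 1)
    have hv : (v (m' + 2) 1 (s + 1) : K) = v m' 0 s := v_shift m' 0 s
    rw [zero_add, show m' + 1 + 1 = m' + 2 by ring, hv] at hp
    rw [zero_add, hv] at hr
    have hs : x + (s : K) ≠ 0 := by simpa using hx (s : ℤ)
    have hs1 : x + (s : K) + 1 ≠ 0 := by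
      have := xs_ne hx s 1
      simpa using this
    rw [show m' + 1 + 1 = m' + 2 by ring, hp]
    push_cast at hr ⊢
    have h3 : x + ((s : K) + 1) = x + (s : K) + 1 := by ring
    rw [h3]
    field_simp
    linear_combination hr

/-- The dynamics. -/
theorem dyn (hl : Lm m x (m + 1) lam) (hx : ∀ z : ℤ, x + (z : K) ≠ 0) (hm : 2 ≤ m) {c : ℕ → K}
    (h0 : Fr m x c 0 = fun s : ℕ => (x + (s : K))⁻¹ * v m 0 s) : ∀ r, 1 ≤ r →
    ∃ θ : ℕ → K, Fr m x c r = lin (eb m x (m - r) (m - 1)) θ ∧
      ∀ s, 2 * s ≤ m - 1 → Cone m x (Aa m (r + s)) (θ s) ∧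
        (r ≤ s → r + s < m → θ s = 0) := by
  obtain ⟨β, hβ⟩ := beta_exists hl hx
  have hlift := eb_lift (m := m) (x := x) 2 (b := β) (P := fun n N => m - n ≤ N ∧ N + 1 ≤ m)
    (fun n N hP => (hβ n N hP.1 hP.2).1)
  intro r hr
  induction r, hr using Nat.le_induction with
  | base =>
    obtain ⟨m', rfl⟩ : ∃ m', m = m' + 1 := ⟨m - 1, by omega⟩
    refine ⟨fun i => if i = 0 then x⁻¹ * (x⁻¹ * (x + 1)⁻¹) else 0, ?_, ?_⟩
    · rw [Fr_one hx (by omega) h0]
      have e1 : Gf (m' + 1) x m' 2 m' = eb (m' + 1) x (m' + 1 - 1) (m' + 1 - 1) 0 := by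
        rw [eb_zero, Nat.add_sub_cancel, show m' + 1 + 1 - m' = 2 by omega]
      rw [e1]
      funext t
      simp only [lin, Pi.smul_apply, smul_eq_mul]
      rw [Finset.sum_range_succ', Finset.sum_eq_zero]
      · simp
      · intro k _
        rw [if_neg (by omega)]
        ring
    · intro s _
      by_cases hs : s = 0
      · subst hs
        simp only [if_true]
        refine ⟨?_, fun h => by omega⟩
        have h1 := Cone.xinv (m := m' + 1) hx
        have h2 := Cone.pchInv (m := m' + 1) hx 1 1 (by omega)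
        rw [pch_one, Nat.cast_one] at h2
        refine (h1.mul (h1.mul h2)).mono ?_
        intro i hi
        unfold dl dh Aa hh
        by_cases h0 : i = 0
        · subst h0
          simp
        · by_cases h1 : i = 1
          · subst h1
            simp only [if_neg h0]
            split <;> simp
          · simp only [if_neg h0]
            rw [if_neg (by omega)]
            omega
      · simp only [if_neg hs]
        exact ⟨Cone.zero _, fun _ _ => trivial⟩
  | succ r hr ih =>
    obtain ⟨θ, h1, h2⟩ := ih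
    -- good positions
    have hgood : ∀ s, 2 * s ≤ m - 1 → ¬ (m - (r + s) + 2 * s ≤ m - 1) → θ s = 0 := by
      intro s hs hns
      exact (h2 s hs).2 (by omega) (by omega)
    have e2 : lin (eb m x (m - r) (m - 1)) θ
        = lin (fun i => if m - (r + i) + 2 * i ≤ m - 1 then eb m x (m - r) (m - 1) i else 0) θ := by
      apply lin_congr
      intro i t _
      by_cases hi : m - (r + i) + 2 * i ≤ m - 1
      · rw [if_pos hi]
      · rw [if_neg hi]
        by_cases hi2 : 2 * i ≤ m - 1
        · rw [hgood i hi2 hi]; simp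
        · rw [eb_vanish i _ _ (by omega)]
    have e3 : lin (fun i => if m - (r + i) + 2 * i ≤ m - 1 then eb m x (m - r) (m - 1) i else 0) θ
        = lin (eb m x (m - r) (m + 1)) (fun t => ∑ i ∈ range (t + 1), θ i *
            (if m - (r + i) + 2 * i ≤ m - 1 then β (r + i) (m - 1 - 2 * i) (t - i) else 0)) := by
      apply lin_comp (eb_tri _ _) (b := fun i j => if m - (r + i) + 2 * i ≤ m - 1 then
        β (r + i) (m - 1 - 2 * i) j else 0)
      intro i
      by_cases hi : m - (r + i) + 2 * i ≤ m - 1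
      · simp only [if_pos hi]
        have := hlift i r (m - 1) (by omega) ⟨by omega, by omega⟩
        rw [show m - 1 + 2 = m + 1 by omega] at this
        exact this
      · simp only [if_neg hi]
        rw [lin_zero]
    set Θ : ℕ → K := fun t => ∑ i ∈ range (t + 1), θ i *
            (if m - (r + i) + 2 * i ≤ m - 1 then β (r + i) (m - 1 - 2 * i) (t - i) else 0) with hΘ
    have h4 : Fr m x c r = lin (eb m x (m - r) (m + 1)) Θ := by rw [h1, e2, e3]
    have h5 : Fr m x c r = Θ 0 • v (m + 1) 0
        + Tm m x (lin (eb m x (m - (r + 1)) (m - 1)) (fun i => Θ (i + 1))) := by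
      rw [h4, lin_head (eb_tri _ _), eb_zero, Nat.sub_self, Gf_a_zero, lin_Tm (eb_tri _ _)]
      congr 1
      apply lin_congr
      intro i t _
      obtain ⟨m', rfl⟩ : ∃ m', m = m' + 1 := ⟨m - 1, by omega⟩
      rw [show m' + 1 + 1 = m' + 2 by ring, eb_succ', Nat.add_sub_cancel,
        show m' + 1 - r - 1 = m' + 1 - (r + 1) by omega]
    have h6 := Fr_head (m := m) (x := x) c r
    have h7 : c r = Θ 0 := by
      have := congrFun h5 0
      rw [Fr_zero, Pi.add_apply, Tm_zero', Pi.smul_apply, v_zero_zero] at this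
      simpa using this
    have h8 : Fr m x c (r + 1) = lin (eb m x (m - (r + 1)) (m - 1)) (fun i => Θ (i + 1)) := by
      apply Tm_inj (m := m) hx
      rw [h6, h7] at h5
      exact add_left_cancel h5
    refine ⟨fun i => Θ (i + 1), h8, ?_⟩
    intro s hs
    constructor
    · simp only [hΘ]
      apply Cone.sum
      intro i hi
      rw [mem_range] at hi
      by_cases hg : m - (r + i) + 2 * i ≤ m - 1
      · rw [if_pos hg]
        have h9 := (hβ (r + i) (m - 1 - 2 * i) (by omega) (by omega)).2.2 (s + 1 - i) (by omega)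
        refine ((h2 i (by omega)).1.mul h9.1).mono ?_
        intro q _
        have := Aa_Bd m (r + i) (s + 1 - i) q
        rw [show r + i + (s + 1 - i) = r + 1 + s by omega] at this
        omega
      · rw [if_neg hg, mul_zero]
        exact Cone.zero _
    · intro hs1 hs2
      simp only [hΘ]
      apply Finset.sum_eq_zero
      intro i hi
      rw [mem_range] at hi
      by_cases hg : m - (r + i) + 2 * i ≤ m - 1
      · rw [if_pos hg]
        have h9 := (hβ (r + i) (m - 1 - 2 * i) (by omega) (by omega)).2.2 (s + 1 - i) (by omega)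
        rw [h9.2 (by omega) (by omega), mul_zero]
      · rw [if_neg hg, mul_zero]

/-- exponents of the coefficients -/
theorem coeff_cone (hx : ∀ z : ℤ, x + (z : K) ≠ 0) (hm : 2 ≤ m) {c : ℕ → K}
    (h0 : Fr m x c 0 = fun s : ℕ => (x + (s : K))⁻¹ * v m 0 s) (r : ℕ) :
    Cone m x (Aa m r) (c r) := by
  obtain ⟨lam, hl⟩ := exists_lam (m := m) hx (m + 1) le_rfl
  by_cases hr : r = 0
  · subst hr
    have hc0 : c 0 = x⁻¹ := by
      have := congrFun h0 0
      rw [Fr_zero, v_zero_zero] at this
      simpa using this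
    rw [hc0]
    refine (Cone.xinv (m := m) hx).mono ?_
    intro i _
    unfold dl Aa hh
    by_cases h : i = 0
    · subst h
      rw [if_pos rfl, if_neg (by omega), if_neg (by omega)]
      exact Nat.le_add_right _ _
    · rw [if_neg h]; exact Nat.zero_le _
  · obtain ⟨θ, h1, h2⟩ := dyn hl hx hm h0 r (by omega)
    have h3 := congrFun h1 0
    rw [Fr_zero] at h3
    simp only [lin, zero_add, Finset.sum_range_one] at h3
    rw [eb_zero, Gf_coeff_zero, mul_one] at h3
    rw [h3]
    exact (h2 0 (by omega)).1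

end dyn

end Pool.Agent.Helper49.LP
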