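import Mathlib

/-!
Exponent functions and floor inequalities.
-/

namespace Pool.Agent.Helper49.LP

/-- distance to the boundary -/
def hh (m i : ℕ) : ℕ := min i (m - i)

def eps (m j i : ℕ) : ℕ := j / (hh m i + 1)

def tau (m k j i : ℕ) : ℕ :=
  if hh m i < k then 1 + (j - k) / (hh m i + 1) else j / (hh m i + 1)

def Hx (m k e s0 j i : ℕ) : ℕ :=
  if 2 * i ≤ m then (if i + e ≤ k + j then (k + j + 1) / (i + 1) else 0) else tau m s0 j i

/-- final exponents -/
def Aa (m n i : ℕ) : ℕ :=
  if n < i then 0 else if 2 * i = m then 1 else 1 + (n - i) / (hh m i + 1)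

def Bd (m n j i : ℕ) : ℕ := Aa m (n + j) i - Aa m n i

/-- indicator of equality -/
def dl (i q : ℕ) : ℕ := if i = q then 1 else 0

theorem div_super (a b c : ℕ) : a / c + b / c ≤ (a + b) / c := Nat.div_add_div_le_add_div

theorem one_add_div {a c : ℕ} (hc : 0 < c) : 1 + a / c = (a + c) / c := by
  rw [Nat.add_div_right _ hc]; omega

theorem eps_add (m a b i : ℕ) : eps m a i + eps m b i ≤ eps m (a + b) i := div_super _ _ _

theorem eps_mono {m a b : ℕ} (h : a ≤ b) (i : ℕ) : eps m a i ≤ eps m b i :=
  Nat.div_le_div_right h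

theorem eps_small {m j i : ℕ} (h : j ≤ hh m i) : eps m j i = 0 := by
  unfold eps
  exact Nat.div_eq_of_lt (by omega)

theorem tau_zero_right (m j i : ℕ) : tau m 0 j i = eps m j i := by
  unfold tau eps
  rw [if_neg (by omega)]

/-- `tau` is at most `eps` -/
theorem tau_le_eps {m k j : ℕ} (h : k ≤ j) (i : ℕ) : tau m k j i ≤ eps m j i := by
  unfold tau eps
  split
  · rw [one_add_div (by omega)]
    exact Nat.div_le_div_right (by omega)
  · exact le_rfl

theorem tau_anti {m k k' j : ℕ} (h : k ≤ k') (h' : k' ≤ j) (i : ℕ) :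
    tau m k' j i ≤ tau m k j i := by
  unfold tau
  by_cases h1 : hh m i < k
  · rw [if_pos (by omega), if_pos h1]
    exact Nat.add_le_add_left (Nat.div_le_div_right (by omega)) 1
  · rw [if_neg h1]
    split
    · rw [one_add_div (by omega)]
      exact Nat.div_le_div_right (by omega)
    · exact le_rfl

theorem tau_eps {m k j' j : ℕ} (h : k ≤ j') (h' : j' ≤ j) (i : ℕ) :
    tau m k j' i + eps m (j - j') i ≤ tau m k j i := by
  unfold tau eps
  split
  · rw [add_assoc]
    apply Nat.add_le_add_left
    refine (div_super _ _ _).trans (Nat.div_le_div_right (by omega))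
  · refine (div_super _ _ _).trans (Nat.div_le_div_right (by omega))

theorem dl_sum {m i j : ℕ} (hi : i ≤ m) (h2 : 2 * j < m) :
    dl i j + dl i (m - j) = dl (hh m i) j := by
  unfold dl hh
  split <;> split <;> split <;> omega

/-- the step `k → k + 1` for `u^k P` -/
theorem tau_step {m k j i : ℕ} (hkj : k ≤ j) :
    tau m k j i + dl (hh m i) j ≤ tau m (k + 1) (j + 1) i := by
  unfold tau dl
  have e0 : j + 1 - (k + 1) = j - k := by omega
  rw [e0]
  by_cases h1 : hh m i < k
  · rw [if_pos h1, if_neg (by omega), if_pos (by omega), add_zero]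
  · rw [if_neg h1]
    by_cases h2 : hh m i = k
    · rw [if_pos (show hh m i < k + 1 by omega)]
      rw [one_add_div (by omega), h2]
      by_cases h3 : k = j
      · rw [if_pos h3, h3]
        rw [Nat.div_eq_of_lt (show j < j + 1 by omega)]
        have : (j - j + (j + 1)) / (j + 1) = 1 := by
          rw [Nat.sub_self, zero_add, Nat.div_self (by omega)]
        omega
      · rw [if_neg h3]
        exact Nat.div_le_div_right (by omega)
    · rw [if_neg (show ¬ hh m i < k + 1 by omega)]
      by_cases h3 : hh m i = j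
      · rw [if_pos h3, h3, Nat.div_eq_of_lt (show j < j + 1 by omega), Nat.div_self (by omega)]
      · rw [if_neg h3]
        exact Nat.div_le_div_right (by omega)

theorem tau_step2 {m k j' j i : ℕ} (h : k ≤ j') (h' : j' < j) :
    tau m (k + 1) (j' + 1) i + eps m (j - j') i + dl (hh m i) j ≤ tau m (k + 1) (j + 1) i := by
  by_cases h3 : hh m i = j
  · have e1 : tau m (k + 1) (j' + 1) i = 0 := by
      unfold tau
      rw [if_neg (by omega), Nat.div_eq_of_lt (by omega)]
    have e2 : eps m (j - j') i = 0 := eps_small (by omega)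
    have e3 : tau m (k + 1) (j + 1) i = 1 := by
      unfold tau
      rw [if_neg (by omega), h3, Nat.div_self (by omega)]
    have e4 : dl (hh m i) j = 1 := by rw [dl, if_pos h3]
    omega
  · have e4 : dl (hh m i) j = 0 := by rw [dl, if_neg h3]
    have := tau_eps (m := m) (k := k + 1) (j' := j' + 1) (j := j + 1) (by omega) (by omega) i
    rw [show j + 1 - (j' + 1) = j - j' by omega] at this
    omega

theorem Aa_mono {m n n' : ℕ} (h : n ≤ n') (i : ℕ) : Aa m n i ≤ Aa m n' i := by
  unfold Aa
  by_cases h1 : n < i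
  · rw [if_pos h1]; omega
  · rw [if_neg h1, if_neg (show ¬ n' < i by omega)]
    by_cases h2 : 2 * i = m
    · rw [if_pos h2, if_pos h2]
    · rw [if_neg h2, if_neg h2]
      exact Nat.add_le_add_left (Nat.div_le_div_right (by omega)) 1

theorem Aa_Bd (m n j i : ℕ) : Aa m n i + Bd m n j i = Aa m (n + j) i := by
  have := Aa_mono (m := m) (show n ≤ n + j by omega) i
  unfold Bd
  omega

theorem Bd_Bd (m n a b i : ℕ) : Bd m n a i + Bd m (n + a) b i = Bd m n (a + b) i := by
  have h1 := Aa_Bd m n a i
  have h2 := Aa_Bd m (n + a) b i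
  have h3 := Aa_Bd m n (a + b) i
  rw [← add_assoc] at h3
  omega

/-- lower bound for `Bd` away from the centre when `i ≤ n` or lower level -/
theorem Bd_ge_eps {m n j i : ℕ} (hi : i ≤ m) (hc : 2 * i ≠ m)
    (h : i ≤ n ∨ 2 * i ≤ m ∨ m ≤ n + 1) : eps m j i ≤ Bd m n j i := by
  have h0 := Aa_Bd m n j i
  suffices Aa m n i + eps m j i ≤ Aa m (n + j) i by omega
  unfold Aa eps
  simp only [if_neg hc]
  by_cases h1 : n < i
  · rw [if_pos h1, zero_add]
    by_cases h2 : n + j < i
    · rw [if_pos h2]
      -- lower level, or m ≤ n + 1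
      have : j < hh m i + 1 ∨ j = 0 := by
        unfold hh
        omega
      rcases this with h | h
      · rw [Nat.div_eq_of_lt h]
      · rw [h]; simp
    · rw [if_neg h2, one_add_div (by omega)]
      apply Nat.div_le_div_right
      unfold hh
      omega
  · rw [if_neg h1, if_neg (by omega), add_assoc]
    apply Nat.add_le_add_left
    refine (div_super _ _ _).trans (Nat.div_le_div_right (by omega))

end Pool.Agent.Helper49.LP
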