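import Pool.Agent.Helper49.LP.Three

/-!
Path sums, the formal (Kishore) numbers and the resolvent sums.
-/

namespace Pool.Agent.Helper49.LP

open Finset Pool.Agent.Helper77.Lom

section rho

variable {K : Type*} [Field K]

/-- path sums -/
def rho (x : K) : ℕ → ℕ → K
  | 0, a => if a = 0 then x⁻¹ else 0
  | (k + 1), a => ∑ b ∈ range (k + 1),
      if a ≤ b + 1 then rho x k b * (∏ t ∈ Icc a (b + 1), (x + (t : K)))⁻¹ else 0

theorem rho_zero (x : K) (a : ℕ) : rho x 0 a = if a = 0 then x⁻¹ else 0 := by rw [rho]

theorem rho_big (x : K) {k a : ℕ} (h : k < a) : rho x k a = 0 := by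
  cases k with
  | zero => rw [rho_zero, if_neg (by omega)]
  | succ k =>
    rw [rho]
    apply Finset.sum_eq_zero
    intro b hb
    rw [mem_range] at hb
    rw [if_neg (by omega)]

theorem rho_rec0 {x : K} (hx : ∀ z : ℤ, x + (z : K) ≠ 0) (a : ℕ) :
    (x + (a : K)) * rho x 0 a = (if a = 0 then 1 else 0) + rho x 0 (a + 1) := by
  rw [rho_zero, rho_zero, if_neg (show ¬ a + 1 = 0 by omega)]
  by_cases h : a = 0
  · subst h
    have : x ≠ 0 := by simpa using hx 0
    rw [if_pos rfl, if_pos rfl]
    simp [this]
  · rw [if_neg h, if_neg h]; simp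

theorem rho_rec {x : K} (hx : ∀ z : ℤ, x + (z : K) ≠ 0) (k a : ℕ) :
    (x + (a : K)) * rho x (k + 1) a
      = (if a = 0 then 0 else rho x k (a - 1)) + rho x (k + 1) (a + 1) := by
  have hne : ∀ t : ℕ, x + (t : K) ≠ 0 := fun t => by simpa using hx (t : ℤ)
  rw [rho, rho, Finset.mul_sum]
  have h1 : ∀ b ∈ range (k + 1), (x + (a : K)) *
      (if a ≤ b + 1 then rho x k b * (∏ t ∈ Icc a (b + 1), (x + (t : K)))⁻¹ else 0)
      = (if a = b + 1 then rho x k b else 0) +
        (if a + 1 ≤ b + 1 then rho x k b * (∏ t ∈ Icc (a + 1) (b + 1), (x + (t : K)))⁻¹ else 0) := by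
    intro b _
    by_cases h : a = b + 1
    · rw [if_pos (by omega), if_pos h, if_neg (by omega), h, Finset.Icc_self,
        Finset.prod_singleton, add_zero]
      have := hne (b + 1)
      field_simp
    · by_cases h2 : a ≤ b + 1
      · rw [if_pos h2, if_neg h, if_pos (by omega), zero_add]
        have e1 : ∏ t ∈ Icc a (b + 1), (x + (t : K))
            = (x + (a : K)) * ∏ t ∈ Icc (a + 1) (b + 1), (x + (t : K)) := by
          rw [← Finset.insert_Icc_add_one_left_eq_Icc h2, Finset.prod_insert (by simp)]
        rw [e1, mul_inv]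
        have := hne a
        field_simp
      · rw [if_neg h2, if_neg h, if_neg (by omega)]
        simp
  rw [Finset.sum_congr rfl h1, Finset.sum_add_distrib]
  congr 1
  by_cases ha : a = 0
  · rw [if_pos ha]
    apply Finset.sum_eq_zero
    intro b _
    rw [if_neg (by omega)]
  · rw [if_neg ha]
    by_cases h3 : a - 1 ∈ range (k + 1)
    · rw [Finset.sum_eq_single_of_mem (a - 1) h3]
      · rw [if_pos (by omega)]
      · intro b _ hb
        rw [if_neg (by omega)]
    · rw [rho_big x (by rw [mem_range] at h3; omega)]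
      apply Finset.sum_eq_zero
      intro b hb
      rw [mem_range] at h3 hb
      rw [if_neg (by omega)]

/-- formal numbers -/
def ck (x : K) (k : ℕ) : K := rho x k 0

theorem rho_star {x : K} (hx : ∀ z : ℤ, x + (z : K) ≠ 0) : ∀ (k a : ℕ),
    ((k : K) - (a : K)) * rho x k a + rho x k (a + 1)
      = ∑ i ∈ range k, ck x i * rho x (k - 1 - i) a := by
  have hne : ∀ t : ℕ, x + (t : K) ≠ 0 := fun t => by simpa using hx (t : ℤ)
  intro k
  induction k with
  | zero =>
    intro a
    rw [rho_zero, rho_zero, if_neg (show ¬ a + 1 = 0 by omega)]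
    by_cases h : a = 0
    · subst h; simp
    · rw [if_neg h]; simp
  | succ k ih =>
    -- downward induction
    suffices H : ∀ (d a : ℕ), k + 2 ≤ a + d →
        (((k + 1 : ℕ) : K) - (a : K)) * rho x (k + 1) a + rho x (k + 1) (a + 1)
          = ∑ i ∈ range (k + 1), ck x i * rho x (k + 1 - 1 - i) a by
      intro a
      exact H (k + 2) a (by omega)
    intro d
    induction d with
    | zero =>
      intro a ha
      rw [rho_big x (show k + 1 < a by omega), rho_big x (show k + 1 < a + 1 by omega),
        Finset.sum_eq_zero]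
      · simp
      · intro i hi
        rw [rho_big x (show k + 1 - 1 - i < a by omega), mul_zero]
    | succ d ihd =>
      intro a ha
      have h1 := ihd (a + 1) (by omega)
      apply mul_left_cancel₀ (hne a)
      have h2 := rho_rec hx k a
      have h3 := rho_rec hx k (a + 1)
      rw [if_neg (show ¬ a + 1 = 0 by omega), Nat.add_sub_cancel] at h3
      -- the right hand side
      have h4 : (x + (a : K)) * ∑ i ∈ range (k + 1), ck x i * rho x (k + 1 - 1 - i) a
          = (if a = 0 then ck x k else ∑ i ∈ range k, ck x i * rho x (k - 1 - i) (a - 1))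
            + ∑ i ∈ range (k + 1), ck x i * rho x (k + 1 - 1 - i) (a + 1) := by
        rw [Finset.mul_sum, Finset.sum_range_succ, Finset.sum_range_succ]
        have e1 : k + 1 - 1 - k = 0 := by omega
        rw [e1]
        have e2 : ∀ i ∈ range k, (x + (a : K)) * (ck x i * rho x (k + 1 - 1 - i) a)
            = ck x i * (if a = 0 then 0 else rho x (k - 1 - i) (a - 1))
              + ck x i * rho x (k + 1 - 1 - i) (a + 1) := by
          intro i hi
          rw [mem_range] at hi
          have e3 : k + 1 - 1 - i = (k - 1 - i) + 1 := by omega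
          rw [e3]
          have := rho_rec hx (k - 1 - i) a
          linear_combination ck x i * this
        rw [Finset.sum_congr rfl e2, Finset.sum_add_distrib]
        have e4 := rho_rec0 hx a
        by_cases ha0 : a = 0
        · rw [if_pos ha0] at e4 ⊢
          simp only [if_pos ha0, mul_zero, Finset.sum_const_zero]
          linear_combination ck x k * e4
        · rw [if_neg ha0] at e4 ⊢
          simp only [if_neg ha0]
          linear_combination ck x k * e4
      rw [h4]
      by_cases ha0 : a = 0
      · subst ha0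
        rw [if_pos rfl] at h2 ⊢
        have h5 : ck x k = rho x k 0 := rfl
        rw [h5]
        push_cast at *
        linear_combination ((k : K) + 1) * h2 + h3 + h1
      · have h6 := ih (a - 1)
        rw [Nat.cast_sub (by omega), Nat.sub_add_cancel (by omega)] at h6
        rw [if_neg ha0] at h2 ⊢
        rw [← h6]
        push_cast at *
        linear_combination ((k : K) + 1 - (a : K)) * h2 + h3 + h1

theorem ck_zero {x : K} : ck x 0 = x⁻¹ := by
  rw [ck, rho_zero, if_pos rfl]

theorem ck_rec {x : K} (hx : ∀ z : ℤ, x + (z : K) ≠ 0) (k : ℕ) :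
    (x + ((k + 1 : ℕ) : K)) * ck x (k + 1) = ∑ i ∈ range (k + 1), ck x i * ck x (k - i) := by
  have h1 := rho_star hx (k + 1) 0
  have h2 := rho_rec hx k 0
  rw [if_pos rfl] at h2
  have h3 : ck x (k + 1) = rho x (k + 1) 0 := rfl
  have h4 : ∑ i ∈ range (k + 1), ck x i * ck x (k - i)
      = ∑ i ∈ range (k + 1), ck x i * rho x (k + 1 - 1 - i) 0 := rfl
  rw [h4, ← h1, h3]
  push_cast at *
  linear_combination h2

/-- resolvent sums -/
def Xf (x : K) (k e : ℕ) : ℕ → K := fun s =>
  ∑ a ∈ range (k + 1), rho x k a * ((k - a).choose e : K) * (pch (x + (s : K)) (a + 1))⁻¹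

theorem pch_succ (y : K) (k : ℕ) : pch y (k + 1) = pch y k * (y + (k : K)) := by
  rw [pch, Finset.prod_range_succ]; rfl

theorem pch_ne {x : K} (hx : ∀ z : ℤ, x + (z : K) ≠ 0) (z : ℤ) (k : ℕ) :
    pch (x + (z : K)) k ≠ 0 := by
  rw [pch, Finset.prod_ne_zero_iff]
  intro i _
  have := hx (z + (i : ℤ))
  push_cast at this
  rwa [← add_assoc] at this

theorem Xf_big (x : K) {k e : ℕ} (h : k < e) : Xf x k e = 0 := by
  funext s
  apply Finset.sum_eq_zero
  intro a _
  rw [Nat.choose_eq_zero_of_lt (by omega)]
  simp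

theorem choose_mul_sub {n e : ℕ} (h : e ≤ n + 1) :
    (((n + 1).choose e : ℕ) : K) * (((n + 1 : ℕ) : K) - (e : K))
      = ((n + 1 : ℕ) : K) * ((n.choose e : ℕ) : K) := by
  have h1 := Nat.choose_mul_succ_eq n e
  have h2 := congrArg (fun t : ℕ => (t : K)) h1
  simp only [Nat.cast_mul] at h2
  rw [Nat.cast_sub h] at h2
  linear_combination -h2

theorem Xf_rec {x : K} (hx : ∀ z : ℤ, x + (z : K) ≠ 0) {k e : ℕ} (s : ℕ) :
    (x + (s : K) + ((k : K) - (e : K))) * Xf x k e s
      = ((k.choose e : ℕ) : K) * ck x k
        + ∑ i ∈ range k, ∑ p ∈ antidiagonal e,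
            ((i.choose p.1 : ℕ) : K) * (ck x i * Xf x (k - 1 - i) p.2 s) := by
  -- right-hand double sum
  have hR : ∑ i ∈ range k, ∑ p ∈ antidiagonal e,
            ((i.choose p.1 : ℕ) : K) * (ck x i * Xf x (k - 1 - i) p.2 s)
      = ∑ a ∈ range k, ((k - 1 - a).choose e : K) * (pch (x + (s : K)) (a + 1))⁻¹ *
          ∑ i ∈ range k, ck x i * rho x (k - 1 - i) a := by
    have e1 : ∀ a ∈ range k, ((k - 1 - a).choose e : K) * (pch (x + (s : K)) (a + 1))⁻¹ *
          ∑ i ∈ range k, ck x i * rho x (k - 1 - i) a
        = ∑ i ∈ range k, ((k - 1 - a).choose e : K) * (pch (x + (s : K)) (a + 1))⁻¹ *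
            (ck x i * rho x (k - 1 - i) a) := by
      intro a _
      rw [Finset.mul_sum]
    conv_rhs => rw [Finset.sum_congr rfl e1, Finset.sum_comm]
    apply Finset.sum_congr rfl
    intro i hi
    rw [mem_range] at hi
    have e2 : ∀ p ∈ antidiagonal e, ((i.choose p.1 : ℕ) : K) * (ck x i * Xf x (k - 1 - i) p.2 s)
        = ∑ a ∈ range k, ((i.choose p.1 : ℕ) : K) * (((k - 1 - i - a).choose p.2 : ℕ) : K) *
          (ck x i * rho x (k - 1 - i) a * (pch (x + (s : K)) (a + 1))⁻¹) := by
      intro p _
      rw [Xf, Finset.mul_sum, Finset.mul_sum]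
      have e3 : range (k - 1 - i + 1) ⊆ range k := by
        intro a ha; rw [mem_range] at *; omega
      rw [← Finset.sum_subset e3]
      · apply Finset.sum_congr rfl
        intro a _
        ring
      · intro a _ ha
        rw [mem_range] at ha
        rw [rho_big x (by omega)]
        ring
    rw [Finset.sum_congr rfl e2, Finset.sum_comm]
    apply Finset.sum_congr rfl
    intro a ha
    rw [mem_range] at ha
    rw [← Finset.sum_mul]
    by_cases h : a ≤ k - 1 - i
    · have e4 : (∑ p ∈ antidiagonal e,
          ((i.choose p.1 : ℕ) : K) * (((k - 1 - i - a).choose p.2 : ℕ) : K))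
          = (((k - 1 - a).choose e : ℕ) : K) := by
        have := Nat.add_choose_eq i (k - 1 - i - a) e
        rw [show i + (k - 1 - i - a) = k - 1 - a by omega] at this
        rw [this]
        push_cast
        rfl
      rw [e4]
      ring
    · rw [rho_big x (by omega)]
      ring
  rw [hR]
  -- left-hand side
  have hs : ∀ a : ℕ, x + (s : K) + (a : K) ≠ 0 := by
    intro a
    have := hx ((s : ℤ) + (a : ℤ))
    push_cast at this
    rwa [← add_assoc] at this
  rw [Xf, Finset.mul_sum]
  have hL : ∀ a ∈ range (k + 1), (x + (s : K) + ((k : K) - (e : K))) *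
      (rho x k a * ((k - a).choose e : K) * (pch (x + (s : K)) (a + 1))⁻¹)
      = rho x k a * ((k - a).choose e : K) * (pch (x + (s : K)) a)⁻¹
        + rho x k a * (((k : K) - (a : K)) * ((k - 1 - a).choose e : K))
          * (pch (x + (s : K)) (a + 1))⁻¹ := by
    intro a ha
    rw [mem_range] at ha
    have e1 : (((k - a).choose e : ℕ) : K) * ((k : K) - (a : K) - (e : K))
        = ((k : K) - (a : K)) * ((k - 1 - a).choose e : K) := by
      by_cases hak : a = k
      · subst hak
        rw [Nat.sub_self]
        by_cases he : e = 0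
        · subst he; simp
        · rw [Nat.choose_eq_zero_of_lt (by omega)]; simp
      · by_cases he : e ≤ k - a
        · obtain ⟨n, hn⟩ : ∃ n, k = a + (n + 1) := ⟨k - a - 1, by omega⟩
          subst hn
          have := choose_mul_sub (K := K) (n := n) (e := e) (by omega)
          rw [show a + (n + 1) - a = n + 1 by omega, show a + (n + 1) - 1 - a = n by omega]
          push_cast at *
          linear_combination this
        · rw [Nat.choose_eq_zero_of_lt (show k - a < e by omega),
            Nat.choose_eq_zero_of_lt (show k - 1 - a < e by omega)]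
          simp
    rw [pch_succ, mul_inv]
    have e2 : (x + (s : K) + ((k : K) - (e : K)))
        = (x + (s : K) + (a : K)) + ((k : K) - (a : K) - (e : K)) := by ring
    rw [e2, add_mul]
    congr 1
    · field_simp [hs a]
    · rw [← e1]; ring
  rw [Finset.sum_congr rfl hL, Finset.sum_add_distrib, Finset.sum_range_succ']
  -- last term of the second sum vanishes
  have hS : ∑ a ∈ range (k + 1), rho x k a * (((k : K) - (a : K)) * ((k - 1 - a).choose e : K))
          * (pch (x + (s : K)) (a + 1))⁻¹
      = ∑ a ∈ range k, rho x k a * (((k : K) - (a : K)) * ((k - 1 - a).choose e : K))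
          * (pch (x + (s : K)) (a + 1))⁻¹ := by
    rw [Finset.sum_range_succ, sub_self]
    ring
  rw [hS]
  have hP : pch (x + (s : K)) 0 = 1 := by rw [pch]; simp
  rw [hP]
  have hc : rho x k 0 = ck x k := rfl
  rw [hc, Nat.sub_zero]
  have hF : ∑ a ∈ range k, rho x k (a + 1) * ((k - (a + 1)).choose e : K)
        * (pch (x + (s : K)) (a + 1))⁻¹
      + ∑ a ∈ range k, rho x k a * (((k : K) - (a : K)) * ((k - 1 - a).choose e : K))
          * (pch (x + (s : K)) (a + 1))⁻¹
      = ∑ a ∈ range k, ((k - 1 - a).choose e : K) * (pch (x + (s : K)) (a + 1))⁻¹ *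
          ∑ i ∈ range k, ck x i * rho x (k - 1 - i) a := by
    rw [← Finset.sum_add_distrib]
    apply Finset.sum_congr rfl
    intro a _
    rw [← rho_star hx k a, show k - (a + 1) = k - 1 - a by omega]
    ring
  rw [← hF]
  ring

end rho

end Pool.Agent.Helper49.LP
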