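import Pool.Agent.Helper49.LP.Six

/-!
Cone bounds at the walls.
-/

namespace Pool.Agent.Helper49.LP

open Finset Pool.Agent.Helper77.Lom

/-- indicator of a half open interval -/
def dh (i q r : ℕ) : ℕ := if q ≤ i ∧ i < q + r then 1 else 0

section W

variable {K : Type*} [Field K] {m : ℕ} {x : K}

/-- expansions with dead positions -/
def ExW (m : ℕ) (x : K) (g N : ℕ) (S : ℕ → Prop) (E : ℕ → ℕ → ℕ) (f : ℕ → K) : Prop :=
  ∃ a : ℕ → K, f = lin (eb m x g N) a ∧
    ∀ j, 2 * j ≤ N → (S j → a j = 0) ∧ Cone m x (E j) (a j)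

theorem ExW.zero (g N : ℕ) (S : ℕ → Prop) (E : ℕ → ℕ → ℕ) : ExW m x g N S E (0 : ℕ → K) :=
  ⟨fun _ => 0, (lin_zero _).symm, fun _ _ => ⟨fun _ => rfl, Cone.zero _⟩⟩

theorem ExW.add {g N : ℕ} {S : ℕ → Prop} {E : ℕ → ℕ → ℕ} {f h : ℕ → K}
    (hf : ExW m x g N S E f) (hh : ExW m x g N S E h) : ExW m x g N S E (f + h) := by
  obtain ⟨a, ha, hc⟩ := hf
  obtain ⟨b, hb, hd⟩ := hh
  refine ⟨fun i => a i + b i, by rw [ha, hb, lin_add], fun j hj => ⟨fun hs => ?_, ?_⟩⟩
  · simp only [(hc j hj).1 hs, (hd j hj).1 hs, add_zero]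
  · exact (hc j hj).2.add (hd j hj).2

theorem ExW.natMul {g N : ℕ} {S : ℕ → Prop} {E : ℕ → ℕ → ℕ} {f : ℕ → K} (n : ℕ)
    (hf : ExW m x g N S E f) : ExW m x g N S E ((n : K) • f) := by
  obtain ⟨a, ha, hc⟩ := hf
  refine ⟨fun i => (n : K) * a i, by rw [ha, lin_smul], fun j hj => ⟨fun hs => ?_, ?_⟩⟩
  · simp only [(hc j hj).1 hs, mul_zero]
  · exact Cone.natMul n (hc j hj).2

theorem ExW.mono {g N : ℕ} {S S' : ℕ → Prop} {E E' : ℕ → ℕ → ℕ} {f : ℕ → K}
    (hf : ExW m x g N S E f) (hS : ∀ j, 2 * j ≤ N → S' j → S j)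
    (hE : ∀ j, 2 * j ≤ N → ¬ S j → ∀ i ≤ m, E j i ≤ E' j i) : ExW m x g N S' E' f := by
  obtain ⟨a, ha, hc⟩ := hf
  refine ⟨a, ha, fun j hj => ⟨fun hs => (hc j hj).1 (hS j hj hs), ?_⟩⟩
  by_cases h : S j
  · rw [(hc j hj).1 h]; exact Cone.zero _
  · exact (hc j hj).2.mono (hE j hj h)

theorem ExW.shift {g N : ℕ} {S : ℕ → Prop} {E : ℕ → ℕ → ℕ} {f : ℕ → K}
    (hf : ExW m x (g - 1) N S E f) :
    ExW m x g (N + 2) (fun j => j = 0 ∨ S (j - 1)) (fun j => E (j - 1)) (Tm m x f) := by
  obtain ⟨a, ha, hc⟩ := hf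
  refine ⟨sh a, by rw [ha, lin_shift], ?_⟩
  intro j hj
  cases j with
  | zero => exact ⟨fun _ => rfl, Cone.zero _⟩
  | succ j =>
    have := hc j (by omega)
    refine ⟨fun h => this.1 ?_, this.2⟩
    rcases h with h | h
    · omega
    · exact h

theorem ExW.ofEx {g N s0 : ℕ} {E : ℕ → ℕ → ℕ} {f : ℕ → K} (hg : g ≤ s0 + 1)
    (hf : Ex m x 0 N (Pf m x s0 E) f) : ExW m x g N (fun j => j < s0) E f := by
  obtain ⟨a, ha, hc⟩ := hf
  refine ⟨a, ?_, fun j hj => ⟨(hc j hj).1, ?_⟩⟩
  · rw [ha]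
    apply lin_congr
    intro i r _
    by_cases hi : 2 * i ≤ N
    · by_cases h2 : i < s0
      · rw [(hc i hi).1 h2]; ring
      · rw [eb_wall i g N (by omega)]
    · rw [eb_vanish i 0 N (by omega), eb_vanish i g N (by omega)]
  · by_cases h2 : s0 ≤ j
    · exact (hc j hj).2 h2
    · rw [(hc j hj).1 (by omega)]; exact Cone.zero _

theorem ExW.single {g N : ℕ} {S : ℕ → Prop} {E : ℕ → ℕ → ℕ} {c : K} (hS : ¬ S 0)
    (hc : Cone m x (E 0) c) : ExW m x g N S E (c • Gf m x g (m + 1 - N) N) := by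
  refine ⟨fun i => if i = 0 then c else 0, ?_, ?_⟩
  · rw [← eb_zero]
    funext r
    simp only [lin, Pi.smul_apply, smul_eq_mul]
    rw [Finset.sum_range_succ', Finset.sum_eq_zero]
    · simp
    · intro k _
      rw [if_neg (by omega)]
      ring
  · intro j _
    by_cases hj : j = 0
    · subst hj
      exact ⟨fun h => absurd h hS, by simpa using hc⟩
    · simp only [if_neg hj]
      exact ⟨fun _ => trivial, Cone.zero _⟩

theorem Cone.pchInv (hx : ∀ z : ℤ, x + (z : K) ≠ 0) (q : ℕ) : ∀ r, q + r ≤ m + 1 →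
    Cone m x (fun i => dh i q r) ((pch (x + (q : K)) r)⁻¹) := by
  intro r
  induction r with
  | zero =>
    intro _
    rw [pch_zero, inv_one]
    exact Cone.natOne _
  | succ r ih =>
    intro hr
    refine Cone.div' (q := q + r) (by omega) ?_ ?_
    · have h1 := xs_ne hx q r
      have e1 : (x + ((q + r : ℕ) : K)) * (pch (x + (q : K)) (r + 1))⁻¹
          = (pch (x + (q : K)) r)⁻¹ := by
        rw [pch_succ, mul_inv]
        have : x + ((q + r : ℕ) : K) = x + (q : K) + (r : K) := by push_cast; ring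
        rw [this]
        field_simp
      rw [e1]
      refine (ih (by omega)).mono ?_
      intro i _
      unfold dh dl
      split <;> split <;> split <;> omega
    · unfold dh
      rw [if_pos (by omega)]

theorem Cone.natAdd (n : ℕ) : Cone m x (fun _ => 0) (x + (n : K)) := by
  refine ⟨Polynomial.X + Polynomial.C n, ?_⟩
  simp

theorem Cone.xinv (hx : ∀ z : ℤ, x + (z : K) ≠ 0) : Cone m x (fun i => dl i 0) (x⁻¹) := by
  refine Cone.div' (q := 0) (Nat.zero_le _) ?_ (by simp [dl])
  have : x ≠ 0 := by simpa using hx 0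
  rw [Nat.cast_zero, add_zero, mul_inv_cancel₀ this]
  exact Cone.natOne _

theorem Cone.cg (hx : ∀ z : ℤ, x + (z : K) ≠ 0) {g : ℕ} (hg : g ≤ m) (N : ℕ) :
    Cone m x (fun i => dh i (m - g + 1) (g - g / 2)) (LP.cg m x g N) := by
  have e1 : x + (m : K) - (g : K) + 1 = x + ((m - g + 1 : ℕ) : K) := by
    rw [Nat.cast_add, Nat.cast_sub hg]; push_cast; ring
  rw [LP.cg, e1]
  have h1 := Cone.pchInv (m := m) hx (m - g + 1) (g - g / 2) (by omega)
  split
  · rw [mul_one]; exact h1
  · refine (h1.mul (Cone.natAdd _)).mono ?_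
    intro i _
    simp

variable {lam : ℕ → ℕ → K}

/-- the boundary terms -/
theorem W_bound (hl : Lm m x (m + 1) lam) (hx : ∀ z : ℤ, x + (z : K) ≠ 0) {n k g N : ℕ}
    (hn : n + 1 + k + g = m) (hN : N + 2 * k + 2 ≤ m + 1) :
    ExW m x g N (fun j => j < g + 1) (fun j i => Bd m n (k + 1 + j) i)
      ((pch (x + ((n + 1 : ℕ) : K)) (k + 1))⁻¹ • Wf m x k g N) := by
  apply ExW.ofEx (by omega)
  rw [Wf_eq hN, Finset.smul_sum]
  apply Ex.sum
  intro p hp
  rw [HasAntidiagonal.mem_antidiagonal] at hp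
  rw [smul_comm]
  apply Ex.natMul
  rw [smul_smul]
  have h1 : Ex m x 0 N (Pf m x (g + 1) (tau m (g + 1)))
      (Ph N (g / 2 + 1) (g - g / 2)) := by
    have := Ex.Ph hl hx (show N ≤ m + 1 by omega) (g / 2 + 1) (g - g / 2)
    rwa [show g - g / 2 + (g / 2 + 1) = g + 1 by omega] at this
  have h2 := Ex.X hl hx h1 k p.1 (by omega) hN
  have h3 := (Cone.pchInv (m := m) hx (n + 1) (k + 1) (by omega)).mul
    (Cone.cg hx (show g ≤ m by omega) N)
  refine (Ex.coneMul h3 h2).mono le_rfl ?_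
  intro j hj hjN i hi
  have h4 := wall_num (m := m) (n := n) (k := k) (j := j) (i := i)
    (d := dh i (n + 1) (k + 1) + dh i (m - g + 1) (g - g / 2)) hi (by omega) (by omega) (by omega)
    (by
      unfold dh di
      split <;> split <;> split <;> omega) p.1
  rw [show m - n - k = g + 1 by omega] at h4
  exact h4

/-- the recursion without its boundary term -/
def Zo (m : ℕ) (x : K) (k g N : ℕ) : ℕ → K :=
  ck x k • Gf m x g (m + 1 - N) N
        + (if g = 0 ∨ N = g then 0 else
            (((N - g : ℕ) : K) * (x + (m : K) - (g : K) + 1)⁻¹) •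
              Tm m x (Zf m x (k + 1) (g - 1) (N - 2)))

theorem Z_bound (hl : Lm m x (m + 1) lam) (hx : ∀ z : ℤ, x + (z : K) ≠ 0) : ∀ g k n N : ℕ,
    n + 1 + k + g = m → g ≤ N → N + 2 * k + 2 ≤ m + 1 →
    ExW m x g N (fun j => N < g + j ∧ j < g) (fun j i => Bd m n (k + 1 + j) i)
      ((pch (x + ((n + 1 : ℕ) : K)) (k + 1))⁻¹ • Zo m x k g N) ∧
    ExW m x g N (fun j => N < g + j ∧ j < g) (fun j i => Bd m n (k + 1 + j) i)
      ((pch (x + ((n + 1 : ℕ) : K)) (k + 1))⁻¹ • Zf m x k g N) := by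
  intro g
  induction g with
  | zero =>
    intro k n N hn hgN hN
    have hA : ExW m x 0 N (fun j => N < 0 + j ∧ j < 0) (fun j i => Bd m n (k + 1 + j) i)
        ((pch (x + ((n + 1 : ℕ) : K)) (k + 1))⁻¹ • Zo m x k 0 N) := by
      rw [Zo, if_pos (Or.inl rfl), add_zero, smul_smul]
      apply ExW.single (by omega)
      refine ((Cone.pchInv (m := m) hx (n + 1) (k + 1) (by omega)).mul
        (Cone.ck hx k (by omega))).mono ?_
      intro i hi
      have := formal_num (m := m) (n := n) (k := k) hi (by omega) (by omega)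
      have e : dh i (n + 1) (k + 1) = di i (n + 1) (n + 1 + k) := by
        unfold dh di
        congr 1
        apply propext
        constructor <;> intro h <;> omega
      rw [e]
      exact this
    refine ⟨hA, ?_⟩
    have hZ : Zf m x k 0 N = Zo m x k 0 N + Wf m x k 0 N := Zf_rec hx hgN hN
    rw [hZ, smul_add]
    refine ExW.add hA ((W_bound hl hx hn hN).mono ?_ ?_)
    · intro j _ h; omega
    · intro j _ _ i _; exact le_rfl
  | succ g ih =>
    intro k n N hn hgN hN
    have hA : ExW m x (g + 1) N (fun j => N < g + 1 + j ∧ j < g + 1)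
        (fun j i => Bd m n (k + 1 + j) i)
        ((pch (x + ((n + 1 : ℕ) : K)) (k + 1))⁻¹ • Zo m x k (g + 1) N) := by
      rw [Zo, smul_add]
      refine ExW.add ?_ ?_
      · rw [smul_smul]
        apply ExW.single (by omega)
        refine ((Cone.pchInv (m := m) hx (n + 1) (k + 1) (by omega)).mul
          (Cone.ck hx k (by omega))).mono ?_
        intro i hi
        have := formal_num (m := m) (n := n) (k := k) hi (by omega) (by omega)
        have e : dh i (n + 1) (k + 1) = di i (n + 1) (n + 1 + k) := by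
          unfold dh di
          congr 1
          apply propext
          constructor <;> intro h <;> omega
        rw [e]
        exact this
      · by_cases h0 : N = g + 1
        · rw [if_pos (Or.inr h0), smul_zero]
          exact ExW.zero _ _ _ _
        · rw [if_neg (by omega)]
          obtain ⟨N', rfl⟩ : ∃ N', N = N' + 2 := ⟨N - 2, by omega⟩
          have h1 := (ih (k + 1) n N' (by omega) (by omega) (by omega)).2
          have e1 : (pch (x + ((n + 1 : ℕ) : K)) (k + 1))⁻¹ •
              (((N' + 2 - (g + 1) : ℕ) : K) * (x + (m : K) - ((g + 1 : ℕ) : K) + 1)⁻¹) •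
                Tm m x (Zf m x (k + 1) (g + 1 - 1) (N' + 2 - 2))
              = ((N' + 2 - (g + 1) : ℕ) : K) •
                Tm m x ((pch (x + ((n + 1 : ℕ) : K)) (k + 1 + 1))⁻¹ • Zf m x (k + 1) g N') := by
            rw [Nat.add_sub_cancel, Nat.add_sub_cancel, Tm_smul, smul_smul, smul_smul, pch_succ _ (k + 1),
              mul_inv]
            have e2 : x + (m : K) - ((g + 1 : ℕ) : K) + 1
                = x + ((n + 1 : ℕ) : K) + ((k + 1 : ℕ) : K) := by
              rw [← hn]; push_cast; ring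
            rw [e2]
            congr 1
            ring
          rw [e1]
          apply ExW.natMul
          have h2 := ExW.shift (g := g + 1) (by rw [Nat.add_sub_cancel]; exact h1)
          refine h2.mono ?_ ?_
          · intro j _ h
            by_cases hj : j = 0
            · exact Or.inl hj
            · right
              constructor <;> omega
          · intro j hj hS i hi
            have hj0 : j ≠ 0 := fun h => hS (Or.inl h)
            rw [show k + 1 + 1 + (j - 1) = k + 1 + j by omega]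
    refine ⟨hA, ?_⟩
    have hZ : Zf m x k (g + 1) N = Zo m x k (g + 1) N + Wf m x k (g + 1) N := Zf_rec hx hgN hN
    rw [hZ, smul_add]
    refine ExW.add hA ((W_bound hl hx hn hN).mono ?_ ?_)
    · intro j _ h; omega
    · intro j _ _ i _; exact le_rfl

end W

end Pool.Agent.Helper49.LP
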