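import Pool.Agent.Helper49.LP.Five

/-!
The unrolled recursion.
-/

namespace Pool.Agent.Helper49.LP

open Finset Pool.Agent.Helper77.Lom

section Z

variable {K : Type*} [Field K] {m : ℕ} {x : K}

def Yf (m : ℕ) (x : K) (i g N : ℕ) : ℕ → K := fun s =>
  (pch (x + (s : K)) i)⁻¹ * Gf m x g (m + 1 - i - N) N s

def Zf (m : ℕ) (x : K) (k g N : ℕ) : ℕ → K :=
  if k = 0 then Yf m x 1 g N else ∑ b ∈ range k, rho x (k - 1) b • Yf m x (b + 2) g N

def Wf (m : ℕ) (x : K) (k g N : ℕ) : ℕ → K := fun s =>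
  ∑ b ∈ range (k + 1), rho x k b * ((pch (x + (s : K)) (b + 1))⁻¹ *
    (mc K (m + 1 - N - b) (g / 2) * cg m x g N * Ph N (g / 2 + 1) (g - g / 2) s))

theorem pch_one (y : K) : pch y 1 = y := by simp [pch]

theorem pch_zero (y : K) : pch y 0 = 1 := by simp [pch]

theorem xs_ne (hx : ∀ z : ℤ, x + (z : K) ≠ 0) (s b : ℕ) : x + (s : K) + (b : K) ≠ 0 := by
  have := hx ((s : ℤ) + (b : ℤ))
  push_cast at this
  rwa [← add_assoc] at this

theorem pchs_ne (hx : ∀ z : ℤ, x + (z : K) ≠ 0) (s k : ℕ) : pch (x + (s : K)) k ≠ 0 := by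
  rw [pch, Finset.prod_ne_zero_iff]
  intro i _
  exact xs_ne hx s i

theorem pch_shift (y : K) (k : ℕ) : pch y (k + 1) = y * pch (y + 1) k := by
  rw [pch, Finset.prod_range_succ', pch, mul_comm]
  congr 1
  · simp
  · apply Finset.prod_congr rfl
    intro i _
    push_cast
    ring

/-- `T Y^{(b+2)}` in terms of `U` -/
theorem Tm_Yf (hx : ∀ z : ℤ, x + (z : K) ≠ 0) {b g N a : ℕ} (ha : m + 1 - (b + 2) - N = a) (s : ℕ) :
    Tm m x (Yf m x (b + 2) g N) s
      = (pch (x + (s : K)) (b + 1))⁻¹ *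
        U ((fun s : ℕ => x + (m : K) - (s : K)) * Gf m x g a N) s := by
  cases s with
  | zero => rw [Tm_zero', U_zero', mul_zero]
  | succ s =>
    rw [Tm_succ, U_succ, Pi.mul_apply, Yf, ha]
    have h1 : pch (x + (s : K)) (b + 2)
        = (x + (s : K)) * pch (x + ((s + 1 : ℕ) : K)) (b + 1) := by
      rw [pch_shift]
      congr 2
      push_cast
      ring
    have h2 : x + (s : K) ≠ 0 := by simpa using hx (s : ℤ)
    rw [h1, mul_inv]
    field_simp

theorem Yf_rec (hx : ∀ z : ℤ, x + (z : K) ≠ 0) {g b N : ℕ} (hgN : g ≤ N) (hb : b + N ≤ m) :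
    (x + (b : K)) • Yf m x (b + 1) g N
      = Yf m x b g N
        + (if g = 0 ∨ N = g then 0 else
            (((N - g : ℕ) : K) * (x + (m : K) - (g : K) + 1)⁻¹) •
              Tm m x (Yf m x (b + 2) (g - 1) (N - 2)))
        + (fun s : ℕ => (pch (x + (s : K)) (b + 1))⁻¹ *
          (mc K (m + 1 - N - b) (g / 2) * cg m x g N * Ph N (g / 2 + 1) (g - g / 2) s)) := by
  obtain ⟨a, ha⟩ : ∃ a, a + b + N = m := ⟨m - b - N, by omega⟩
  funext s
  have hY := Yrec hx (g := g) ha s
  have e1 : m + 1 - (b + 1) - N = a := by omega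
  have e2 : m + 1 - b - N = a + 1 := by omega
  have e3 : m + 1 - N - b = a + 1 := by omega
  have hne := xs_ne hx s b
  have hpn := pchs_ne hx s b
  simp only [Pi.add_apply, Pi.smul_apply, smul_eq_mul]
  rw [Yf, Yf, e1, e2, e3]
  have hT : (if g = 0 ∨ N = g then (0 : ℕ → K) else
            (((N - g : ℕ) : K) * (x + (m : K) - (g : K) + 1)⁻¹) •
              Tm m x (Yf m x (b + 2) (g - 1) (N - 2))) s
      = (pch (x + (s : K)) (b + 1))⁻¹ * (if g = 0 then 0 else ((N : K) - (g : K)) *
            ((x + (m : K) - (g : K) + 1 + ((g : K) - (s : K))) *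
              Bsum (fun k => v N k s) (x + (m : K) - (g : K) + 1) ((g : K) - (s : K)) (a + 1)
                ((g - 1) / 2 + 1))) := by
    by_cases h0 : g = 0
    · rw [if_pos (Or.inl h0), if_pos h0, mul_zero]; rfl
    · rw [if_neg h0]
      by_cases hN : N = g
      · rw [if_pos (Or.inr hN), hN, sub_self, zero_mul, mul_zero]; rfl
      · rw [if_neg (by tauto)]
        obtain ⟨g', rfl⟩ : ∃ g', g = g' + 1 := ⟨g - 1, by omega⟩
        obtain ⟨N', rfl⟩ : ∃ N', N = N' + 2 := ⟨N - 2, by omega⟩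
        rw [Nat.add_sub_cancel, Nat.add_sub_cancel]
        have hU := U_Gf (m := m) hx g' (a + 1) N' s
        rw [Pi.smul_apply, smul_eq_mul, Tm_Yf hx (a := a + 1) (by omega), Nat.cast_sub hgN]
        rw [← hU]
        ring
  rw [hT, pch_succ, mul_inv]
  have h5 : (x + (b : K)) * ((pch (x + (s : K)) b)⁻¹ * (x + (s : K) + (b : K))⁻¹ * Gf m x g a N s)
      = (pch (x + (s : K)) b)⁻¹ * (x + (s : K) + (b : K))⁻¹ *
        ((x + (b : K)) * Gf m x g a N s) := by ring
  rw [h5, hY]
  have h6 : (pch (x + (s : K)) b)⁻¹ * (x + (s : K) + (b : K))⁻¹ *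
      ((x + (b : K) + (s : K)) * Gf m x g (a + 1) N s)
      = (pch (x + (s : K)) b)⁻¹ * Gf m x g (a + 1) N s := by
    have : x + (b : K) + (s : K) = x + (s : K) + (b : K) := by ring
    rw [this]
    field_simp
  rw [mul_add, mul_add, h6]

theorem Zf_rec (hx : ∀ z : ℤ, x + (z : K) ≠ 0) {k g N : ℕ} (hgN : g ≤ N)
    (hN : N + 2 * k + 2 ≤ m + 1) :
    Zf m x k g N
      = ck x k • Gf m x g (m + 1 - N) N
        + (if g = 0 ∨ N = g then 0 else
            (((N - g : ℕ) : K) * (x + (m : K) - (g : K) + 1)⁻¹) •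
              Tm m x (Zf m x (k + 1) (g - 1) (N - 2)))
        + Wf m x k g N := by
  -- the summed recursion
  have h1 : ∑ b ∈ range (k + 1), rho x k b • ((x + (b : K)) • Yf m x (b + 1) g N)
      = ∑ b ∈ range (k + 1), rho x k b • Yf m x b g N
        + (if g = 0 ∨ N = g then 0 else
            (((N - g : ℕ) : K) * (x + (m : K) - (g : K) + 1)⁻¹) •
              Tm m x (Zf m x (k + 1) (g - 1) (N - 2)))
        + Wf m x k g N := by
    have h2 : ∀ b ∈ range (k + 1), rho x k b • ((x + (b : K)) • Yf m x (b + 1) g N)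
        = rho x k b • Yf m x b g N
        + rho x k b • (if g = 0 ∨ N = g then 0 else
            (((N - g : ℕ) : K) * (x + (m : K) - (g : K) + 1)⁻¹) •
              Tm m x (Yf m x (b + 2) (g - 1) (N - 2)))
        + rho x k b • (fun s : ℕ => (pch (x + (s : K)) (b + 1))⁻¹ *
          (mc K (m + 1 - N - b) (g / 2) * cg m x g N * Ph N (g / 2 + 1) (g - g / 2) s)) := by
      intro b hb
      rw [mem_range] at hb
      rw [Yf_rec hx hgN (show b + N ≤ m by omega), smul_add, smul_add]
    rw [Finset.sum_congr rfl h2, Finset.sum_add_distrib, Finset.sum_add_distrib]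
    congr 1
    · congr 1
      by_cases h0 : g = 0 ∨ N = g
      · simp only [if_pos h0, smul_zero, Finset.sum_const_zero]
      · simp only [if_neg h0]
        rw [Zf, if_neg (by omega), Tm_sum, Finset.smul_sum, Nat.add_sub_cancel]
        apply Finset.sum_congr rfl
        intro b _
        rw [Tm_smul, smul_comm]
    · funext s
      rw [Wf, Finset.sum_apply]
      apply Finset.sum_congr rfl
      intro b _
      rw [Pi.smul_apply, smul_eq_mul]
  -- left side
  have h3 : ∑ b ∈ range (k + 1), rho x k b • ((x + (b : K)) • Yf m x (b + 1) g N)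
      = Zf m x k g N + ∑ b ∈ range k, rho x k (b + 1) • Yf m x (b + 1) g N := by
    cases k with
    | zero =>
      have hx0 : x ≠ 0 := by simpa using hx 0
      simp only [zero_add, Finset.sum_range_one, Finset.sum_range_zero, add_zero, Zf, if_true,
        rho_zero, Nat.cast_zero]
      rw [smul_smul, inv_mul_cancel₀ hx0, one_smul]
    | succ k =>
      have h4 : ∀ b ∈ range (k + 1 + 1), rho x (k + 1) b • ((x + (b : K)) • Yf m x (b + 1) g N)
          = (if b = 0 then 0 else rho x k (b - 1)) • Yf m x (b + 1) g N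
            + rho x (k + 1) (b + 1) • Yf m x (b + 1) g N := by
        intro b _
        rw [smul_smul, ← add_smul, ← rho_rec hx k b, mul_comm]
      rw [Finset.sum_congr rfl h4, Finset.sum_add_distrib]
      congr 1
      · rw [Finset.sum_range_succ', if_pos rfl, zero_smul, add_zero, Zf, if_neg (by omega)]
        apply Finset.sum_congr rfl
        intro b _
        rw [if_neg (by omega)]
        rfl
      · rw [Finset.sum_range_succ, rho_big x (show k + 1 < k + 1 + 1 by omega), zero_smul, add_zero]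
  have h5 : ∑ b ∈ range (k + 1), rho x k b • Yf m x b g N
      = ck x k • Gf m x g (m + 1 - N) N + ∑ b ∈ range k, rho x k (b + 1) • Yf m x (b + 1) g N := by
    rw [Finset.sum_range_succ', add_comm]
    congr 1
    have : Yf m x 0 g N = Gf m x g (m + 1 - N) N := by
      funext s
      rw [Yf, pch_zero, inv_one, one_mul, Nat.sub_zero]
    rw [this]; rfl
  rw [h3, h5] at h1
  have h6 : Zf m x k g N + ∑ b ∈ range k, rho x k (b + 1) • Yf m x (b + 1) g N
      = (ck x k • Gf m x g (m + 1 - N) N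
        + (if g = 0 ∨ N = g then 0 else
            (((N - g : ℕ) : K) * (x + (m : K) - (g : K) + 1)⁻¹) •
              Tm m x (Zf m x (k + 1) (g - 1) (N - 2)))
        + Wf m x k g N) + ∑ b ∈ range k, rho x k (b + 1) • Yf m x (b + 1) g N := by
    rw [h1]
    abel
  exact add_right_cancel h6

/-- `W` in terms of the resolvent sums -/
theorem Wf_eq {k g N : ℕ} (hN : N + 2 * k + 2 ≤ m + 1) :
    Wf m x k g N = ∑ p ∈ antidiagonal (g / 2),
      (((m - N - k + g / 2).choose p.2 : ℕ) : K) •
        (cg m x g N • (Xf x k p.1 * Ph N (g / 2 + 1) (g - g / 2))) := by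
  funext s
  rw [Wf, Finset.sum_apply]
  have h1 : ∀ p ∈ antidiagonal (g / 2), ((((m - N - k + g / 2).choose p.2 : ℕ) : K) •
        (cg m x g N • (Xf x k p.1 * Ph N (g / 2 + 1) (g - g / 2))) : ℕ → K) s
      = ∑ b ∈ range (k + 1), (((k - b).choose p.1 : ℕ) : K) *
          (((m - N - k + g / 2).choose p.2 : ℕ) : K) *
          (rho x k b * (pch (x + (s : K)) (b + 1))⁻¹ * cg m x g N *
            Ph N (g / 2 + 1) (g - g / 2) s) := by
    intro p _
    simp only [Pi.smul_apply, Pi.mul_apply, smul_eq_mul, Xf]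
    rw [Finset.sum_mul, Finset.mul_sum, Finset.mul_sum]
    apply Finset.sum_congr rfl
    intro b _
    ring
  rw [Finset.sum_congr rfl h1, Finset.sum_comm]
  apply Finset.sum_congr rfl
  intro b hb
  rw [mem_range] at hb
  rw [← Finset.sum_mul]
  have h2 : mc K (m + 1 - N - b) (g / 2) = ∑ p ∈ antidiagonal (g / 2),
      (((k - b).choose p.1 : ℕ) : K) * (((m - N - k + g / 2).choose p.2 : ℕ) : K) := by
    rw [mc, Nat.multichoose_eq]
    have := Nat.add_choose_eq (k - b) (m - N - k + g / 2) (g / 2)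
    rw [show k - b + (m - N - k + g / 2) = m + 1 - N - b + g / 2 - 1 by omega] at this
    rw [this]
    push_cast
    rfl
  rw [h2]
  ring

end Z

end Pool.Agent.Helper49.LP
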