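import Pool.Agent.Helper49.LP.Nine
import Pool.Agent.Helper77.LomFinal

/-!
The link with the Lommel polynomials and the final theorem.
-/

namespace Pool.Agent.Helper49.LP

open Finset Pool.Agent.Helper77.Lom Pool.Agent.Helper77.LomDefs Polynomial

section link

variable {K : Type*} [Field K] {m : ℕ} {x : K}

/-- product of the factors of `T^s` -/
def Wp (m : ℕ) (x : K) (s : ℕ) : K := ∏ i ∈ range s, ((x + (i : K)) * (x + (m : K) - (i : K)))

theorem Tm_iter (f : ℕ → K) : ∀ n s, n ≤ s →
    Wp m x (s - n) * (Tm m x)^[n] f s = Wp m x s * f (s - n) := by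
  intro n
  induction n with
  | zero => intro s _; rfl
  | succ n ih =>
    intro s hs
    obtain ⟨s, rfl⟩ : ∃ t, s = t + 1 := ⟨s - 1, by omega⟩
    have h1 := ih s (by omega)
    rw [Function.iterate_succ_apply', Tm_succ, show s + 1 - (n + 1) = s - n by omega]
    have e1 : Wp m x (s + 1) = Wp m x s * ((x + (s : K)) * (x + (m : K) - (s : K))) := by
      rw [Wp, Finset.prod_range_succ]; rfl
    rw [e1]
    linear_combination ((x + (s : K)) * (x + (m : K) - (s : K))) * h1

theorem Wp_ne (hx : ∀ z : ℤ, x + (z : K) ≠ 0) (s : ℕ) : Wp m x s ≠ 0 := by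
  rw [Wp, Finset.prod_ne_zero_iff]
  intro i _
  have h2 : x + (i : K) ≠ 0 := by simpa using hx (i : ℤ)
  have h3 : x + (m : K) - (i : K) ≠ 0 := by
    have := hx ((m : ℤ) - (i : ℤ))
    push_cast at this
    rw [add_sub_assoc]
    exact this
  exact mul_ne_zero h2 h3

theorem prod_split (m : ℕ) (x : K) : ∀ j, 2 * j ≤ m + 1 →
    (∏ i ∈ range (m + 1 - 2 * j), (x + (j : K) + (i : K))) * Wp m x j
      = ∏ i ∈ range (m + 1), (x + (i : K)) := by
  intro j
  induction j with
  | zero =>
    intro _
    rw [Wp, Finset.prod_range_zero, mul_one]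
    apply Finset.prod_congr rfl
    intro i _
    simp
  | succ j ih =>
    intro hj
    rw [← ih (by omega)]
    obtain ⟨r, hr⟩ : ∃ r, m + 1 - 2 * j = r + 2 := ⟨m + 1 - 2 * j - 2, by omega⟩
    have hr2 : m + 1 - 2 * (j + 1) = r := by omega
    have hm : (m : K) = 2 * (j : K) + (r : K) + 1 := by
      have : m = 2 * j + r + 1 := by omega
      rw [this]; push_cast; ring
    have e1 : Wp m x (j + 1) = Wp m x j * ((x + (j : K)) * (x + (m : K) - (j : K))) := by
      rw [Wp, Finset.prod_range_succ]; rfl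
    rw [hr, hr2, e1, Finset.prod_range_succ', Finset.prod_range_succ, hm]
    have e2 : ∏ i ∈ range r, (x + ((j + 1 : ℕ) : K) + (i : K))
        = ∏ i ∈ range r, (x + (j : K) + ((i + 1 : ℕ) : K)) := by
      apply Finset.prod_congr rfl
      intro i _
      push_cast
      ring
    rw [e2]
    push_cast
    ring

end link

theorem nu_int_ne (z : ℤ) : nu + 1 + (z : F) ≠ 0 := by
  have h : nu + 1 + (z : F)
      = algebraMap (Polynomial ℚ) F (Polynomial.X + Polynomial.C ((z : ℚ) + 1)) := by
    rw [map_add, RatFunc.algebraMap_X, RatFunc.algebraMap_C]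
    unfold nu
    rw [map_add, map_intCast, map_one]
    ring
  rw [h]
  rw [Ne, FaithfulSMul.algebraMap_eq_zero_iff]
  exact Polynomial.X_add_C_ne_zero _

theorem lc_v (m j : ℕ) :
    lc (m + 1) j (nu + 1) * Wp m (nu + 1) j
      = (∏ i ∈ range (m + 1), (nu + 1 + (i : F))) * v (m + 1) 0 j := by
  by_cases h : 2 * j ≤ m + 1
  · rw [lc, if_pos h, ← prod_split m (nu + 1) j h, v, if_pos (by omega), Nat.sub_zero, Nat.sub_zero]
    ring
  · rw [lc, if_neg h, v_eq_zero (by omega)]
    ring

theorem lc_v' (m s : ℕ) :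
    (nu + 1 + (s : F)) * (lc m s (nu + 1 + 1) * Wp m (nu + 1) s)
      = (∏ i ∈ range (m + 1), (nu + 1 + (i : F))) * v m 0 s := by
  by_cases h : 2 * s ≤ m
  · rw [lc, if_pos h, ← prod_split m (nu + 1) s (by omega), v, if_pos (by omega), Nat.sub_zero,
      Nat.sub_zero, show m + 1 - 2 * s = m - 2 * s + 1 by omega, Finset.prod_range_succ']
    have e2 : ∏ i ∈ range (m - 2 * s), (nu + 1 + 1 + (s : F) + (i : F))
        = ∏ i ∈ range (m - 2 * s), (nu + 1 + (s : F) + ((i + 1 : ℕ) : F)) := by
      apply Finset.prod_congr rfl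
      intro i _
      push_cast
      ring
    rw [e2]
    push_cast
    ring
  · rw [lc, if_neg h, v_eq_zero (by omega)]
    ring

/-- the initial condition of the dynamics -/
theorem Fr_coeffC (m : ℕ) : Fr m (nu + 1) (coeffC m) 0
    = fun s : ℕ => (nu + 1 + (s : F))⁻¹ * v m 0 s := by
  funext n
  have hL : (∏ i ∈ range (m + 1), (nu + 1 + (i : F))) ≠ 0 := by
    rw [Finset.prod_ne_zero_iff]
    intro i _
    exact nu_add_ne i
  apply mul_left_cancel₀ hL
  have hn : nu + 1 + (n : F) ≠ 0 := nu_add_ne n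
  have h1 : (∏ i ∈ range (m + 1), (nu + 1 + (i : F))) * ((nu + 1 + (n : F))⁻¹ * v m 0 n)
      = lc m n (nu + 1 + 1) * Wp m (nu + 1) n := by
    have := lc_v' m n
    field_simp
    linear_combination -this
  rw [h1, ← lin_rec, Fr]
  simp only [lin, zero_add]
  rw [Finset.mul_sum, Finset.sum_mul, ← Finset.sum_range_reflect]
  apply Finset.sum_congr rfl
  intro j hj
  rw [mem_range] at hj
  rw [show n + 1 - 1 - j = n - j by omega]
  have h2 := Tm_iter (m := m) (x := nu + 1) (v (m + 1) 0) (n - j) n (by omega)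
  rw [show n - (n - j) = j by omega] at h2
  have h3 := lc_v m j
  have h4 := Wp_ne (m := m) nu_int_ne j
  apply mul_left_cancel₀ h4
  linear_combination ((∏ i ∈ range (m + 1), (nu + 1 + (i : F))) * coeffC m (n - j)) * h2
    - (Wp m (nu + 1) n * coeffC m (n - j)) * h3

theorem Aa_le_fexp {m n i : ℕ} (hi : i ≤ m) : Aa m n i ≤ fexp m n i := by
  by_cases h : 2 * i = m
  · have h1 : fexp m n i = 1 := by rw [fexp, if_pos h]
    rw [h1, Aa]
    simp only [if_pos h]
    split <;> omega
  · rw [fexp_eq hi h, Aa, if_neg h]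
    unfold mu hh
    split <;> split
    · omega
    · omega
    · exact le_rfl
    · omega

theorem cone_zero (n : ℕ) : Cone 0 (nu + 1) (fun _ => 1) (coeffC 0 n) := by
  have h := lin_rec 0 n
  rw [Finset.sum_range_succ', Finset.sum_eq_zero, zero_add, Nat.sub_zero] at h
  · have h1 : lc (0 + 1) 0 (nu + 1) = nu + 1 := by simp [lc]
    rw [h1] at h
    by_cases hn : n = 0
    · refine ⟨1, ?_⟩
      have h2 : lc 0 n (nu + 1 + 1) = 1 := by rw [hn]; simp [lc]
      rw [h2] at h
      simp only [zero_add, Finset.prod_range_one, Nat.cast_zero, add_zero, pow_one,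
        Polynomial.eval₂_one]
      rw [mul_comm]; exact h
    · have h2 : lc 0 n (nu + 1 + 1) = 0 := by rw [lc, if_neg (by omega)]
      rw [h2] at h
      have h3 : nu + 1 ≠ 0 := by simpa using nu_add_ne 0
      rw [(mul_eq_zero.mp h).resolve_left h3]
      exact Cone.zero _
  · intro j _
    have : lc (0 + 1) (j + 1) (nu + 1) = 0 := by rw [lc, if_neg (by omega)]
    rw [this, zero_mul]

/-- the exponents of the problem -/
theorem cone_fexp (m n : ℕ) : Cone m (nu + 1) (fexp m n) (coeffC m n) := by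
  by_cases hm : 2 ≤ m
  · exact (coeff_cone nu_int_ne hm (Fr_coeffC m) n).mono (fun i hi => Aa_le_fexp hi)
  · by_cases h0 : m = 0
    · subst h0
      refine (cone_zero n).mono ?_
      intro i hi
      have : i = 0 := by omega
      subst this
      rw [fexp, if_pos (by omega)]
    · have h1 : m = 1 := by omega
      subst h1
      have hcone := O_cone (m := 1) nu_add_ne
        (0 + (List.replicate n 1).sum + (List.replicate n 1).length)
        0 (List.replicate n 1) le_rfl (Nat.zero_le _) (by
          intro j hj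
          rw [List.mem_replicate] at hj
          omega)
      rw [← coeffC_eq] at hcone
      refine hcone.mono ?_
      intro i hi
      rw [cnt_replicate (one_le_mu 1 i), Nat.sub_zero, fexp_eq hi (by omega)]

theorem full (m n : ℕ) :
    ∃ p : ℕ[X], numN m n = algebraMap ℚ[X] F (p.map (Nat.castRingHom ℚ)) := by
  obtain ⟨P, hP⟩ := cone_fexp m n
  refine ⟨P.comp (X + 1), ?_⟩
  rw [phi_eval] at hP
  rw [numN, denD, mul_comm, hP, phi_apply, Polynomial.map_map]
  congr 2

end Pool.Agent.Helper49.LP
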