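import Pool.Agent.Helper49.LP.Two

/-!
Cone bounds in the regime without walls.
-/

namespace Pool.Agent.Helper49.LP

open Finset Pool.Agent.Helper77.Lom

section cone

variable {K : Type*} [Field K] {m : ℕ} {x : K}

theorem Cone.natMul {e : ℕ → ℕ} {g : K} (n : ℕ) (h : Cone m x e g) : Cone m x e ((n : K) * g) := by
  obtain ⟨p, hp⟩ := h
  refine ⟨Polynomial.C n * p, ?_⟩
  rw [Polynomial.eval₂_mul, ← hp, Polynomial.eval₂_C]
  simp only [Nat.coe_castRingHom]
  ring

theorem Cone.natOne (e : ℕ → ℕ) : Cone m x e (1 : K) :=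
  Cone.one.mono (fun _ _ => Nat.zero_le _)

/-- division by `x + q` with given exponents -/
theorem Cone.div' {e : ℕ → ℕ} {g : K} {q : ℕ} (hq : q ≤ m)
    (h : Cone m x (fun i => e i - dl i q) ((x + (q : K)) * g)) (he : 1 ≤ e q) :
    Cone m x e g := by
  refine (Cone.div hq h).mono ?_
  intro i _
  unfold dl
  by_cases hi : i = q
  · subst hi
    rw [if_pos rfl]; omega
  · rw [if_neg hi]; omega

theorem Pf.zero (s0 : ℕ) (E : ℕ → ℕ → ℕ) (j : ℕ) : Pf m x s0 E j (0 : K) :=
  ⟨fun _ => rfl, fun _ => Cone.zero _⟩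

theorem Pf.add {s0 : ℕ} {E : ℕ → ℕ → ℕ} {j : ℕ} {a b : K} (ha : Pf m x s0 E j a)
    (hb : Pf m x s0 E j b) : Pf m x s0 E j (a + b) :=
  ⟨fun h => by rw [ha.1 h, hb.1 h, add_zero], fun h => (ha.2 h).add (hb.2 h)⟩

theorem Pf.natMul {s0 : ℕ} {E : ℕ → ℕ → ℕ} {j : ℕ} {a : K} (n : ℕ) (ha : Pf m x s0 E j a) :
    Pf m x s0 E j ((n : K) * a) :=
  ⟨fun h => by rw [ha.1 h, mul_zero], fun h => Cone.natMul n (ha.2 h)⟩

theorem Pf.coneMul {s0 : ℕ} {E : ℕ → ℕ → ℕ} {e : ℕ → ℕ} {j : ℕ} {a c : K} (hc : Cone m x e c)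
    (ha : Pf m x s0 E j a) : Pf m x s0 (fun j i => e i + E j i) j (c * a) :=
  ⟨fun h => by rw [ha.1 h, mul_zero], fun h => hc.mul (ha.2 h)⟩

theorem Pf.mono {s0 s1 : ℕ} {E E' : ℕ → ℕ → ℕ} {j : ℕ} {a : K} (hs : s1 ≤ s0)
    (hE : s0 ≤ j → ∀ i ≤ m, E j i ≤ E' j i) (ha : Pf m x s0 E j a) : Pf m x s1 E' j a := by
  refine ⟨fun h => ha.1 (by omega), fun h => ?_⟩
  by_cases h0 : s0 ≤ j
  · exact (ha.2 h0).mono (hE h0)
  · rw [ha.1 (by omega)]
    exact Cone.zero _

theorem Ex.mono {g N s0 s1 : ℕ} {E E' : ℕ → ℕ → ℕ} {f : ℕ → K} (hs : s1 ≤ s0)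
    (hE : ∀ j, s0 ≤ j → 2 * j ≤ N → ∀ i ≤ m, E j i ≤ E' j i)
    (h : Ex m x g N (Pf m x s0 E) f) : Ex m x g N (Pf m x s1 E') f := by
  obtain ⟨a, ha, hc⟩ := h
  exact ⟨a, ha, fun j hj => (hc j hj).mono hs (fun h0 => hE j h0 hj)⟩

theorem Ex.zero (g N s0 : ℕ) (E : ℕ → ℕ → ℕ) : Ex m x g N (Pf m x s0 E) (0 : ℕ → K) :=
  ⟨fun _ => 0, (lin_zero _).symm, fun j _ => Pf.zero s0 E j⟩

theorem Ex.add {g N s0 : ℕ} {E : ℕ → ℕ → ℕ} {f h : ℕ → K} (hf : Ex m x g N (Pf m x s0 E) f)
    (hh : Ex m x g N (Pf m x s0 E) h) : Ex m x g N (Pf m x s0 E) (f + h) := by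
  obtain ⟨a, ha, hc⟩ := hf
  obtain ⟨b, hb, hd⟩ := hh
  exact ⟨fun i => a i + b i, by rw [ha, hb, lin_add], fun j hj => (hc j hj).add (hd j hj)⟩

theorem Ex.sum {ι : Type*} {g N s0 : ℕ} {E : ℕ → ℕ → ℕ} (s : Finset ι) (f : ι → ℕ → K)
    (hf : ∀ i ∈ s, Ex m x g N (Pf m x s0 E) (f i)) : Ex m x g N (Pf m x s0 E) (∑ i ∈ s, f i) := by
  classical
  induction s using Finset.induction_on with
  | empty => simpa using Ex.zero g N s0 E
  | insert b s hb ih =>
    rw [Finset.sum_insert hb]
    exact (hf b (by simp)).add (ih (fun i hi => hf i (by simp [hi])))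

theorem Ex.natMul {g N s0 : ℕ} {E : ℕ → ℕ → ℕ} {f : ℕ → K} (n : ℕ)
    (hf : Ex m x g N (Pf m x s0 E) f) : Ex m x g N (Pf m x s0 E) ((n : K) • f) := by
  obtain ⟨a, ha, hc⟩ := hf
  exact ⟨fun i => (n : K) * a i, by rw [ha, lin_smul], fun j hj => (hc j hj).natMul n⟩

theorem Ex.coneMul {g N s0 : ℕ} {E : ℕ → ℕ → ℕ} {e : ℕ → ℕ} {f : ℕ → K} {c : K}
    (hc : Cone m x e c) (hf : Ex m x g N (Pf m x s0 E) f) :
    Ex m x g N (Pf m x s0 (fun j i => e i + E j i)) (c • f) := by
  obtain ⟨a, ha, hd⟩ := hf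
  exact ⟨fun i => c * a i, by rw [ha, lin_smul], fun j hj => (hd j hj).coneMul hc⟩

/-- shift of expansions with profile -/
theorem Ex.shift {g N s0 : ℕ} {E : ℕ → ℕ → ℕ} {f : ℕ → K}
    (hf : Ex m x (g - 1) N (Pf m x s0 E) f) :
    Ex m x g (N + 2) (Pf m x (s0 + 1) (fun j => E (j - 1))) (Tm m x f) := by
  obtain ⟨a, ha, hc⟩ := hf
  refine ⟨sh a, by rw [ha, lin_shift], ?_⟩
  intro j hj
  cases j with
  | zero => exact ⟨fun _ => rfl, fun h => by omega⟩
  | succ j =>
    have := hc j (by omega)
    refine ⟨fun h => this.1 (by omega), fun h => ?_⟩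
    exact this.2 (by omega)

end cone

section regime

variable {K : Type*} [Field K] {m : ℕ} {x : K} {N0 : ℕ} {lam : ℕ → ℕ → K}

theorem Ex.res (hl : Lm m x N0 lam) (hx : ∀ z : ℤ, x + (z : K) ≠ 0) {N : ℕ} (hN : N ≤ N0)
    (t s0 : ℕ) (E E' : ℕ → ℕ → ℕ)
    (hE : ∀ j, s0 ≤ j → 2 * j ≤ N → ∀ i ≤ m, E j i + dl i (t + j) ≤ E' j i)
    (hE2 : ∀ j' j, s0 ≤ j' → j' < j → 2 * j ≤ N → ∀ i ≤ m,
      E' j' i + eps m (j - j') i + dl i (t + j) ≤ E' j i)
    (htm : ∀ j, s0 ≤ j → 2 * j ≤ N → t + j ≤ m) {f : ℕ → K}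
    (hf : Ex m x 0 N (Pf m x s0 E) f) :
    Ex m x 0 N (Pf m x s0 E') ((fun s : ℕ => (x + (t : K) + (s : K))⁻¹) * f) := by
  obtain ⟨a, rfl, hc⟩ := hf
  obtain ⟨b, hb1, hb2⟩ := res_exists hl hN hx t a
  refine ⟨b, hb1, ?_⟩
  intro j
  induction j using Nat.strong_induction_on with
  | _ j ih =>
  intro hj
  have hne : x + (t : K) + (j : K) ≠ 0 := by
    have := hx ((t : ℤ) + (j : ℤ))
    push_cast at this
    rwa [← add_assoc] at this
  constructor
  · intro h
    have h1 := hb2 j
    rw [(hc j hj).1 h, zero_add, Finset.sum_eq_zero] at h1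
    · exact (mul_eq_zero.mp h1).resolve_left hne
    · intro i hi
      rw [mem_range] at hi
      rw [(ih i hi (by omega)).1 (by omega), zero_mul]
  · intro h
    refine Cone.div' (q := t + j) (htm j h hj) ?_ ?_
    · have e1 : (x + ((t + j : ℕ) : K)) * b j
          = a j + ∑ i ∈ range j, b i * lam (N - 2 * i) (j - i) := by
        rw [← hb2 j]; push_cast; ring
      rw [e1]
      refine Cone.add ?_ (Cone.sum ?_)
      · refine ((hc j hj).2 h).mono ?_
        intro i hi
        have := hE j h hj i hi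
        omega
      · intro i hi
        rw [mem_range] at hi
        by_cases h2 : s0 ≤ i
        · have h3 := (ih i hi (by omega)).2 h2
          have h4 := hl.c (N - 2 * i) (by omega) (j - i) (by omega)
          refine (h3.mul h4).mono ?_
          intro q hq
          have := hE2 i j h2 hi hj q hq
          omega
        · rw [(ih i hi (by omega)).1 (by omega), zero_mul]
          exact Cone.zero _
    · have := hE j h hj (t + j) (htm j h hj)
      unfold dl at this
      rw [if_pos rfl] at this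
      omega

/-- coordinates of the inverse of `(x + θ)(x + m - θ)` -/
theorem vinv_pf (hl : Lm m x N0 lam) (hx : ∀ z : ℤ, x + (z : K) ≠ 0) {N : ℕ} (hN : N ≤ N0)
    (hNm : N < m) (s0 : ℕ) (E E' : ℕ → ℕ → ℕ)
    (hE : ∀ j, s0 ≤ j → 2 * j ≤ N → ∀ i ≤ m, E j i + dl i j + dl i (m - j) ≤ E' j i)
    (hE2 : ∀ j' j, s0 ≤ j' → j' < j → 2 * j ≤ N → ∀ i ≤ m,
      E' j' i + eps m (j - j') i + dl i j + dl i (m - j) ≤ E' j i)
    {a b : ℕ → K} (ha : ∀ j, 2 * j ≤ N → Pf m x s0 E j (a j))
    (hb : ∀ j : ℕ, (x + (j : K)) * ((x + (m : K) - (j : K)) * b j)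
        = a j + ∑ i ∈ range j, (((m : K) - (i : K) - (j : K)) * b i
            + ∑ i' ∈ range i, b i' * lam (N - 2 * i') (i - i')) * lam (N - 2 * i) (j - i)) :
    (∀ j, 2 * j ≤ N → Pf m x s0 E' j (b j)) ∧
    (∀ j, 2 * j ≤ N → Pf m x s0 E' j (∑ i' ∈ range j, b i' * lam (N - 2 * i') (j - i'))) := by
  -- the inner sums
  have hin : ∀ j, 2 * j ≤ N → (∀ i < j, Pf m x s0 E' i (b i)) →
      Pf m x s0 E' j (∑ i' ∈ range j, b i' * lam (N - 2 * i') (j - i')) := by
    intro j hj ih
    constructor
    · intro h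
      apply Finset.sum_eq_zero
      intro i hi
      rw [mem_range] at hi
      rw [(ih i hi).1 (by omega), zero_mul]
    · intro h
      apply Cone.sum
      intro i hi
      rw [mem_range] at hi
      by_cases h2 : s0 ≤ i
      · have h3 := (ih i hi).2 h2
        have h4 := hl.c (N - 2 * i) (by omega) (j - i) (by omega)
        refine (h3.mul h4).mono ?_
        intro q hq
        have := hE2 i j h2 hi hj q hq
        omega
      · rw [(ih i hi).1 (by omega), zero_mul]
        exact Cone.zero _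
  have main : ∀ j, 2 * j ≤ N → Pf m x s0 E' j (b j) := by
    intro j
    induction j using Nat.strong_induction_on with
    | _ j ih =>
    intro hj
    have hne1 : x + (j : K) ≠ 0 := by simpa using hx (j : ℤ)
    have hne2 : x + (m : K) - (j : K) ≠ 0 := by
      have := hx ((m : ℤ) - (j : ℤ))
      push_cast at this
      rwa [← add_sub_assoc] at this
    constructor
    · intro h
      have h1 := hb j
      rw [(ha j hj).1 h, zero_add, Finset.sum_eq_zero] at h1
      · exact (mul_eq_zero.mp ((mul_eq_zero.mp h1).resolve_left hne1)).resolve_left hne2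
      · intro i hi
        rw [mem_range] at hi
        rw [(ih i hi (by omega)).1 (by omega),
          (hin i (by omega) (fun i' hi' => ih i' (by omega) (by omega))).1 (by omega)]
        ring
    · intro h
      have hjm : j ≤ m := by omega
      have hdd : j ≠ m - j := by omega
      have hEj := fun i hi => hE j h hj i hi
      refine Cone.div' (q := m - j) (by omega) ?_ ?_
      · refine Cone.div' (q := j) hjm ?_ ?_
        · have e1 : (x + (j : K)) * ((x + ((m - j : ℕ) : K)) * b j)
              = (x + (j : K)) * ((x + (m : K) - (j : K)) * b j) := by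
            rw [Nat.cast_sub hjm]; ring
          rw [e1, hb j]
          refine Cone.add ?_ (Cone.sum ?_)
          · refine ((ha j hj).2 h).mono ?_
            intro i hi
            have := hEj i hi
            omega
          · intro i hi
            rw [mem_range] at hi
            by_cases h2 : s0 ≤ i
            · have h3 := (ih i hi (by omega)).2 h2
              have h5 := (hin i (by omega) (fun i' hi' => ih i' (by omega) (by omega))).2 h2
              have h4 := hl.c (N - 2 * i) (by omega) (j - i) (by omega)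
              have e2 : ((m : K) - (i : K) - (j : K)) = ((m - i - j : ℕ) : K) := by
                rw [Nat.cast_sub (by omega), Nat.cast_sub (by omega)]
              rw [e2]
              refine (((Cone.natMul _ h3).add h5).mul h4).mono ?_
              intro q hq
              have := hE2 i j h2 hi hj q hq
              omega
            · rw [(ih i hi (by omega)).1 (by omega),
                (hin i (by omega) (fun i' hi' => ih i' (by omega) (by omega))).1 (by omega)]
              have : (((m : K) - (i : K) - (j : K)) * 0 + 0) * lam (N - 2 * i) (j - i) = 0 := by ring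
              rw [this]
              exact Cone.zero _
        · have := hEj j hjm
          unfold dl at this ⊢
          rw [if_pos rfl] at this
          rw [if_neg hdd] at this ⊢
          omega
      · have := hEj (m - j) (by omega)
        unfold dl at this
        rw [if_pos rfl] at this
        omega
  exact ⟨main, fun j hj => hin j hj (fun i hi => main i (by omega))⟩

theorem U_eq (hx : ∀ z : ℤ, x + (z : K) ≠ 0) (f : ℕ → K) :
    U f = Tm m x ((fun s : ℕ => ((x + (s : K)) * (x + (m : K) - (s : K)))⁻¹) * f) := by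
  funext s
  cases s with
  | zero => rfl
  | succ s =>
    have hne1 : x + (s : K) ≠ 0 := by simpa using hx (s : ℤ)
    have hne2 : x + (m : K) - (s : K) ≠ 0 := by
      have := hx ((m : ℤ) - (s : ℤ))
      push_cast at this
      rwa [← add_sub_assoc] at this
    rw [U_succ, Tm_succ, Pi.mul_apply, ← mul_assoc, mul_inv_cancel₀ (mul_ne_zero hne1 hne2),
      one_mul]

theorem Ex.U (hl : Lm m x N0 lam) (hx : ∀ z : ℤ, x + (z : K) ≠ 0) {N : ℕ} (hN : N ≤ N0)
    (hNm : N < m) (s0 : ℕ) (E E' : ℕ → ℕ → ℕ)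
    (hE : ∀ j, s0 ≤ j → 2 * j ≤ N → ∀ i ≤ m, E j i + dl i j + dl i (m - j) ≤ E' j i)
    (hE2 : ∀ j' j, s0 ≤ j' → j' < j → 2 * j ≤ N → ∀ i ≤ m,
      E' j' i + eps m (j - j') i + dl i j + dl i (m - j) ≤ E' j i) {f : ℕ → K}
    (hf : Ex m x 0 N (Pf m x s0 E) f) :
    Ex m x 0 (N + 2) (Pf m x (s0 + 1) (fun j => E' (j - 1))) (U f) := by
  obtain ⟨a, rfl, hc⟩ := hf
  obtain ⟨b, hb1, hb2⟩ := vinv_exists hl hN hx a
  rw [U_eq hx, hb1]
  exact Ex.shift (g := 0) ⟨b, rfl, (vinv_pf hl hx hN hNm s0 E E' hE hE2 hc hb2).1⟩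

/-- the trivial expansion of `v N 0` -/
theorem v_zero_coord (N : ℕ) : (v N 0 : ℕ → K) = lin (eb m x 0 N) (fun i => if i = 0 then 1 else 0) := by
  funext r
  simp only [lin]
  rw [Finset.sum_range_succ', Finset.sum_eq_zero]
  · simp [eb_zero_zero]
  · intro k _
    rw [if_neg (by omega)]
    simp

theorem v_zero_pf (N : ℕ) (j : ℕ) :
    Pf m x 0 (tau m 0) j ((fun i => if i = 0 then (1 : K) else 0) j) := by
  refine ⟨fun h => by omega, fun _ => ?_⟩
  by_cases hj : j = 0
  · simp only [if_pos hj]; exact Cone.natOne _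
  · simp only [if_neg hj]; exact Cone.zero _

theorem step_hE {m k : ℕ} {N : ℕ} (hNm : N < m) :
    ∀ j, k ≤ j → 2 * j ≤ N → ∀ i ≤ m,
      tau m k j i + dl i j + dl i (m - j) ≤ (fun j => tau m (k + 1) (j + 1)) j i := by
  intro j hj hjN i hi
  have h1 := dl_sum hi (show 2 * j < m by omega)
  have h2 := tau_step (m := m) (i := i) hj
  simp only
  omega

theorem step_hE2 {m k : ℕ} {N : ℕ} (hNm : N < m) :
    ∀ j' j, k ≤ j' → j' < j → 2 * j ≤ N → ∀ i ≤ m,
      (fun j => tau m (k + 1) (j + 1)) j' i + eps m (j - j') i + dl i j + dl i (m - j)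
        ≤ (fun j => tau m (k + 1) (j + 1)) j i := by
  intro j' j hj' hj hjN i hi
  have h1 := dl_sum hi (show 2 * j < m by omega)
  have h2 := tau_step2 (m := m) (i := i) hj' hj
  simp only
  omega

/-- existence of the structure constants -/
theorem exists_lam (hx : ∀ z : ℤ, x + (z : K) ≠ 0) : ∀ N0, N0 ≤ m + 1 →
    ∃ lam : ℕ → ℕ → K, Lm m x N0 lam := by
  intro N0
  induction N0 with
  | zero =>
    intro _
    refine ⟨fun _ _ => 0, fun _ _ => rfl, ?_, fun _ _ _ _ => Cone.zero _⟩
    intro N hN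
    rw [lin_zero]
    funext s
    cases s with
    | zero => simp
    | succ s => simp [v_small (K := K) (show N ≤ 1 by omega) (show 1 ≤ s + 1 by omega)]
  | succ N0 ih =>
    intro hm
    obtain ⟨lam, hl⟩ := ih (by omega)
    by_cases h2 : 1 ≤ N0
    · obtain ⟨N, rfl⟩ : ∃ N, N0 = N + 1 := ⟨N0 - 1, by omega⟩
      obtain ⟨b, hb1, hb2⟩ := vinv_exists hl (show N ≤ N + 1 by omega) hx
        (fun i => if i = 0 then 1 else 0)
      rw [← v_zero_coord] at hb1
      have hpf := vinv_pf hl hx (show N ≤ N + 1 by omega) (show N < m by omega) 0 (tau m 0)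
        (fun j => tau m 1 (j + 1)) (step_hE (by omega)) (step_hE2 (by omega))
        (fun j _ => v_zero_pf N j) hb2
      -- the new sequence
      set new : ℕ → K := sh (fun j => ((N : K) + 1 - (j : K)) * b j
        + ∑ i ∈ range j, b i * lam (N - 2 * i) (j - i)) with hnew
      have hexp : (fun s : ℕ => -(s : K)) * v (N + 2) 0 = lin (eb m x 0 (N + 2)) new := by
        have e1 : (fun s : ℕ => -(s : K)) * v (N + 2) 0
            = Tm m x ((fun s : ℕ => ((N : K) + 1) - (s : K)) * lin (eb m x 0 N) b) := by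
          have e2 : (v (N + 2) 1 : ℕ → K) = Tm m x (lin (eb m x 0 N) b) := by
            rw [← hb1, ← U_eq hx, U_v]
          have e3 : (fun s : ℕ => -(s : K)) * v (N + 2) 0
              = (fun s : ℕ => ((N : K) + 2) - (s : K)) * v (N + 2) 1 := by
            funext s
            have := v_rel (K := K) (N + 2) 0 s
            push_cast at this
            simp only [Pi.mul_apply]
            linear_combination this
          rw [e3, e2]
          funext s
          cases s with
          | zero => simp [Tm]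
          | succ s =>
            simp only [Pi.mul_apply, Tm]
            push_cast
            ring
        rw [e1, sub_theta_lin hl (by omega), hnew]
        exact lin_shift 0 N _
      refine ⟨Function.update lam (N + 2) new, ?_, ?_, ?_⟩
      · intro N' hN'
        by_cases h : N' = N + 2
        · subst h
          rw [Function.update_self]; rfl
        · rw [Function.update_of_ne h]
          exact hl.z N' (by omega)
      · intro N' hN'
        by_cases h : N' = N + 2
        · subst h
          rw [Function.update_self, hexp]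
        · rw [Function.update_of_ne h]
          exact hl.e N' (by omega)
      · intro N' hN' j hj
        by_cases h : N' = N + 2
        · subst h
          rw [Function.update_self, hnew]
          cases j with
          | zero => exact Cone.zero _
          | succ j =>
            have h3 := (hpf.1 j (by omega)).2 (Nat.zero_le _)
            have h4 := (hpf.2 j (by omega)).2 (Nat.zero_le _)
            have e5 : ((N : K) + 1 - (j : K)) = ((N + 1 - j : ℕ) : K) := by
              rw [Nat.cast_sub (by omega)]; push_cast; ring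
            simp only [sh]
            rw [e5]
            refine ((Cone.natMul _ h3).add h4).mono ?_
            intro i _
            exact tau_le_eps (by omega) i
        · rw [Function.update_of_ne h]
          exact hl.c N' (by omega) j hj
    · have h0 : N0 = 0 := by omega
      subst h0
      refine ⟨fun _ _ => 0, fun _ _ => rfl, ?_, fun _ _ _ _ => Cone.zero _⟩
      intro N hN
      rw [lin_zero]
      funext s
      cases s with
      | zero => simp
      | succ s => simp [v_small (K := K) (show N ≤ 1 by omega) (show 1 ≤ s + 1 by omega)]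

/-- expansions of `u^k P_{N-2k}` -/
theorem Ex.v (hl : Lm m x (m + 1) lam) (hx : ∀ z : ℤ, x + (z : K) ≠ 0) :
    ∀ (k N : ℕ), N ≤ m + 1 → Ex m x 0 N (Pf m x k (tau m k)) (v N k) := by
  intro k
  induction k with
  | zero =>
    intro N _
    exact ⟨_, v_zero_coord N, fun j _ => v_zero_pf N j⟩
  | succ k ih =>
    intro N hN
    by_cases h2 : 2 ≤ N
    · obtain ⟨N, rfl⟩ : ∃ M, N = M + 2 := ⟨N - 2, by omega⟩
      rw [← U_v]
      have := Ex.U hl hx (show N ≤ m + 1 by omega) (show N < m by omega) k (tau m k)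
        (fun j => tau m (k + 1) (j + 1)) (step_hE (by omega)) (step_hE2 (by omega)) (ih N (by omega))
      refine this.mono le_rfl ?_
      intro j hj _ i _
      rw [show j - 1 + 1 = j by omega]
    · have : (LP.v N (k + 1) : ℕ → K) = 0 := by
        funext s
        exact v_eq_zero (by omega)
      rw [this]
      exact Ex.zero _ _ _ _

end regime

end Pool.Agent.Helper49.LP
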