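import Pool.Agent.Helper49.LP.Base
import Pool.Agent.Helper49.LP.Num
import Pool.Agent.Helper77.LomCone

/-!
The families of polynomials, their triangular bases, and the regime without walls.
-/

namespace Pool.Agent.Helper49.LP

open Finset Pool.Agent.Helper77.Lom

section defs

variable {K : Type*} [Field K]

/-- rising factorial -/
def pch (a : K) (k : ℕ) : K := ∏ i ∈ range k, (a + (i : K))

/-- falling factorial -/
def ffk (t : K) (k : ℕ) : K := ∏ i ∈ range k, (t - (i : K))

/-- the polynomials of the families, as coefficient sequences -/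
def Gf (m : ℕ) (x : K) (g a N : ℕ) : ℕ → K := fun s =>
  ∑ k ∈ range (g / 2 + 1), ((Nat.multichoose a k : ℕ) : K) /
    pch (x + (m : K) - (g : K) + 1) k * ffk ((g : K) - (s : K)) k * v N k s

/-- triangular bases -/
def eb (m : ℕ) (x : K) : ℕ → ℕ → ℕ → (ℕ → K)
  | g, N, 0 => Gf m x g (m + 1 - N) N
  | g, N, (j + 1) => if 2 ≤ N then Tm m x (eb m x (g - 1) (N - 2) j) else 0

/-- profile -/
def Pf (m : ℕ) (x : K) (s0 : ℕ) (E : ℕ → ℕ → ℕ) : ℕ → K → Prop := fun j c =>
  (j < s0 → c = 0) ∧ (s0 ≤ j → Cone m x (E j) c)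

/-- expansions with a profile -/
def Ex (m : ℕ) (x : K) (g N : ℕ) (C : ℕ → K → Prop) (f : ℕ → K) : Prop :=
  ∃ a : ℕ → K, f = lin (eb m x g N) a ∧ ∀ j, 2 * j ≤ N → C j (a j)

/-- the structure constants of `θ` -/
structure Lm (m : ℕ) (x : K) (N0 : ℕ) (lam : ℕ → ℕ → K) : Prop where
  z : ∀ N, N ≤ N0 → lam N 0 = 0
  e : ∀ N, N ≤ N0 → (fun s : ℕ => -(s : K)) * v N 0 = lin (eb m x 0 N) (lam N)
  c : ∀ N, N ≤ N0 → ∀ j, 2 * j ≤ N → Cone m x (eps m j) (lam N j)

end defs

section base

variable {K : Type*} [Field K] {m : ℕ} {x : K}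

theorem Gf_small {g : ℕ} (hg : g ≤ 1) (a N : ℕ) : Gf m x g a N = v N 0 := by
  funext s
  have : g / 2 = 0 := by omega
  simp [Gf, this, pch, ffk, Nat.multichoose_zero_right]

theorem Gf_a_zero (g N : ℕ) : Gf m x g 0 N = v N 0 := by
  funext s
  rw [Gf, Finset.sum_range_succ', Finset.sum_eq_zero]
  · simp [pch, ffk, Nat.multichoose_zero_right]
  · intro k _
    rw [Nat.multichoose_zero_succ]
    simp

theorem Gf_coeff_zero (g a N : ℕ) : Gf m x g a N 0 = 1 := by
  rw [Gf, Finset.sum_range_succ', Finset.sum_eq_zero]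
  · simp [pch, ffk, Nat.multichoose_zero_right, v_zero_zero]
  · intro k _
    rw [v_eq_zero (by omega)]
    simp

theorem eb_zero (g N : ℕ) : eb m x g N 0 = Gf m x g (m + 1 - N) N := by rw [eb]

theorem eb_succ {g N j : ℕ} (hN : 2 ≤ N) :
    eb m x g N (j + 1) = Tm m x (eb m x (g - 1) (N - 2) j) := by
  rw [eb, if_pos hN]

theorem eb_succ' (g N j : ℕ) :
    eb m x g (N + 2) (j + 1) = Tm m x (eb m x (g - 1) N j) := by
  rw [eb_succ (by omega)]; rfl

theorem eb_tri : ∀ (g N : ℕ), Tri (eb m x g N) := by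
  have : ∀ (i g N r : ℕ), r < i → eb m x g N i r = 0 := by
    intro i
    induction i with
    | zero => intro _ _ r hr; omega
    | succ i ih =>
      intro g N r hr
      rw [eb]
      split
      · cases r with
        | zero => rfl
        | succ r =>
          rw [Tm_succ, ih _ _ _ (by omega), mul_zero]
      · rfl
  intro g N i r hr
  exact this i g N r hr

theorem eb_vanish : ∀ (j g N : ℕ), N < 2 * j → eb m x g N j = 0 := by
  intro j
  induction j with
  | zero => intro _ _ h; omega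
  | succ j ih =>
    intro g N h
    by_cases hN : 2 ≤ N
    · rw [eb_succ hN, ih _ _ (by omega)]
      exact Tm_zero_fun
    · rw [eb, if_neg hN]

theorem eb_wall : ∀ (j g N : ℕ), g ≤ j + 1 → eb m x g N j = eb m x 0 N j := by
  intro j
  induction j with
  | zero =>
    intro g N h
    rw [eb_zero, eb_zero, Gf_small h, Gf_small (by omega)]
  | succ j ih =>
    intro g N h
    by_cases hN : 2 ≤ N
    · rw [eb_succ hN, eb_succ hN, ih (g - 1) (N - 2) (by omega)]
    · rw [eb, eb, if_neg hN, if_neg hN]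

theorem eb_zero_zero (N : ℕ) : eb m x 0 N 0 = v N 0 := by rw [eb_zero, Gf_small (by omega)]

/-- shift of expansions -/
theorem lin_shift (g N : ℕ) (a : ℕ → K) :
    Tm m x (lin (eb m x (g - 1) N) a) = lin (eb m x g (N + 2)) (sh a) := by
  rw [lin_Tm (eb_tri _ _), ← lin_sh (eb_tri _ _)]
  apply lin_congr
  intro i r _
  rw [eb_succ']

/-- only the coordinates `2 j ≤ N` matter -/
theorem lin_congr_le {g N : ℕ} {a b : ℕ → K} (h : ∀ j, 2 * j ≤ N → a j = b j) :
    lin (eb m x g N) a = lin (eb m x g N) b := by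
  apply lin_congr
  intro i r _
  by_cases hi : 2 * i ≤ N
  · rw [h i hi]
  · rw [eb_vanish i g N (by omega)]
    simp

end base

section theta

variable {K : Type*} [Field K] {m : ℕ} {x : K} {N0 : ℕ} {lam : ℕ → ℕ → K}

theorem theta_eb (hl : Lm m x N0 lam) : ∀ (j N : ℕ), N ≤ N0 →
    (fun s : ℕ => (s : K)) * eb m x 0 N j
      = lin (fun i => eb m x 0 N (j + i)) (fun i => if i = 0 then (j : K) else - lam (N - 2 * j) i) := by
  intro j
  induction j with
  | zero =>
    intro N hN
    have h1 := hl.e N hN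
    have h2 : (fun s : ℕ => (s : K)) * eb m x 0 N 0 = (-1 : K) • ((fun s : ℕ => -(s : K)) * v N 0) := by
      rw [eb_zero_zero]
      funext s
      simp
    rw [h2, h1, lin_smul]
    apply lin_congr
    intro i r _
    rw [Nat.zero_add, Nat.mul_zero, Nat.sub_zero]
    by_cases hi : i = 0
    · rw [if_pos hi, hi, hl.z N hN]; simp
    · rw [if_neg hi]; ring
  | succ j ih =>
    intro N hN
    by_cases h2 : 2 ≤ N
    · obtain ⟨N, rfl⟩ : ∃ M, N = M + 2 := ⟨N - 2, by omega⟩
      rw [eb_succ', theta_Tm]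
      have h1 : (fun s : ℕ => ((s : K) + 1) * eb m x (0 - 1) N j s)
          = (fun s : ℕ => (s : K)) * eb m x 0 N j
            + lin (fun i => eb m x 0 N (j + i)) (fun i => if i = 0 then 1 else 0) := by
        funext s
        simp only [Pi.add_apply, Pi.mul_apply, Nat.zero_sub]
        have : lin (fun i => eb m x 0 N (j + i)) (fun i => if i = 0 then 1 else 0) s
            = eb m x 0 N j s := by
          simp only [lin]
          rw [Finset.sum_range_succ', Finset.sum_eq_zero]
          · simp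
          · intro k _
            rw [if_neg (by omega)]
            simp
        rw [this]; ring
      rw [h1, ih N (by omega), lin_add, lin_Tm]
      · apply lin_congr
        intro i r _
        rw [show j + 1 + i = (j + i) + 1 by ring, eb_succ',
          show N + 2 - 2 * (j + 1) = N - 2 * j by omega, Nat.zero_sub]
        congr 1
        by_cases hi : i = 0
        · rw [if_pos hi, if_pos hi, if_pos hi]; push_cast; ring
        · rw [if_neg hi, if_neg hi, if_neg hi]; ring
      · intro i r hr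
        exact eb_tri 0 N (j + i) r (by omega)
    · rw [eb, if_neg h2, mul_zero]
      symm
      funext r
      simp only [lin, Pi.zero_apply]
      apply Finset.sum_eq_zero
      intro i _
      rw [eb_vanish (j + 1 + i) 0 N (by omega)]
      simp

/-- `θ` in coordinates -/
theorem theta_lin (hl : Lm m x N0 lam) {N : ℕ} (hN : N ≤ N0) (a : ℕ → K) :
    (fun s : ℕ => (s : K)) * lin (eb m x 0 N) a
      = lin (eb m x 0 N) (fun n => (n : K) * a n - ∑ i ∈ range n, a i * lam (N - 2 * i) (n - i)) := by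
  rw [lin_mul, lin_comp (eb_tri 0 N) (fun i => theta_eb hl i N hN)]
  apply lin_congr
  intro n r _
  congr 1
  rw [Finset.sum_range_succ, Nat.sub_self, if_pos rfl, sub_eq_add_neg, add_comm, mul_comm (a n)]
  congr 1
  rw [← Finset.sum_neg_distrib]
  apply Finset.sum_congr rfl
  intro i hi
  rw [mem_range] at hi
  rw [if_neg (by omega)]
  ring

/-- `(t + θ)` in coordinates -/
theorem add_theta_lin (hl : Lm m x N0 lam) {N : ℕ} (hN : N ≤ N0) (t : K) (a : ℕ → K) :
    (fun s : ℕ => t + (s : K)) * lin (eb m x 0 N) a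
      = lin (eb m x 0 N) (fun n => (t + (n : K)) * a n
          - ∑ i ∈ range n, a i * lam (N - 2 * i) (n - i)) := by
  have h1 : (fun s : ℕ => t + (s : K)) * lin (eb m x 0 N) a
      = t • lin (eb m x 0 N) a + (fun s : ℕ => (s : K)) * lin (eb m x 0 N) a := by
    funext s
    simp only [Pi.mul_apply, Pi.add_apply, Pi.smul_apply, smul_eq_mul]
    ring
  rw [h1, theta_lin hl hN, lin_smul, lin_add]
  apply lin_congr
  intro n r _
  congr 1
  ring

theorem sub_theta_lin (hl : Lm m x N0 lam) {N : ℕ} (hN : N ≤ N0) (t : K) (a : ℕ → K) :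
    (fun s : ℕ => t - (s : K)) * lin (eb m x 0 N) a
      = lin (eb m x 0 N) (fun n => (t - (n : K)) * a n
          + ∑ i ∈ range n, a i * lam (N - 2 * i) (n - i)) := by
  have h1 : (fun s : ℕ => t - (s : K)) * lin (eb m x 0 N) a
      = t • lin (eb m x 0 N) a + (-1 : K) • ((fun s : ℕ => (s : K)) * lin (eb m x 0 N) a) := by
    funext s
    simp only [Pi.mul_apply, Pi.add_apply, Pi.smul_apply, smul_eq_mul]
    ring
  rw [h1, theta_lin hl hN, lin_smul, lin_smul, lin_add]
  apply lin_congr
  intro n r _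
  congr 1
  ring

/-- resolvent: existence of coordinates -/
theorem res_exists (hl : Lm m x N0 lam) {N : ℕ} (hN : N ≤ N0) (hx : ∀ z : ℤ, x + (z : K) ≠ 0)
    (t : ℕ) (a : ℕ → K) :
    ∃ b : ℕ → K, (fun s : ℕ => (x + (t : K) + (s : K))⁻¹) * lin (eb m x 0 N) a
        = lin (eb m x 0 N) b ∧
      ∀ j : ℕ, (x + (t : K) + (j : K)) * b j
        = a j + ∑ i ∈ range j, b i * lam (N - 2 * i) (j - i) := by
  have hd : ∀ j : ℕ, x + (t : K) + (j : K) ≠ 0 := by
    intro j
    have := hx ((t : ℤ) + (j : ℤ))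
    push_cast at this
    rwa [← add_assoc] at this
  refine ⟨slv (fun j => x + (t : K) + (j : K)) a (fun i j => lam (N - 2 * i) (j - i)), ?_,
    fun j => slv_eq hd j⟩
  set b := slv (fun j => x + (t : K) + (j : K)) a (fun i j => lam (N - 2 * i) (j - i)) with hb
  have h1 := add_theta_lin hl hN (x + (t : K)) b
  have h2 : (fun n : ℕ => (x + (t : K) + (n : K)) * b n
      - ∑ i ∈ range n, b i * lam (N - 2 * i) (n - i)) = a := by
    funext n
    have := slv_eq (a := a) (κ := fun i j => lam (N - 2 * i) (j - i)) hd n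
    rw [hb, this]
    ring
  rw [h2] at h1
  rw [← h1]
  funext s
  simp only [Pi.mul_apply]
  rw [← mul_assoc, inv_mul_cancel₀ (hd s), one_mul]

theorem resM_exists (hl : Lm m x N0 lam) {N : ℕ} (hN : N ≤ N0) (hx : ∀ z : ℤ, x + (z : K) ≠ 0)
    (a : ℕ → K) :
    ∃ b : ℕ → K, (fun s : ℕ => (x + (m : K) - (s : K))⁻¹) * lin (eb m x 0 N) a
        = lin (eb m x 0 N) b ∧
      ∀ j : ℕ, (x + (m : K) - (j : K)) * b j
        = a j - ∑ i ∈ range j, b i * lam (N - 2 * i) (j - i) := by
  have hd : ∀ j : ℕ, x + (m : K) - (j : K) ≠ 0 := by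
    intro j
    have := hx ((m : ℤ) - (j : ℤ))
    push_cast at this
    rwa [← add_sub_assoc] at this
  set b := slv (fun j => x + (m : K) - (j : K)) a (fun i j => - lam (N - 2 * i) (j - i)) with hb
  have h0 : ∀ j : ℕ, (x + (m : K) - (j : K)) * b j
      = a j - ∑ i ∈ range j, b i * lam (N - 2 * i) (j - i) := by
    intro j
    rw [hb, slv_eq hd j, sub_eq_add_neg, ← Finset.sum_neg_distrib]
    congr 1
    apply Finset.sum_congr rfl
    intro i _
    ring
  refine ⟨b, ?_, h0⟩
  have h1 := sub_theta_lin hl hN (x + (m : K)) b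
  have h2 : (fun n : ℕ => (x + (m : K) - (n : K)) * b n
      + ∑ i ∈ range n, b i * lam (N - 2 * i) (n - i)) = a := by
    funext n
    rw [h0 n]
    ring
  rw [h2] at h1
  rw [← h1]
  funext s
  simp only [Pi.mul_apply]
  rw [← mul_assoc, inv_mul_cancel₀ (hd s), one_mul]

/-- the inverse of `(x + θ)(m + x - θ)`: coordinates -/
theorem vinv_exists (hl : Lm m x N0 lam) {N : ℕ} (hN : N ≤ N0) (hx : ∀ z : ℤ, x + (z : K) ≠ 0)
    (a : ℕ → K) :
    ∃ b : ℕ → K, (fun s : ℕ => ((x + (s : K)) * (x + (m : K) - (s : K)))⁻¹) * lin (eb m x 0 N) a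
        = lin (eb m x 0 N) b ∧
      ∀ j : ℕ, (x + (j : K)) * ((x + (m : K) - (j : K)) * b j)
        = a j + ∑ i ∈ range j, (((m : K) - (i : K) - (j : K)) * b i
            + ∑ i' ∈ range i, b i' * lam (N - 2 * i') (i - i')) * lam (N - 2 * i) (j - i) := by
  obtain ⟨d, hd1, hd2⟩ := res_exists hl hN hx 0 a
  obtain ⟨b, hb1, hb2⟩ := resM_exists hl hN hx d
  refine ⟨b, ?_, ?_⟩
  · rw [← hb1, ← hd1]
    funext s
    simp only [Pi.mul_apply]
    rw [mul_inv]
    simp only [Nat.cast_zero, add_zero]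
    ring
  · intro j
    rw [hb2 j, mul_sub]
    have h1 := hd2 j
    simp only [Nat.cast_zero, add_zero] at h1
    rw [h1, add_sub_assoc, Finset.mul_sum, ← Finset.sum_sub_distrib]
    congr 1
    apply Finset.sum_congr rfl
    intro i _
    have h2 := hb2 i
    have h3 : d i = (x + (m : K) - (i : K)) * b i
        + ∑ i' ∈ range i, b i' * lam (N - 2 * i') (i - i') := by rw [h2]; ring
    rw [h3]
    ring

end theta

end Pool.Agent.Helper49.LP
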